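import Mathlib

set_option autoImplicit false
set_option linter.unusedSectionVars false

universe u

open Module IsLocalRing

namespace Pool.Agent.Y204.NM

section casimir

variable {k A R W : Type u} [CommRing k] [CommRing A] [Algebra k A] [CommRing R] [Algebra k R]
  [Algebra A R] [IsScalarTower k A R] [AddCommGroup W] [Module R W] [Module A W]
  [IsScalarTower A R W] (ev : W →ₗ[A] A)

/-- the functional `r ↦ ev (r • φ)` -/
def evMap (φ : W) : R →ₗ[A] A where
  toFun := fun r => ev (r • φ)
  map_add' := fun r s => by rw [add_smul, map_add]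
  map_smul' := fun a r => by rw [smul_assoc, map_smul, RingHom.id_apply]

variable {ι : Type u} [Fintype ι] (b : Basis ι A R)

variable (bs : ι → W) (hbs : ∀ i (r : R), ev (r • bs i) = b.repr r i)
  (hinj : ∀ φ : W, (∀ r : R, ev (r • φ) = 0) → φ = 0)

include hbs hinj in
/-- the Casimir property -/
lemma casimir (τ : W →ₗ[R] R) (G : R →ₗ[A] R) (r : R) :
    ∑ i, τ (bs i) * G (b i * r) = r * ∑ i, τ (bs i) * G (b i) := by
  classical
  have h1 : ∀ j, ∑ i, b.repr (b i * r) j • bs i = r • bs j := by
    intro j
    rw [← sub_eq_zero]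
    apply hinj
    intro s
    rw [smul_sub, map_sub, sub_eq_zero, Finset.smul_sum, map_sum]
    have h2 : ∀ i, ev (s • b.repr (b i * r) j • bs i) = b.repr (b i * r) j * b.repr s i := by
      intro i
      rw [smul_comm, map_smul, hbs, smul_eq_mul]
    simp_rw [h2]
    rw [smul_smul, hbs]
    conv_rhs => rw [← b.sum_repr s, Finset.sum_mul, map_sum, Finsupp.finsetSum_apply]
    refine Finset.sum_congr rfl fun i _ => ?_
    rw [smul_mul_assoc, map_smul, Finsupp.smul_apply, smul_eq_mul, mul_comm]
  have h3 : ∀ i, G (b i * r) = ∑ j, b.repr (b i * r) j • G (b j) := by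
    intro i
    conv_lhs => rw [← b.sum_repr (b i * r), map_sum]
    exact Finset.sum_congr rfl fun j _ => map_smul _ _ _
  have h4 : ∀ i, τ (bs i) * G (b i * r) = ∑ j, (b.repr (b i * r) j • τ (bs i)) * G (b j) := by
    intro i
    rw [h3, Finset.mul_sum]
    refine Finset.sum_congr rfl fun j _ => ?_
    rw [mul_smul_comm, smul_mul_assoc]
  simp_rw [h4]
  rw [Finset.sum_comm, Finset.mul_sum]
  refine Finset.sum_congr rfl fun j _ => ?_
  rw [← Finset.sum_mul]
  have h5 : ∑ i, b.repr (b i * r) j • τ (bs i) = r * τ (bs j) := by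
    have h6 := congrArg τ (h1 j)
    rw [map_sum, map_smul, smul_eq_mul] at h6
    rw [← h6]
    refine Finset.sum_congr rfl fun i _ => ?_
    rw [← algebraMap_smul R (b.repr (b i * r) j) (bs i), map_smul, smul_eq_mul, Algebra.smul_def]
  rw [h5]
  ring

/-- the connection `∇_v` attached to a basis -/
noncomputable def nab (v : Derivation k A A) (r : R) : R :=
  ∑ i, algebraMap A R (v (b.repr r i)) * b i

lemma nab_add (v : Derivation k A A) (r s : R) : nab b v (r + s) = nab b v r + nab b v s := by
  simp only [nab, map_add, Finsupp.add_apply, add_mul, Finset.sum_add_distrib]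

lemma nab_smul (v : Derivation k A A) (a : A) (r : R) :
    nab b v (a • r) = algebraMap A R (v a) * r + a • nab b v r := by
  have hr : r = ∑ i, algebraMap A R (b.repr r i) * b i := by
    conv_lhs => rw [← b.sum_repr r]
    exact Finset.sum_congr rfl fun i _ => Algebra.smul_def _ _
  have h1 : algebraMap A R (v a) * r =
      ∑ i, algebraMap A R (v a) * (algebraMap A R (b.repr r i) * b i) := by
    rw [← Finset.mul_sum, ← hr]
  rw [h1, nab, nab, Finset.smul_sum, ← Finset.sum_add_distrib]
  refine Finset.sum_congr rfl fun i _ => ?_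
  rw [map_smul, Finsupp.smul_apply, smul_eq_mul, Derivation.leibniz, smul_eq_mul, smul_eq_mul,
    map_add, map_mul, map_mul, Algebra.smul_def]
  ring

/-- the linear map `x ↦ ∇_v(xs) - s∇_v(x)` -/
noncomputable def gmap (v : Derivation k A A) (s : R) : R →ₗ[A] R where
  toFun := fun x => nab b v (x * s) - s * nab b v x
  map_add' := fun x y => by rw [add_mul, nab_add, nab_add]; ring
  map_smul' := fun a x => by
    rw [smul_mul_assoc, nab_smul, nab_smul, RingHom.id_apply, Algebra.smul_def, Algebra.smul_def,
      Algebra.smul_def]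
    ring

lemma gmap_apply (v : Derivation k A A) (s x : R) :
    gmap b v s x = nab b v (x * s) - s * nab b v x := rfl

lemma gmap_add (v : Derivation k A A) (s t x : R) :
    gmap b v (s + t) x = gmap b v s x + gmap b v t x := by
  rw [gmap_apply, gmap_apply, gmap_apply, mul_add, nab_add]
  ring

lemma gmap_mul (v : Derivation k A A) (r s x : R) :
    gmap b v (r * s) x = gmap b v s (x * r) + s * gmap b v r x := by
  rw [gmap_apply, gmap_apply, gmap_apply, ← mul_assoc]
  ring

lemma gmap_smul (v : Derivation k A A) (c : k) (s x : R) :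
    gmap b v (c • s) x = c • gmap b v s x := by
  have h1 : ∀ r : R, nab b v (c • r) = c • nab b v r := by
    intro r
    rw [← algebraMap_smul A c r, nab_smul, Derivation.map_algebraMap, map_zero, zero_mul, zero_add,
      algebraMap_smul]
  rw [gmap_apply, gmap_apply, mul_smul_comm, h1, smul_mul_assoc, smul_sub]

include hbs hinj in
/-- the derivation `δ_{v,τ}` -/
noncomputable def deltaDer (v : Derivation k A A) (τ : W →ₗ[R] R) : Derivation k R R :=
  Derivation.mk'
    { toFun := fun s => ∑ i, τ (bs i) * gmap b v s (b i)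
      map_add' := fun s t => by
        rw [← Finset.sum_add_distrib]
        exact Finset.sum_congr rfl fun i _ => by rw [gmap_add, mul_add]
      map_smul' := fun c s => by
        rw [RingHom.id_apply, Finset.smul_sum]
        exact Finset.sum_congr rfl fun i _ => by rw [gmap_smul, mul_smul_comm] }
    (fun r s => by
      change ∑ i, τ (bs i) * gmap b v (r * s) (b i) = r • ∑ i, τ (bs i) * gmap b v s (b i) +
        s • ∑ i, τ (bs i) * gmap b v r (b i)
      rw [smul_eq_mul, smul_eq_mul, ← casimir ev b bs hbs hinj τ (gmap b v s) r, Finset.mul_sum,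
        ← Finset.sum_add_distrib]
      refine Finset.sum_congr rfl fun i _ => ?_
      rw [gmap_mul]
      ring)

lemma deltaDer_apply (v : Derivation k A A) (τ : W →ₗ[R] R) (s : R) :
    deltaDer ev b bs hbs hinj v τ s = ∑ i, τ (bs i) * gmap b v s (b i) := rfl

/-- `δ_{v,τ}` as a linear function of `τ` -/
noncomputable def deltaLin (v : Derivation k A A) :
    (W →ₗ[R] R) →ₗ[R] Derivation k R R where
  toFun := fun τ => deltaDer ev b bs hbs hinj v τ
  map_add' := fun τ τ' => by
    ext s
    rw [Derivation.add_apply, deltaDer_apply, deltaDer_apply, deltaDer_apply,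
      ← Finset.sum_add_distrib]
    exact Finset.sum_congr rfl fun i _ => by rw [LinearMap.add_apply, add_mul]
  map_smul' := fun r τ => by
    ext s
    rw [Derivation.smul_apply, deltaDer_apply, deltaDer_apply, RingHom.id_apply, smul_eq_mul,
      Finset.mul_sum]
    exact Finset.sum_congr rfl fun i _ => by rw [LinearMap.smul_apply, smul_eq_mul, mul_assoc]

omit [Algebra A R] [IsScalarTower k A R] in
lemma der_sum_apply {κ : Type*} (s : Finset κ) (f : κ → Derivation k R R) (x : R) :
    (∑ j ∈ s, f j) x = ∑ j ∈ s, f j x := by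
  classical
  induction s using Finset.induction with
  | empty => rfl
  | insert a s ha ih =>
    rw [Finset.sum_insert ha, Finset.sum_insert ha, Derivation.add_apply, ih]

/-- `τ(Tr) E = ∑ α_j δ_{v_j,τ}` -/
theorem trace_smul_euler (E : Derivation k R R) {d : ℕ} (v : Fin d → Derivation k A A)
    (α : Fin d → A)
    (hE : ∀ a, E (algebraMap A R a) = algebraMap A R (∑ j, α j * v j a)) (τ : W →ₗ[R] R) :
    τ (∑ i, b i • bs i) • E =
      ∑ j, algebraMap A R (α j) • deltaDer ev b bs hbs hinj (v j) τ := by
  -- the linear map `H = E - ∑ α_j ∇_{v_j}`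
  let H : R →ₗ[A] R :=
    { toFun := fun x => E x - ∑ j, algebraMap A R (α j) * nab b (v j) x
      map_add' := fun x y => by
        simp_rw [nab_add, mul_add]
        rw [map_add, Finset.sum_add_distrib]
        ring
      map_smul' := fun a x => by
        rw [RingHom.id_apply, Algebra.smul_def, Algebra.smul_def, Derivation.leibniz, hE,
          smul_eq_mul, smul_eq_mul, map_sum]
        have h1 : ∀ j, algebraMap A R (α j) * nab b (v j) (algebraMap A R a * x) =
            algebraMap A R (α j * v j a) * x +
              algebraMap A R a * (algebraMap A R (α j) * nab b (v j) x) := by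
          intro j
          rw [← Algebra.smul_def a x, nab_smul, Algebra.smul_def, map_mul]
          ring
        simp_rw [h1]
        rw [Finset.sum_add_distrib, ← Finset.sum_mul, ← Finset.mul_sum]
        ring }
  have hH : ∀ x, H x = E x - ∑ j, algebraMap A R (α j) * nab b (v j) x := fun x => rfl
  ext s
  rw [Derivation.smul_apply, smul_eq_mul, map_sum]
  have h2 := casimir ev b bs hbs hinj τ H s
  have hsum : (∑ j, algebraMap A R (α j) • deltaDer ev b bs hbs hinj (v j) τ) s =
      ∑ j, algebraMap A R (α j) * ∑ i, τ (bs i) * gmap b (v j) s (b i) := by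
    rw [der_sum_apply]
    exact Finset.sum_congr rfl fun j _ => by
      rw [Derivation.smul_apply, smul_eq_mul, deltaDer_apply]
  rw [hsum]
  simp_rw [map_smul, smul_eq_mul]
  rw [Finset.mul_sum] at h2
  have h3 : ∀ i, τ (bs i) * H (b i * s) - s * (τ (bs i) * H (b i)) =
      b i * τ (bs i) * E s - ∑ j, algebraMap A R (α j) * (τ (bs i) * gmap b (v j) s (b i)) := by
    intro i
    rw [hH, hH, Derivation.leibniz, smul_eq_mul, smul_eq_mul]
    have h4 : ∑ j, algebraMap A R (α j) * (τ (bs i) * gmap b (v j) s (b i)) =
        τ (bs i) * (∑ j, algebraMap A R (α j) * nab b (v j) (b i * s)) -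
          s * (τ (bs i) * ∑ j, algebraMap A R (α j) * nab b (v j) (b i)) := by
      rw [Finset.mul_sum, Finset.mul_sum, Finset.mul_sum, ← Finset.sum_sub_distrib]
      refine Finset.sum_congr rfl fun j _ => ?_
      rw [gmap_apply]
      ring
    rw [h4]
    ring
  have h5 : ∑ i, (τ (bs i) * H (b i * s) - s * (τ (bs i) * H (b i))) = 0 := by
    rw [Finset.sum_sub_distrib, sub_eq_zero]
    exact h2
  simp_rw [h3] at h5
  rw [Finset.sum_sub_distrib, sub_eq_zero, Finset.sum_comm] at h5
  rw [Finset.sum_mul, h5]
  exact Finset.sum_congr rfl fun j _ => by rw [Finset.mul_sum]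

end casimir

/-- Data saying that the local ring `R` is finite free over a local ring `A`, that
`W = Hom_A(R, A)` (with evaluation at one `ev : W → A`) is a reflexive `R`-module, and that the
derivation `E` of `R` extends the derivation `∑ α j * v j` of `A` with `α j ∈ 𝔪_A`. -/
structure CanonicalData (k A R W : Type u) [CommRing k] [CommRing A] [IsLocalRing A] [Algebra k A]
    [CommRing R] [Algebra k R] [Algebra A R] [IsScalarTower k A R] [AddCommGroup W] [Module R W]
    [Module A W] [IsScalarTower A R W] (ev : W →ₗ[A] A) (E : Derivation k R R) {d : ℕ}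
    (v : Fin d → Derivation k A A) (α : Fin d → A) : Prop where
  free : Module.Free A R
  finite : Module.Finite A R
  rank : IsUnit ((Module.finrank A R : ℕ) : A)
  canonical : Function.Bijective (fun φ : W => evMap (R := R) ev φ)
  reflexive : Function.Bijective (Module.Dual.eval R W)
  mem : ∀ j, α j ∈ maximalIdeal A
  extends_euler : ∀ a, E (algebraMap A R a) = algebraMap A R (∑ j, α j * v j a)

/-- no linear functional on the derivations takes a unit value at the Euler derivation -/
theorem CanonicalData.not_isUnit {k A R W : Type u} [CommRing k] [CommRing A] [IsLocalRing A]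
    [Algebra k A]
    [CommRing R] [Algebra k R] [Algebra A R] [IsScalarTower k A R] [AddCommGroup W] [Module R W]
    [Module A W] [IsScalarTower A R W] {ev : W →ₗ[A] A} {E : Derivation k R R} {d : ℕ}
    {v : Fin d → Derivation k A A} {α : Fin d → A} (h : CanonicalData k A R W ev E v α)
    (ω : Derivation k R R →ₗ[R] R) : ¬ IsUnit (ω E) := by
  intro hu
  have := h.free
  have := h.finite
  let b := Module.Free.chooseBasis A R
  choose bs hbs' using fun i => h.canonical.2 (b.coord i)
  have hbs : ∀ i (r : R), ev (r • bs i) = b.repr r i := fun i r =>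
    congrArg (fun l => l r) (hbs' i)
  have hinj : ∀ φ : W, (∀ r : R, ev (r • φ) = 0) → φ = 0 := by
    intro φ hφ
    apply h.canonical.1
    apply LinearMap.ext
    intro r
    change ev (r • φ) = ev (r • (0 : W))
    rw [hφ, smul_zero, map_zero]
  choose c hc using fun j : Fin d => h.reflexive.2
    (ω ∘ₗ deltaLin ev b bs hbs hinj (v j))
  have hc' : ∀ j (τ : W →ₗ[R] R), τ (c j) = ω (deltaDer ev b bs hbs hinj (v j) τ) := fun j τ =>
    congrArg (fun l => l τ) (hc j)
  have h1 : ω E • (∑ i, b i • bs i) = ∑ j, α j • c j := by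
    apply h.reflexive.1
    apply LinearMap.ext
    intro τ
    change τ _ = τ _
    have h2 := congrArg ω (trace_smul_euler ev b bs hbs hinj E v α h.extends_euler τ)
    rw [map_smul, smul_eq_mul] at h2
    rw [map_smul, smul_eq_mul, mul_comm, h2, map_sum, map_sum]
    refine Finset.sum_congr rfl fun j _ => ?_
    rw [map_smul, ← hc', smul_eq_mul, ← algebraMap_smul R (α j) (c j), map_smul, smul_eq_mul]
  obtain ⟨u, hu⟩ := hu
  have h3 : ∑ i, b i • bs i = ∑ j, α j • ((↑u⁻¹ : R) • c j) := by
    have h4 : (↑u⁻¹ : R) • (ω E • (∑ i, b i • bs i)) = (↑u⁻¹ : R) • ∑ j, α j • c j := by rw [h1]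
    rw [← hu, smul_smul, Units.inv_mul, one_smul] at h4
    rw [h4, Finset.smul_sum]
    exact Finset.sum_congr rfl fun j _ => smul_comm _ _ _
  have h5 := congrArg ev h3
  rw [map_sum, map_sum] at h5
  have h6 : ∑ i, ev (b i • bs i) = ((Module.finrank A R : ℕ) : A) := by
    simp_rw [hbs, b.repr_self, Finsupp.single_eq_same]
    rw [Finset.sum_const, Finset.card_univ, nsmul_eq_mul, mul_one,
      Module.finrank_eq_card_basis b]
  rw [h6] at h5
  have h7 : ((Module.finrank A R : ℕ) : A) ∈ maximalIdeal A := by
    rw [h5]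
    refine Ideal.sum_mem _ fun j _ => ?_
    rw [map_smul, smul_eq_mul]
    exact Ideal.mul_mem_right _ _ (h.mem j)
  exact (mem_maximalIdeal _).1 h7 h.rank

end Pool.Agent.Y204.NM
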