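import Pool.Agent.Y204.NM.Euler

set_option autoImplicit false
set_option linter.unusedSectionVars false

universe u

open IsLocalRing

namespace Pool.Agent.Y204.NM

variable {S : Type u} [CommRing S] [IsLocalRing S]

/-- an ideal generated by eigenvectors with unit eigenvalues of a derivation
`∑ a i * D i` with `a i ∈ 𝔪` is contracted by it -/
theorem contracting_of_eigen (I : Ideal S) {n m : ℕ} (D : Fin n → Derivation ℤ S S)
    (a : Fin n → S) (ha : ∀ i, a i ∈ maximalIdeal S) (f : Fin m → S)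
    (hf : Ideal.span (Set.range f) = I)
    (hu : ∀ l, ∃ u : S, IsUnit u ∧ ∑ i, a i * D i (f l) = u * f l) :
    Contracting I D a := by
  obtain ⟨m', g, hQ, hg, hmin⟩ := exists_minimal_generators_of I
    (fun x => ∃ u : S, IsUnit u ∧ ∑ i, a i * D i x = u * x) ⟨m, f, hu, hf⟩
  choose u huu hE using hQ
  have hgI : ∀ l, g l ∈ I := fun l => hg ▸ Ideal.subset_span ⟨l, rfl⟩
  have hlin : ∀ c : Fin m' → S, ∑ i, a i * D i (∑ l, c l * g l) =
      ∑ l, c l * (u l * g l) + ∑ l, (∑ i, a i * D i (c l)) * g l := by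
    intro c
    have h1 : ∀ i, a i * D i (∑ l, c l * g l) =
        ∑ l, (c l * (a i * D i (g l)) + a i * D i (c l) * g l) := by
      intro i
      rw [map_sum, Finset.mul_sum]
      refine Finset.sum_congr rfl fun l _ => ?_
      rw [Derivation.leibniz, smul_eq_mul, smul_eq_mul]
      ring
    simp_rw [h1]
    rw [Finset.sum_comm, ← Finset.sum_add_distrib]
    refine Finset.sum_congr rfl fun l _ => ?_
    rw [Finset.sum_add_distrib, ← Finset.mul_sum, hE, Finset.sum_mul]
  have hEm : ∀ c : S, ∑ i, a i * D i c ∈ maximalIdeal S := fun c =>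
    Ideal.sum_mem _ fun i _ => Ideal.mul_mem_right _ _ (ha i)
  refine ⟨ha, ?_, ?_⟩
  · intro x hx
    rw [← hg, Ideal.mem_span_range_iff_exists_fun] at hx
    obtain ⟨c, rfl⟩ := hx
    rw [hlin]
    refine Ideal.add_mem _ (Ideal.sum_mem _ fun l _ => ?_) (Ideal.sum_mem _ fun l _ => ?_)
    · exact Ideal.mul_mem_left _ _ (Ideal.mul_mem_left _ _ (hgI l))
    · exact Ideal.mul_mem_left _ _ (hgI l)
  · intro x hx hEx
    rw [← hg, Ideal.mem_span_range_iff_exists_fun] at hx
    obtain ⟨c, rfl⟩ := hx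
    rw [hlin] at hEx
    have h2 : ∑ l, (c l * u l) * g l ∈ maximalIdeal S * I := by
      have h3 : ∑ l, (∑ i, a i * D i (c l)) * g l ∈ maximalIdeal S * I :=
        Ideal.sum_mem _ fun l _ => Ideal.mul_mem_mul (hEm _) (hgI l)
      have h4 := Ideal.sub_mem _ hEx h3
      rw [add_sub_cancel_right] at h4
      simp_rw [mul_assoc]
      exact h4
    have h5 := hmin _ h2
    refine Ideal.sum_mem _ fun l _ => Ideal.mul_mem_mul ?_ (hgI l)
    obtain ⟨v, hv⟩ := huu l
    have h6 : c l = (c l * u l) * (↑v⁻¹ : S) := by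
      rw [← hv, mul_assoc, Units.mul_inv, mul_one]
    rw [h6]
    exact Ideal.mul_mem_right _ _ (h5 l)

end Pool.Agent.Y204.NM
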