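import Pool.Agent.Y204.NM.Main

set_option autoImplicit false
set_option linter.unusedSectionVars false

universe u

open IsLocalRing Module RingTheory.Sequence

namespace Pool.Agent.Y204.NM

section

variable {S : Type u} [CommRing S]

/-- the ideal of the first `m` elements of a sequence -/
def seqIdeal (g : ℕ → S) (m : ℕ) : Ideal S := Ideal.span (g '' {j | j < m})

lemma seqIdeal_mono (g : ℕ → S) {m m' : ℕ} (h : m ≤ m') : seqIdeal g m ≤ seqIdeal g m' :=
  Ideal.span_mono (Set.image_mono fun _ hj => lt_of_lt_of_le hj h)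

lemma mem_seqIdeal (g : ℕ → S) {m j : ℕ} (h : j < m) : g j ∈ seqIdeal g m :=
  Ideal.subset_span ⟨j, h, rfl⟩

lemma exists_coeff (g : ℕ → S) (m : ℕ) (y : S) (hy : y ∈ seqIdeal g m) :
    ∃ d : ℕ → S, y = ∑ i ∈ Finset.range m, d i * g i := by
  refine Submodule.span_induction (p := fun y _ => ∃ d : ℕ → S,
    y = ∑ i ∈ Finset.range m, d i * g i) ?_ ?_ ?_ ?_ hy
  · rintro _ ⟨j, hj, rfl⟩
    refine ⟨Pi.single j 1, ?_⟩
    rw [Finset.sum_eq_single j]
    · rw [Pi.single_eq_same, one_mul]
    · intro i _ hij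
      rw [Pi.single_eq_of_ne hij, zero_mul]
    · intro h
      exact absurd (Finset.mem_range.2 hj) h
  · exact ⟨0, by simp⟩
  · rintro _ _ _ _ ⟨d, rfl⟩ ⟨e, rfl⟩
    exact ⟨d + e, by simp [add_mul, Finset.sum_add_distrib]⟩
  · rintro a _ _ ⟨d, rfl⟩
    exact ⟨fun i => a * d i, by simp [Finset.mul_sum, mul_assoc]⟩

/-- relations on a regular sequence have coefficients in the ideal -/
theorem coeff_mem_of_relation (g : ℕ → S) (m : ℕ)
    (hreg : ∀ i < m, ∀ a : S, g i * a ∈ seqIdeal g i → a ∈ seqIdeal g i) :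
    ∀ c : ℕ → S, ∑ i ∈ Finset.range m, c i * g i = 0 → ∀ i < m, c i ∈ seqIdeal g m := by
  induction m with
  | zero => intro c _ i hi; omega
  | succ m ih =>
    intro c hc i hi
    rw [Finset.sum_range_succ] at hc
    have h1 : g m * c m ∈ seqIdeal g m := by
      have : g m * c m = - ∑ i ∈ Finset.range m, c i * g i := by linear_combination hc
      rw [this]
      exact neg_mem (Ideal.sum_mem _ fun i hi =>
        Ideal.mul_mem_left _ _ (mem_seqIdeal g (Finset.mem_range.1 hi)))
    have h2 := hreg m (by omega) _ h1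
    obtain ⟨d, hd⟩ := exists_coeff g m _ h2
    have h3 : ∑ i ∈ Finset.range m, (c i + d i * g m) * g i = 0 := by
      have h4 : ∑ i ∈ Finset.range m, (c i + d i * g m) * g i =
          ∑ i ∈ Finset.range m, c i * g i + (∑ i ∈ Finset.range m, d i * g i) * g m := by
        rw [Finset.sum_mul, ← Finset.sum_add_distrib]
        exact Finset.sum_congr rfl fun i _ => by ring
      rw [h4, ← hd, hc]
    have h5 := ih (fun i hi => hreg i (by omega)) _ h3
    rcases Nat.lt_succ_iff_lt_or_eq.1 hi with hi' | rfl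
    · have h6 : c i = (c i + d i * g m) - d i * g m := by ring
      rw [h6]
      exact Ideal.sub_mem _ (seqIdeal_mono g (Nat.le_succ m) (h5 i hi'))
        (Ideal.mul_mem_left _ _ (mem_seqIdeal g (Nat.lt_succ_self m)))
    · exact seqIdeal_mono g (Nat.le_succ _) h2

/-- the conormal module of an ideal generated by a regular sequence is free -/
theorem free_cotangent (I : Ideal S) (rs : List S) (hI : Ideal.span {r : S | r ∈ rs} = I)
    (hreg : IsWeaklyRegular S rs) :
    Module.Free (S ⧸ I) I.Cotangent ∧ Module.Finite (S ⧸ I) I.Cotangent := by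
  let g : ℕ → S := fun i => rs.getD i 0
  have hseq : ∀ i ≤ rs.length, seqIdeal g i = Ideal.ofList (rs.take i) := by
    intro i hi
    rw [seqIdeal, Ideal.ofList]
    congr 1
    ext y
    simp only [Set.mem_image, Set.mem_ofPred_eq]
    rw [List.mem_iff_getElem]
    constructor
    · rintro ⟨j, hj, rfl⟩
      refine ⟨j, by rw [List.length_take]; omega, ?_⟩
      rw [List.getElem_take]
      simp only [g]
      rw [List.getD_eq_getElem]
    · rintro ⟨j, hj, rfl⟩
      rw [List.length_take] at hj
      refine ⟨j, by omega, ?_⟩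
      rw [List.getElem_take]
      simp only [g]
      rw [List.getD_eq_getElem]
  have hIs : seqIdeal g rs.length = I := by
    rw [hseq _ le_rfl, List.take_length, ← hI]
  have hreg' : ∀ i < rs.length, ∀ a : S, g i * a ∈ seqIdeal g i → a ∈ seqIdeal g i := by
    intro i hi a ha
    have h1 := hreg.regular_mod_prev i hi
    rw [hseq i hi.le] at ha ⊢
    have h2 : (Submodule.Quotient.mk a : S ⧸ (Ideal.ofList (rs.take i) • (⊤ : Submodule S S))) =
        0 := by
      apply h1
      change rs[i] • (Submodule.Quotient.mk a :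
        S ⧸ (Ideal.ofList (rs.take i) • (⊤ : Submodule S S))) = rs[i] • 0
      rw [smul_zero, ← Submodule.Quotient.mk_smul, Submodule.Quotient.mk_eq_zero, smul_eq_mul,
        Ideal.mul_top]
      have : rs[i] * a = g i * a := by
        simp only [g]
        rw [List.getD_eq_getElem]
      rw [smul_eq_mul, this]
      exact ha
    rw [Submodule.Quotient.mk_eq_zero, smul_eq_mul, Ideal.mul_top] at h2
    exact h2
  have hgI : ∀ i : Fin rs.length, g i ∈ I := fun i => hIs ▸ mem_seqIdeal g i.2
  let v : Fin rs.length → I.Cotangent := fun i => I.toCotangent ⟨g i, hgI i⟩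
  have hsmul : ∀ (c : S) (y : I.Cotangent), Ideal.Quotient.mk I c • y = c • y := by
    intro c y
    rw [← Ideal.Quotient.algebraMap_eq, algebraMap_smul]
  have hli : LinearIndependent (S ⧸ I) v := by
    rw [Fintype.linearIndependent_iff]
    intro c' hc' i
    choose c hc using fun j => Ideal.Quotient.mk_surjective (c' j)
    have h1 : I.toCotangent (∑ j, c j • ⟨g j, hgI j⟩) = 0 := by
      rw [← hc', map_sum]
      exact Finset.sum_congr rfl fun j _ => by rw [map_smul, ← hc, hsmul]
    rw [Ideal.toCotangent_eq_zero] at h1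
    have h2 : ∑ j, c j * g j ∈ I ^ 2 := by simpa using h1
    -- write the element of I ^ 2 with coefficients in I
    have h3 : ∀ y ∈ I ^ 2, ∃ e : ℕ → S, (∀ j, e j ∈ I) ∧
        y = ∑ j ∈ Finset.range rs.length, e j * g j := by
      intro y hy
      rw [pow_two] at hy
      refine Submodule.mul_induction_on hy ?_ ?_
      · intro a ha b hb
        rw [← hIs] at hb
        obtain ⟨d, rfl⟩ := exists_coeff g _ _ hb
        exact ⟨fun j => a * d j, fun j => Ideal.mul_mem_right _ _ ha, by
          simp [Finset.mul_sum, mul_assoc]⟩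
      · rintro a b ⟨d, hd, rfl⟩ ⟨e, he, rfl⟩
        exact ⟨fun j => d j + e j, fun j => add_mem (hd j) (he j), by
          simp [add_mul, Finset.sum_add_distrib]⟩
    obtain ⟨e, heI, he⟩ := h3 _ h2
    let cc : ℕ → S := fun j => if h : j < rs.length then c ⟨j, h⟩ else 0
    have hcc : ∀ j : Fin rs.length, cc j = c j := fun j => by simp [cc]
    have h4 : ∑ j ∈ Finset.range rs.length, (cc j - e j) * g j = 0 := by
      simp_rw [sub_mul]
      rw [Finset.sum_sub_distrib, ← he, Finset.sum_range fun j => cc j * g j]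
      simp_rw [hcc]
      exact sub_self _
    have h5 := coeff_mem_of_relation g rs.length hreg' _ h4 i i.2
    rw [hIs] at h5
    rw [← hc, Ideal.Quotient.eq_zero_iff_mem, ← hcc]
    have h6 : cc i = (cc i - e i) + e i := by ring
    rw [h6]
    exact add_mem h5 (heI _)
  have hsp : ⊤ ≤ Submodule.span (S ⧸ I) (Set.range v) := by
    intro y _
    obtain ⟨x, rfl⟩ := I.toCotangent_surjective y
    have hx : (x : S) ∈ seqIdeal g rs.length := hIs ▸ x.2
    obtain ⟨d, hd⟩ := exists_coeff g _ _ hx
    have hx2 : x = ∑ j : Fin rs.length, d j • (⟨g j, hgI j⟩ : I) := by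
      apply Subtype.ext
      rw [hd, Finset.sum_range]
      simp
    rw [hx2, map_sum]
    refine Submodule.sum_mem _ fun j _ => ?_
    rw [map_smul, ← hsmul]
    exact Submodule.smul_mem _ _ (Submodule.subset_span ⟨j, rfl⟩)
  let B := Basis.mk hli hsp
  exact ⟨Module.Free.of_basis B, Module.Finite.of_basis B⟩

end

section

variable {S : Type u} [CommRing S] [IsLocalRing S] [IsNoetherianRing S]

/-- for a complete intersection the Euler relation is trivial -/
theorem euler_trivial (I : Ideal S) (hI : I ≠ ⊤)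
    {n : ℕ} (D : Fin n → Derivation ℤ S S) (a : Fin n → S) (hE : Contracting I D a)
    [Module.Free (S ⧸ I) (I.Cotangent →ₗ[S ⧸ I] (S ⧸ I))]
    [Module.Finite (S ⧸ I) (I.Cotangent →ₗ[S ⧸ I] (S ⧸ I))] :
    ∃ (r : ℕ) (φ : Fin r → (I.Cotangent →ₗ[S ⧸ I] (S ⧸ I))) (c : Fin n → Fin r → S),
      (∀ i, derNormal I (D i) = ∑ j, Ideal.Quotient.mk I (c i j) • φ j) ∧
      (fun j => Ideal.Quotient.mk I (∑ i, a i * c i j)) = 0 := by
  have hnt : Nontrivial (S ⧸ I) := Ideal.Quotient.nontrivial_iff.2 hI
  let b := Module.finBasis (S ⧸ I) (I.Cotangent →ₗ[S ⧸ I] (S ⧸ I))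
  choose c hc using fun i : Fin n => fun j => Ideal.Quotient.mk_surjective
    (b.repr (derNormal I (D i)) j)
  have hc' : ∀ i, derNormal I (D i) = ∑ j, Ideal.Quotient.mk I (c i j) • b j := by
    intro i
    conv_lhs => rw [← b.sum_repr (derNormal I (D i))]
    exact Finset.sum_congr rfl fun j _ => by rw [hc]
  refine ⟨_, b, c, hc', ?_⟩
  have h1 := euler_mem_ker I D a hE b c hc'
  have h2 : LinearMap.ker (Fintype.linearCombination (S ⧸ I) b) = ⊥ := by
    rw [LinearMap.ker_eq_bot]
    exact b.linearIndependent.fintypeLinearCombination_injective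
  rwa [h2, Submodule.mem_bot] at h1

end

end Pool.Agent.Y204.NM
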