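import Pool.Agent.Y204.NM.FV2

set_option autoImplicit false
set_option linter.unusedSectionVars false

universe u

open Pool.Agent.W506.Hilb CategoryTheory TensorProduct IsLocalRing Module
open RingTheory.Sequence Pointwise

namespace Pool.Agent.Y204.NM

section

variable {R : Type u} [CommRing R]

lemma span_smul_eq (x : R) (M : Type u) [AddCommGroup M] [Module R M] :
    (Ideal.span {x} • (⊤ : Submodule R M)) = x • (⊤ : Submodule R M) :=
  Submodule.ideal_span_singleton_smul x ⊤

/-- comparison of the two quotients -/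
noncomputable def qxEquiv (x : R) (M : Type u) [AddCommGroup M] [Module R M] :
    Qx x M ≃ₗ[R] QuotSMulTop x M := Submodule.quotEquivOfEq _ _ (span_smul_eq x M)

theorem free_of_free_qx [IsLocalRing R] [IsNoetherianRing R] (x : R) (hx : x ∈ maximalIdeal R)
    (M : Type u) [AddCommGroup M] [Module R M] [Module.Finite R M]
    (hM : ∀ m : M, x • m = 0 → m = 0)
    (hfree : Module.Free (R ⧸ Ideal.span {x}) (Qx x M)) : Module.Free R M := by
  have hfp : Module.FinitePresentation R M := Module.finitePresentation_of_finite R M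
  have h1 : Module.Free (R ⧸ Ideal.span {x}) (QuotSMulTop x M) := by
    let e : Qx x M ≃ₗ[R ⧸ Ideal.span {x}] QuotSMulTop x M :=
      LinearEquiv.extendScalarsOfSurjective (qx_surj x) (qxEquiv x M)
    exact Module.Free.of_equiv e
  refine (Module.free_quotSMulTop_iff_free (R := R) (M := M) (x := x) ?_ ?_).1 h1
  · rw [IsLocalRing.jacobson_eq_maximalIdeal ⊥ bot_ne_top]
    exact hx
  · intro m1 m2 h
    have h2 : x • (m1 - m2) = 0 := by
      rw [smul_sub, sub_eq_zero]
      exact h
    exact sub_eq_zero.1 (hM _ h2)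

theorem weaklyRegular_cons (x : R) (rs : List R) :
    IsWeaklyRegular R (x :: rs) ↔ (∀ a : R, x * a = 0 → a = 0) ∧
      IsWeaklyRegular (R ⧸ Ideal.span {x}) (rs.map (Ideal.Quotient.mk (Ideal.span {x}))) := by
  rw [isWeaklyRegular_cons_iff]
  refine and_congr ⟨?_, ?_⟩ ?_
  · intro h a ha
    have : x • a = x • (0 : R) := by rw [smul_zero]; exact ha
    exact h this
  · intro h a b hab
    have h1 : x * (a - b) = 0 := by
      rw [mul_sub, sub_eq_zero]
      exact hab
    exact sub_eq_zero.1 (h _ h1)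
  · have heq : (Ideal.span {x} : Submodule R R) = x • (⊤ : Submodule R R) := by
      ext y
      rw [Submodule.mem_smul_pointwise_iff_exists]
      constructor
      · intro hy
        obtain ⟨a, rfl⟩ := Ideal.mem_span_singleton'.1 hy
        exact ⟨a, trivial, by rw [smul_eq_mul, mul_comm]⟩
      · rintro ⟨a, -, rfl⟩
        exact Ideal.mem_span_singleton'.2 ⟨a, by rw [smul_eq_mul, mul_comm]⟩
    have h1 := (Submodule.quotEquivOfEq _ _ heq).isWeaklyRegular_congr rs
    have h2 := isWeaklyRegular_map_algebraMap_iff (R := R) (S := R ⧸ Ideal.span {x})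
      (M := R ⧸ Ideal.span {x}) rs
    exact h1.symm.trans h2.symm

/-- depth zero from the absence of nonzerodivisors -/
theorem exists_socle [IsLocalRing R] [IsNoetherianRing R]
    (h : ∀ a ∈ maximalIdeal R, ∃ b : R, a * b = 0 ∧ b ≠ 0) :
    ∃ z : R, z ≠ 0 ∧ ∀ a ∈ maximalIdeal R, z * a = 0 := by
  classical
  have hfin := associatedPrimes.finite R R
  have h1 : ((maximalIdeal R : Ideal R) : Set R) ⊆
      ⋃ i ∈ (↑hfin.toFinset : Set (Ideal R)), ((id i : Ideal R) : Set R) := by
    intro a ha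
    obtain ⟨b, hab, hb⟩ := h a ha
    have h2 : a ∈ ⋃ p ∈ associatedPrimes R R, (p : Set R) := by
      rw [biUnion_associatedPrimes_eq_zero_divisors]
      exact ⟨b, hb, hab⟩
    simpa using h2
  rw [Ideal.subset_union_prime (f := id) ⊥ ⊥] at h1
  · obtain ⟨P, hP, hle⟩ := h1
    have hPa := hfin.mem_toFinset.1 hP
    obtain ⟨hPp, z0, hz0⟩ := isAssociatedPrime_iff.1 (AssociatedPrimes.mem_iff.1 hPa)
    have hmem : ∀ a : R, a ∈ P ↔ a * z0 = 0 := by
      intro a
      rw [hz0, Submodule.mem_colon_singleton, Submodule.mem_bot, smul_eq_mul]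
    refine ⟨z0, ?_, ?_⟩
    · rintro rfl
      exact hPp.ne_top ((Ideal.eq_top_iff_one _).2 ((hmem 1).2 (by rw [mul_zero])))
    · intro a ha
      rw [mul_comm]
      exact (hmem a).1 (hle ha)
  · intro P hP _ _
    exact (AssociatedPrimes.mem_iff.1 (hfin.mem_toFinset.1 hP)).isPrime

/-- if the maximal ideal has no nonzerodivisors, finite projective dimension means free -/
theorem free_of_no_nzd [IsLocalRing R] [IsNoetherianRing R]
    (h : ¬ ∃ a ∈ maximalIdeal R, ∀ b : R, a * b = 0 → b = 0) (M : Type u) [AddCommGroup M]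
    [Module R M] [Module.Finite R M] {n : ℕ} (hpd : PdLT R M n) : Module.Free R M := by
  push Not at h
  obtain ⟨z, hz, hzm⟩ := exists_socle h
  exact free_of_pdLT_depth0 z hz hzm n M hpd

lemma local_quot [IsLocalRing R] (x : R) (hx : x ∈ maximalIdeal R) :
    IsLocalRing (R ⧸ Ideal.span {x}) := by
  have hne : Ideal.span {x} ≠ ⊤ := by
    intro h
    have : (1 : R) ∈ Ideal.span {x} := h ▸ trivial
    have h2 : Ideal.span {x} ≤ maximalIdeal R := (Ideal.span_singleton_le_iff_mem _).2 hx
    exact (mem_maximalIdeal _).1 (h2 this) isUnit_one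
  have hnt : Nontrivial (R ⧸ Ideal.span {x}) := Ideal.Quotient.nontrivial_iff.2 hne
  exact IsLocalRing.of_surjective' (Ideal.Quotient.mk (Ideal.span {x})) Ideal.Quotient.mk_surjective

lemma mk_mem_maximal [IsLocalRing R] (x : R)
    [IsLocalRing (R ⧸ Ideal.span {x})] (b : R)
    (hb : Ideal.Quotient.mk (Ideal.span {x}) b ∈ maximalIdeal (R ⧸ Ideal.span {x})) :
    b ∈ maximalIdeal R := by
  rw [mem_maximalIdeal] at hb ⊢
  intro h
  exact hb (h.map _)

/-- Over a local ring of depth at most two, a dual of finite projective dimension is free. -/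
theorem dual_free_of_depth_le_two [IsLocalRing R] [IsNoetherianRing R]
    (hd : ∀ rs : List R, IsRegular R rs → rs.length ≤ 2) (M : Type u) [AddCommGroup M]
    [Module R M] [Module.Finite R M] {n : ℕ} (hpd : PdLT R (M →ₗ[R] R) n) :
    Module.Free R (M →ₗ[R] R) := by
  have hfin : Module.Finite R (M →ₗ[R] R) := inferInstance
  by_cases h0 : ∃ a ∈ maximalIdeal R, ∀ b : R, a * b = 0 → b = 0
  swap
  · exact free_of_no_nzd h0 _ hpd
  obtain ⟨a, ham, ha⟩ := h0
  have haN : ∀ φ : M →ₗ[R] R, a • φ = 0 → φ = 0 := by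
    intro φ hφ
    ext y
    exact ha _ (congrArg (fun ψ => ψ y) hφ)
  refine free_of_free_qx a ham _ haN ?_
  have hpd1 := pdLT_qx a (M →ₗ[R] R) haN ha hpd
  have hloc1 := local_quot a ham
  have hfin1 : Module.Finite (R ⧸ Ideal.span {a}) (Qx a (M →ₗ[R] R)) :=
    Module.Finite.of_restrictScalars_finite R _ _
  by_cases h1 : ∃ b ∈ maximalIdeal (R ⧸ Ideal.span {a}),
      ∀ c : R ⧸ Ideal.span {a}, b * c = 0 → c = 0
  swap
  · exact free_of_no_nzd h1 _ hpd1
  obtain ⟨b', hbm, hb⟩ := h1
  obtain ⟨b, rfl⟩ := Ideal.Quotient.mk_surjective b'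
  have hbN : ∀ q : Qx a (M →ₗ[R] R), Ideal.Quotient.mk (Ideal.span {a}) b • q = 0 → q = 0 := by
    intro q hq
    obtain ⟨φ, rfl⟩ := Submodule.Quotient.mk_surjective _ q
    have hq' : (Submodule.Quotient.mk (b • φ) : Qx a (M →ₗ[R] R)) = 0 := hq
    rw [qmk_eq_zero] at hq' ⊢
    obtain ⟨ψ, hψ⟩ := hq'
    have hdiv : ∀ y : M, ∃ w : R, φ y = a * w := by
      intro y
      have h2 : b * φ y = a * ψ y := congrArg (fun ψ => ψ y) hψ
      have h3 : Ideal.Quotient.mk (Ideal.span {a}) (φ y) = 0 := by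
        apply hb
        rw [← map_mul, h2, Ideal.Quotient.eq_zero_iff_mem]
        exact Ideal.mul_mem_right _ _ (Ideal.mem_span_singleton_self a)
      rw [Ideal.Quotient.eq_zero_iff_mem, Ideal.mem_span_singleton'] at h3
      obtain ⟨w, hw⟩ := h3
      exact ⟨w, by rw [← hw, mul_comm]⟩
    choose w hw using hdiv
    have hcancel : ∀ u v : R, a * u = a * v → u = v := by
      intro u v huv
      have h4 : a * (u - v) = 0 := by rw [mul_sub, sub_eq_zero]; exact huv
      exact sub_eq_zero.1 (ha _ h4)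
    refine ⟨{ toFun := w, map_add' := ?_, map_smul' := ?_ }, ?_⟩
    · intro y1 y2
      apply hcancel
      rw [mul_add, ← hw, ← hw, ← hw, map_add]
    · intro c y
      apply hcancel
      rw [RingHom.id_apply, ← hw, map_smul, smul_eq_mul, smul_eq_mul, hw y]
      ring
    · ext y
      exact hw y
  refine free_of_free_qx _ hbm _ hbN ?_
  have hpd2 := pdLT_qx _ _ hbN hb hpd1
  have hloc2 := local_quot _ hbm
  have hfin2 : Module.Finite ((R ⧸ Ideal.span {a}) ⧸
      Ideal.span {Ideal.Quotient.mk (Ideal.span {a}) b})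
      (Qx (Ideal.Quotient.mk (Ideal.span {a}) b) (Qx a (M →ₗ[R] R))) :=
    Module.Finite.of_restrictScalars_finite (R ⧸ Ideal.span {a}) _ _
  refine free_of_no_nzd ?_ _ hpd2
  rintro ⟨c', hcm, hc⟩
  obtain ⟨c'', rfl⟩ := Ideal.Quotient.mk_surjective c'
  obtain ⟨c, rfl⟩ := Ideal.Quotient.mk_surjective c''
  have hw : IsWeaklyRegular R [a, b, c] := by
    rw [weaklyRegular_cons]
    refine ⟨ha, ?_⟩
    rw [List.map_cons, weaklyRegular_cons]
    refine ⟨hb, ?_⟩
    rw [List.map_cons, List.map_nil, List.map_cons, weaklyRegular_cons]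
    exact ⟨hc, IsWeaklyRegular.nil _ _⟩
  have hbm' : b ∈ maximalIdeal R := mk_mem_maximal a b hbm
  have hcm' : c ∈ maximalIdeal R :=
    mk_mem_maximal a c (mk_mem_maximal _ _ hcm)
  have hr : IsRegular R [a, b, c] := by
    rw [IsLocalRing.isRegular_iff_isWeaklyRegular_of_subset_maximalIdeal]
    · exact hw
    · intro r hr
      simp only [List.mem_cons, List.not_mem_nil, or_false] at hr
      rcases hr with rfl | rfl | rfl <;> assumption
  have := hd _ hr
  simp at this

end

end Pool.Agent.Y204.NM
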