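import Mathlib

set_option autoImplicit false
set_option linter.unusedSectionVars false

universe u

open TensorProduct IsLocalRing Module

namespace Pool.Agent.Y204.NM

section gens

variable {S : Type u} [CommRing S] [IsLocalRing S]

/-- minimal generators of an ideal of a local ring, chosen among elements with a property -/
theorem exists_minimal_generators_of (I : Ideal S) (Q : S → Prop)
    (hex : ∃ m : ℕ, ∃ f : Fin m → S, (∀ l, Q (f l)) ∧ Ideal.span (Set.range f) = I) :
    ∃ (m : ℕ) (f : Fin m → S), (∀ l, Q (f l)) ∧ Ideal.span (Set.range f) = I ∧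
      ∀ c : Fin m → S, ∑ l, c l * f l ∈ maximalIdeal S * I → ∀ l, c l ∈ maximalIdeal S := by
  classical
  obtain ⟨f, hQ, hf⟩ := Nat.find_spec hex
  have hI : I.FG := by
    rw [← hf]
    exact ⟨Finset.univ.image f, by simp⟩
  refine ⟨Nat.find hex, f, hQ, hf, ?_⟩
  intro c hc l
  by_contra hl
  obtain ⟨m, hm⟩ : ∃ m, Nat.find hex = m + 1 := by
    have := l.pos
    exact ⟨Nat.find hex - 1, by omega⟩
  have hu : IsUnit (c l) := by
    by_contra hu
    exact hl ((mem_maximalIdeal _).2 hu)
  -- the ideal generated by the other generators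
  set J : Ideal S := Ideal.span (f '' {l}ᶜ) with hJ
  have hfI : ∀ i, f i ∈ I := fun i => hf ▸ Ideal.subset_span ⟨i, rfl⟩
  have hJI : J ≤ I := by
    rw [hJ, Ideal.span_le]
    rintro _ ⟨i, -, rfl⟩
    exact hfI i
  have hfl : f l ∈ J ⊔ maximalIdeal S * I := by
    have h1 : c l * f l ∈ J ⊔ maximalIdeal S * I := by
      have h2 : c l * f l = (∑ i, c i * f i) - ∑ i ∈ Finset.univ.erase l, c i * f i := by
        rw [← Finset.add_sum_erase Finset.univ (fun i => c i * f i) (Finset.mem_univ l)]
        ring
      rw [h2]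
      refine Submodule.sub_mem _ (Ideal.mem_sup_right hc) (Ideal.mem_sup_left ?_)
      refine Submodule.sum_mem _ fun i hi => ?_
      refine Ideal.mul_mem_left _ _ (Ideal.subset_span ⟨i, ?_, rfl⟩)
      simpa using Finset.ne_of_mem_erase hi
    obtain ⟨u, hu⟩ := hu
    have : f l = (↑u⁻¹ : S) * (c l * f l) := by
      rw [← hu, ← mul_assoc, Units.inv_mul, one_mul]
    rw [this]
    exact Ideal.mul_mem_left _ _ h1
  have hIle : I ≤ J ⊔ maximalIdeal S • I := by
    rw [← hf, Ideal.span_le]
    rintro _ ⟨i, rfl⟩
    by_cases hi : i = l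
    · subst hi
      rw [hf]
      exact hfl
    · exact Ideal.mem_sup_left (Ideal.subset_span ⟨i, by simpa using hi, rfl⟩)
  have hJeq : I ≤ J := Submodule.le_of_le_smul_of_le_jacobson_bot hI
    (maximalIdeal_le_jacobson _) hIle
  have hJI' : J = I := le_antisymm hJI hJeq
  -- contradiction with minimality
  refine Nat.find_min hex (m := m) (by omega) ?_
  let e : Fin (m + 1) ≃ Fin (Nat.find hex) := finCongr hm.symm
  refine ⟨fun i => f (e ((e.symm l).succAbove i)), fun i => hQ _, ?_⟩
  refine Eq.trans ?_ hJI'
  rw [hJ]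
  congr 1
  ext y
  constructor
  · rintro ⟨i, rfl⟩
    refine ⟨_, ?_, rfl⟩
    simp only [Set.mem_compl_iff, Set.mem_singleton_iff]
    intro h
    have h2 : (e.symm l).succAbove i = e.symm l := by
      apply e.injective
      rw [h, Equiv.apply_symm_apply]
    exact Fin.succAbove_ne _ _ h2
  · rintro ⟨i, hi, rfl⟩
    have h2 : e.symm i ≠ e.symm l := by
      intro h
      exact hi (e.symm.injective h)
    obtain ⟨j, hj⟩ := Fin.exists_succAbove_eq h2
    refine ⟨j, ?_⟩
    simp only [hj, Equiv.apply_symm_apply]

/-- minimal generators of a finitely generated ideal of a local ring -/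
theorem exists_minimal_generators (I : Ideal S) (hI : I.FG) :
    ∃ (m : ℕ) (f : Fin m → S), Ideal.span (Set.range f) = I ∧
      ∀ c : Fin m → S, ∑ l, c l * f l ∈ maximalIdeal S * I → ∀ l, c l ∈ maximalIdeal S := by
  obtain ⟨m, f, hf⟩ := Submodule.fg_iff_exists_fin_generating_family.1 hI
  obtain ⟨m', f', -, h1, h2⟩ := exists_minimal_generators_of I (fun _ => True)
    ⟨m, f, fun _ => trivial, hf⟩
  exact ⟨m', f', h1, h2⟩

end gens

section dual

variable {S : Type u} [CommRing S] [IsLocalRing S]

/-- The normal module `Hom(I/I²,S/I)`. -/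
abbrev NormalModule (I : Ideal S) : Type u := I.Cotangent →ₗ[S ⧸ I] (S ⧸ I)

lemma normal_smul (I : Ideal S) (φ : NormalModule I) (c : S) (x : I) :
    φ (I.toCotangent (c • x)) = Ideal.Quotient.mk I c * φ (I.toCotangent x) := by
  rw [map_smul, ← algebraMap_smul (S ⧸ I) c (I.toCotangent x), map_smul, smul_eq_mul,
    Ideal.Quotient.algebraMap_eq]

/-- if every element of `I` outside `𝔪 I` is sent to a unit by some element of the normal module,
then minimal generators of `I` are independent modulo `I²` -/
theorem independent_of_unit_values (I : Ideal S) (hI : I ≠ ⊤) {m : ℕ} (f : Fin m → S)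
    (hf : Ideal.span (Set.range f) = I)
    (hmin : ∀ c : Fin m → S, ∑ l, c l * f l ∈ maximalIdeal S * I → ∀ l, c l ∈ maximalIdeal S)
    (hval : ∀ x : I, (∀ (φ : NormalModule I) (t : S),
      φ (I.toCotangent x) = Ideal.Quotient.mk I t → t ∈ maximalIdeal S) →
      (x : S) ∈ maximalIdeal S * I) :
    ∀ c : Fin m → S, ∑ l, c l * f l ∈ I ^ 2 → ∀ l, c l ∈ I := by
  classical
  have hfI : ∀ i, f i ∈ I := fun i => hf ▸ Ideal.subset_span ⟨i, rfl⟩
  have hle : I ≤ maximalIdeal S := le_maximalIdeal hI
  -- values in the residue field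
  let ρ : (S ⧸ I) →+* ResidueField S := Ideal.Quotient.factor hle
  have hρ : ∀ t : S, ρ (Ideal.Quotient.mk I t) = residue S t := fun t => rfl
  let x : Fin m → I := fun l => ⟨f l, hfI l⟩
  -- evaluation map
  let ev : NormalModule I → (Fin m → ResidueField S) := fun φ l => ρ (φ (I.toCotangent (x l)))
  have hev : Submodule.span (ResidueField S) (Set.range ev) = ⊤ := by
    by_contra hne
    obtain ⟨g, hg0, hg⟩ := Submodule.exists_le_ker_of_lt_top _ (lt_top_iff_ne_top.2 hne)
    choose c hc using fun l => Ideal.Quotient.mk_surjective (g (Pi.single l 1))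
    have hgv : ∀ v : Fin m → ResidueField S, g v = ∑ l, v l * residue S (c l) := by
      intro v
      conv_lhs => rw [← LinearMap.sum_single_apply (φ := fun _ => ResidueField S) v]
      rw [map_sum]
      refine Finset.sum_congr rfl fun l _ => ?_
      have : (Pi.single l (v l) : Fin m → ResidueField S)
        = v l • (Pi.single l (1 : ResidueField S)) := by
        rw [← Pi.single_smul', smul_eq_mul, mul_one]
      rw [this, map_smul, smul_eq_mul]
      congr 1
      exact (hc l).symm
    let y : I := ∑ l, c l • x l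
    have hy : (y : S) ∈ maximalIdeal S * I := by
      refine hval y ?_
      intro φ t ht
      have h1 : φ (I.toCotangent y) = ∑ l, Ideal.Quotient.mk I (c l) * φ (I.toCotangent (x l)) := by
        rw [show y = ∑ l, c l • x l from rfl, map_sum, map_sum]
        exact Finset.sum_congr rfl fun l _ => normal_smul I φ (c l) (x l)
      have h2 : g (ev φ) = 0 := by
        have : ev φ ∈ Submodule.span (ResidueField S) (Set.range ev) :=
          Submodule.subset_span ⟨φ, rfl⟩
        exact hg this
      rw [hgv] at h2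
      have h3 : residue S t = 0 := by
        rw [← hρ, ← ht, h1, map_sum, ← h2]
        refine Finset.sum_congr rfl fun l _ => ?_
        rw [map_mul, hρ, mul_comm]
      exact (residue_eq_zero_iff t).1 h3
    have hy2 : ∑ l, c l * f l ∈ maximalIdeal S * I := by
      have : (y : S) = ∑ l, c l * f l := by
        rw [show y = ∑ l, c l • x l from rfl]
        simp [x]
      rwa [← this]
    have hcm := hmin c hy2
    apply hg0
    apply LinearMap.ext
    intro v
    rw [hgv, LinearMap.zero_apply]
    refine Finset.sum_eq_zero fun l _ => ?_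
    rw [(residue_eq_zero_iff (c l)).2 (hcm l), mul_zero]
  -- the range of ev is closed under everything
  have hrange : ∀ v : Fin m → ResidueField S, ∃ φ : NormalModule I, ev φ = v := by
    intro v
    have hv : v ∈ Submodule.span (ResidueField S) (Set.range ev) := hev ▸ trivial
    refine Submodule.span_induction (p := fun v _ => ∃ φ : NormalModule I, ev φ = v)
      ?_ ?_ ?_ ?_ hv
    · rintro _ ⟨φ, rfl⟩
      exact ⟨φ, rfl⟩
    · refine ⟨0, ?_⟩
      funext l
      simp [ev]
    · rintro _ _ _ _ ⟨φ, rfl⟩ ⟨ψ, rfl⟩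
      refine ⟨φ + ψ, ?_⟩
      funext l
      simp [ev]
    · rintro a _ _ ⟨φ, rfl⟩
      obtain ⟨t, rfl⟩ := Ideal.Quotient.mk_surjective a
      refine ⟨(Ideal.Quotient.mk I t) • φ, ?_⟩
      funext l
      simp only [ev, LinearMap.smul_apply, smul_eq_mul, map_mul]
      rfl
  choose φ hφ using fun j : Fin m => hrange (Pi.single j 1)
  intro c hc
  -- the matrix
  let A : Matrix (Fin m) (Fin m) (S ⧸ I) := Matrix.of fun j l => φ j (I.toCotangent (x l))
  have hloc : IsLocalRing (S ⧸ I) := by
    haveI : Nontrivial (S ⧸ I) := Ideal.Quotient.nontrivial_iff.2 hI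
    exact IsLocalRing.of_surjective' (Ideal.Quotient.mk I) Ideal.Quotient.mk_surjective
  have hdet : IsUnit A.det := by
    obtain ⟨t, ht⟩ := Ideal.Quotient.mk_surjective A.det
    have h1 : residue S t = 1 := by
      rw [← hρ, ht, RingHom.map_det]
      have : ρ.mapMatrix A = 1 := by
        ext j l
        have := congrFun (hφ j) l
        simp only [RingHom.mapMatrix_apply, Matrix.map_apply, A, Matrix.of_apply]
        rw [show ρ ((φ j) (I.toCotangent (x l))) = ev (φ j) l from rfl, hφ j]
        rw [Matrix.one_apply, Pi.single_apply]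
        simp only [eq_comm]
      rw [this, Matrix.det_one]
    have h2 : IsUnit t := by
      by_contra hu
      have := (residue_eq_zero_iff t).2 ((mem_maximalIdeal _).2 hu)
      rw [h1] at this
      exact one_ne_zero this
    rw [← ht]
    exact h2.map _
  have hAc : A.mulVec (fun l => Ideal.Quotient.mk I (c l)) = 0 := by
    funext j
    rw [Matrix.mulVec, Pi.zero_apply]
    have h1 : φ j (I.toCotangent (∑ l, c l • x l)) = 0 := by
      have : I.toCotangent (∑ l, c l • x l) = 0 := by
        rw [Ideal.toCotangent_eq_zero]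
        simpa [x] using hc
      rw [this, map_zero]
    rw [← h1, map_sum, map_sum]
    refine Finset.sum_congr rfl fun l _ => ?_
    rw [normal_smul, mul_comm]
    rfl
  have hz : (fun l => Ideal.Quotient.mk I (c l)) = 0 := by
    have h1 : A⁻¹.mulVec (A.mulVec (fun l => Ideal.Quotient.mk I (c l))) = 0 := by
      rw [hAc, Matrix.mulVec_zero]
    rwa [Matrix.mulVec_mulVec, Matrix.nonsing_inv_mul A hdet, Matrix.one_mulVec] at h1
  intro l
  exact Ideal.Quotient.eq_zero_iff_mem.1 (congrFun hz l)

end dual

end Pool.Agent.Y204.NM
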