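import Pool.Agent.Y204.NM.Dual

set_option autoImplicit false
set_option linter.unusedSectionVars false

universe u

open TensorProduct IsLocalRing Module

namespace Pool.Agent.Y204.NM

variable {S : Type u} [CommRing S]

/-- a linear map `I → S/I` factored through the conormal module -/
noncomputable def toNormal0 (I : Ideal S) (l : I →ₗ[S] (S ⧸ I)) : I.Cotangent →ₗ[S] (S ⧸ I) :=
  Submodule.liftQ (I • (⊤ : Submodule S I)) l (by
      rw [Submodule.smul_le]
      intro a ha x _
      rw [LinearMap.mem_ker, map_smul, Algebra.smul_def, Ideal.Quotient.algebraMap_eq,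
        Ideal.Quotient.eq_zero_iff_mem.2 ha, zero_mul])

lemma toNormal0_apply (I : Ideal S) (l : I →ₗ[S] (S ⧸ I)) (x : I) :
    toNormal0 I l (I.toCotangent x) = l x := rfl

/-- a linear map `I → S/I` as an element of the normal module -/
noncomputable def toNormal (I : Ideal S) (l : I →ₗ[S] (S ⧸ I)) : I.Cotangent →ₗ[S ⧸ I] (S ⧸ I) :=
  { toFun := fun y => toNormal0 I l y
    map_add' := fun y z => map_add _ y z
    map_smul' := fun c y => by
      obtain ⟨c, rfl⟩ := Ideal.Quotient.mk_surjective c
      obtain ⟨y, rfl⟩ := I.toCotangent_surjective y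
      rw [RingHom.id_apply, ← Ideal.Quotient.algebraMap_eq, algebraMap_smul, algebraMap_smul,
        map_smul] }

lemma toNormal_apply (I : Ideal S) (l : I →ₗ[S] (S ⧸ I)) (x : I) :
    toNormal I l (I.toCotangent x) = l x := rfl

/-- the element of the normal module given by a derivation -/
noncomputable def derNormal (I : Ideal S) (D : Derivation ℤ S S) :
    I.Cotangent →ₗ[S ⧸ I] (S ⧸ I) :=
  toNormal I
    { toFun := fun x => Ideal.Quotient.mk I (D x)
      map_add' := fun x y => by simp
      map_smul' := fun c x => by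
        have h : D ((c • x : I) : S) = c * D x + x * D c := by
          simp [Derivation.leibniz]
        rw [h, map_add, map_mul, map_mul, Ideal.Quotient.eq_zero_iff_mem.2 x.2, zero_mul, add_zero]
        rfl }

lemma derNormal_apply (I : Ideal S) (D : Derivation ℤ S S) (x : I) :
    derNormal I D (I.toCotangent x) = Ideal.Quotient.mk I (D x) := rfl

variable [IsLocalRing S]

/-- an ideal of a local ring is *contracted* if there is a derivation `E = ∑ a i * D i` with
coefficients `a i` in the maximal ideal which maps `I` to itself and is injective on `I/𝔪I` -/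
structure Contracting (I : Ideal S) {n : ℕ} (D : Fin n → Derivation ℤ S S) (a : Fin n → S) :
    Prop where
  mem : ∀ i, a i ∈ maximalIdeal S
  stable : ∀ f ∈ I, ∑ i, a i * D i f ∈ I
  inj : ∀ f ∈ I, ∑ i, a i * D i f ∈ maximalIdeal S * I → f ∈ maximalIdeal S * I

/-- the key computation with the Euler relation -/
theorem mem_of_nonunit_values (I : Ideal S) {n r : ℕ} (D : Fin n → Derivation ℤ S S)
    (a : Fin n → S) (hE : Contracting I D a)
    (φ : Fin r → (I.Cotangent →ₗ[S ⧸ I] (S ⧸ I))) (c : Fin n → Fin r → S)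
    (hc : ∀ i, derNormal I (D i) = ∑ j, Ideal.Quotient.mk I (c i j) • φ j)
    (hrel : (fun j => Ideal.Quotient.mk I (∑ i, a i * c i j)) ∈
      maximalIdeal S • (LinearMap.ker (Fintype.linearCombination (S ⧸ I) φ)).restrictScalars S)
    (x : I) (hx : ∀ (ψ : I.Cotangent →ₗ[S ⧸ I] (S ⧸ I)) (t : S),
      ψ (I.toCotangent x) = Ideal.Quotient.mk I t → t ∈ maximalIdeal S) :
    (x : S) ∈ maximalIdeal S * I := by
  choose t ht using fun j => Ideal.Quotient.mk_surjective (φ j (I.toCotangent x))
  have htm : ∀ j, t j ∈ maximalIdeal S := fun j => hx (φ j) (t j) (ht j).symm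
  -- the relation part
  have key : ∀ w ∈ maximalIdeal S •
      (LinearMap.ker (Fintype.linearCombination (S ⧸ I) φ)).restrictScalars S,
      ∀ g : Fin r → S, (∀ j, Ideal.Quotient.mk I (g j) = w j) →
        ∑ j, g j * t j ∈ maximalIdeal S * I := by
    intro w hw
    refine Submodule.smul_induction_on (p := fun w => ∀ g : Fin r → S,
      (∀ j, Ideal.Quotient.mk I (g j) = w j) → ∑ j, g j * t j ∈ maximalIdeal S * I) hw ?_ ?_
    · intro μ hμ z hz g hg
      choose z' hz' using fun j => Ideal.Quotient.mk_surjective (z j)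
      have hz0 : ∑ j, z' j * t j ∈ I := by
        rw [← Ideal.Quotient.eq_zero_iff_mem, map_sum]
        have h1 : Fintype.linearCombination (S ⧸ I) φ z = 0 := hz
        rw [Fintype.linearCombination_apply] at h1
        have h2 := congrArg (fun ψ => ψ (I.toCotangent x)) h1
        simp only [LinearMap.sum_apply, LinearMap.smul_apply, smul_eq_mul,
          LinearMap.zero_apply] at h2
        rw [← h2]
        refine Finset.sum_congr rfl fun j _ => ?_
        rw [map_mul, hz', ht]
      have hv : ∀ j, g j - μ * z' j ∈ I := by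
        intro j
        rw [← Ideal.Quotient.eq_zero_iff_mem, map_sub, hg, map_mul, hz', sub_eq_zero]
        rfl
      have h3 : ∑ j, g j * t j = μ * (∑ j, z' j * t j) + ∑ j, t j * (g j - μ * z' j) := by
        rw [Finset.mul_sum, ← Finset.sum_add_distrib]
        exact Finset.sum_congr rfl fun j _ => by ring
      rw [h3]
      exact Ideal.add_mem _ (Ideal.mul_mem_mul hμ hz0)
        (Ideal.sum_mem _ fun j _ => Ideal.mul_mem_mul (htm j) (hv j))
    · intro w1 w2 h1 h2 g hg
      choose g1 hg1 using fun j => Ideal.Quotient.mk_surjective (w1 j)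
      have h3 : ∑ j, g j * t j = ∑ j, g1 j * t j + ∑ j, (g j - g1 j) * t j := by
        rw [← Finset.sum_add_distrib]
        exact Finset.sum_congr rfl fun j _ => by ring
      rw [h3]
      refine Ideal.add_mem _ (h1 g1 hg1) (h2 _ fun j => ?_)
      rw [map_sub, hg, hg1, Pi.add_apply, add_sub_cancel_left]
  have h1 := key _ hrel (fun j => ∑ i, a i * c i j) (fun j => rfl)
  apply hE.inj _ x.2
  -- values of the derivations
  have hu : ∀ i, D i x - ∑ j, c i j * t j ∈ I := by
    intro i
    rw [← Ideal.Quotient.eq_zero_iff_mem, map_sub, sub_eq_zero]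
    have h2 := congrArg (fun ψ => ψ (I.toCotangent x)) (hc i)
    simp only [derNormal_apply, LinearMap.sum_apply, LinearMap.smul_apply, smul_eq_mul] at h2
    rw [h2, map_sum]
    refine Finset.sum_congr rfl fun j _ => ?_
    rw [map_mul, ht]
  have h4 : ∑ i, a i * D i x = ∑ j, (∑ i, a i * c i j) * t j +
      ∑ i, a i * (D i x - ∑ j, c i j * t j) := by
    have h5 : ∑ j, (∑ i, a i * c i j) * t j = ∑ i, a i * ∑ j, c i j * t j := by
      simp_rw [Finset.sum_mul, Finset.mul_sum]
      rw [Finset.sum_comm]
      refine Finset.sum_congr rfl fun i _ => Finset.sum_congr rfl fun j _ => by ring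
    rw [h5, ← Finset.sum_add_distrib]
    exact Finset.sum_congr rfl fun i _ => by ring
  rw [h4]
  exact Ideal.add_mem _ h1 (Ideal.sum_mem _ fun i _ => Ideal.mul_mem_mul (hE.mem i) (hu i))

/-- the Euler relation is a relation -/
theorem euler_mem_ker (I : Ideal S) {n r : ℕ} (D : Fin n → Derivation ℤ S S)
    (a : Fin n → S) (hE : Contracting I D a)
    (φ : Fin r → (I.Cotangent →ₗ[S ⧸ I] (S ⧸ I))) (c : Fin n → Fin r → S)
    (hc : ∀ i, derNormal I (D i) = ∑ j, Ideal.Quotient.mk I (c i j) • φ j) :
    (fun j => Ideal.Quotient.mk I (∑ i, a i * c i j)) ∈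
      LinearMap.ker (Fintype.linearCombination (S ⧸ I) φ) := by
  rw [LinearMap.mem_ker, Fintype.linearCombination_apply]
  have h1 : ∑ j, Ideal.Quotient.mk I (∑ i, a i * c i j) • φ j
      = ∑ i, Ideal.Quotient.mk I (a i) • derNormal I (D i) := by
    simp_rw [hc, map_sum, map_mul, Finset.smul_sum, Finset.sum_smul, mul_smul]
    rw [Finset.sum_comm]
  rw [h1]
  apply LinearMap.ext
  intro y
  obtain ⟨x, rfl⟩ := I.toCotangent_surjective y
  simp only [LinearMap.sum_apply, LinearMap.smul_apply, smul_eq_mul, LinearMap.zero_apply,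
    derNormal_apply]
  simp_rw [← map_mul]
  rw [← map_sum]
  exact Ideal.Quotient.eq_zero_iff_mem.2 (hE.stable _ x.2)

end Pool.Agent.Y204.NM
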