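import Pool.Agent.Y204.NM.Depth

set_option autoImplicit false
set_option linter.unusedSectionVars false

universe u

open Pool.Agent.W506.Hilb CategoryTheory Abelian TensorProduct IsLocalRing Module
open RingTheory.Sequence Pointwise

namespace Pool.Agent.Y204.NM

section

variable {R : Type u} [CommRing R]

/-- vanishing of `Ext^i_R(M, L)` -/
abbrev ExtZero (R : Type u) [CommRing R] (M L : Type u) [AddCommGroup M] [Module R M]
    [AddCommGroup L] [Module R L] (i : ℕ) : Prop :=
  Subsingleton (Ext (ModuleCat.of R M) (ModuleCat.of R L) i)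

variable (M : Type u) [AddCommGroup M] [Module R M] (L : Type u) [AddCommGroup L] [Module R L]

lemma extZero_quot (a : R) (ha : IsSMulRegular L a) (i : ℕ) (h1 : ExtZero R M L i)
    (h2 : ExtZero R M L (i + 1)) : ExtZero R M (QuotSMulTop a L) i := by
  let S := (ModuleCat.of R L).smulShortComplex a
  have hS : S.ShortExact := IsSMulRegular.smulShortComplex_shortExact (M := ModuleCat.of R L) ha
  refine subsingleton_of_forall_eq 0 fun (x : Ext (ModuleCat.of R M) S.X₃ i) => ?_
  have : Subsingleton (Ext (ModuleCat.of R M) S.X₁ (i + 1)) := h2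
  have : Subsingleton (Ext (ModuleCat.of R M) S.X₂ i) := h1
  obtain ⟨y, hy⟩ := Ext.covariant_sequence_exact₃ (ModuleCat.of R M) hS x rfl
    (Subsingleton.eq_zero _)
  rw [← hy, Subsingleton.eq_zero y, Ext.zero_comp]
  rfl

lemma lift_quot (a : R) (ha : IsSMulRegular L a) (h : ExtZero R M L 1)
    (φ : M →ₗ[R] QuotSMulTop a L) : ∃ ψ : M →ₗ[R] L, ∀ y, φ y = Submodule.Quotient.mk (ψ y) := by
  let S := (ModuleCat.of R L).smulShortComplex a
  have hS : S.ShortExact := IsSMulRegular.smulShortComplex_shortExact (M := ModuleCat.of R L) ha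
  have : Subsingleton (Ext (ModuleCat.of R M) S.X₁ 1) := h
  let φ' : ModuleCat.of R M ⟶ S.X₃ := ModuleCat.ofHom φ
  obtain ⟨f', hf'⟩ := Ext.covariant_sequence_exact₃ (ModuleCat.of R M) hS (Ext.mk₀ φ') (zero_add 1)
    (Subsingleton.eq_zero _)
  obtain ⟨f, hf⟩ := (Ext.mk₀_bijective (ModuleCat.of R M) S.X₂).2 f'
  rw [← hf, Ext.mk₀_comp_mk₀, (Ext.mk₀_bijective _ _).1.eq_iff] at hf'
  refine ⟨f.hom, fun y => ?_⟩
  have h2 := congrArg (fun g => g.hom y) hf'
  exact h2.symm

/-- the comparison map `Hom(M, L)/a → Hom(M, L/a)` -/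
noncomputable def homQuot (a : R) :
    QuotSMulTop a (M →ₗ[R] L) →ₗ[R] (M →ₗ[R] QuotSMulTop a L) :=
  Submodule.liftQ _
    { toFun := fun ψ => (Submodule.mkQ (a • (⊤ : Submodule R L))) ∘ₗ ψ
      map_add' := fun ψ χ => LinearMap.comp_add _ _ _
      map_smul' := fun c ψ => LinearMap.comp_smul _ _ _ } (by
    intro ψ hψ
    rw [Submodule.mem_smul_pointwise_iff_exists] at hψ
    obtain ⟨χ, -, rfl⟩ := hψ
    rw [LinearMap.mem_ker]
    ext y
    change (Submodule.Quotient.mk (a • χ y) : QuotSMulTop a L) = 0
    rw [Submodule.Quotient.mk_eq_zero]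
    exact Submodule.smul_mem_pointwise_smul _ _ _ trivial)

lemma homQuot_mk (a : R) (ψ : M →ₗ[R] L) (y : M) :
    homQuot M L a (Submodule.Quotient.mk ψ) y = Submodule.Quotient.mk (ψ y) := rfl

lemma homQuot_injective (a : R) (ha : IsSMulRegular L a) : Function.Injective (homQuot M L a) := by
  rw [injective_iff_map_eq_zero]
  intro q hq
  obtain ⟨ψ, rfl⟩ := Submodule.Quotient.mk_surjective _ q
  have hdiv : ∀ y : M, ∃ w : L, ψ y = a • w := by
    intro y
    have h1 : (Submodule.Quotient.mk (ψ y) : QuotSMulTop a L) = 0 := by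
      rw [← homQuot_mk, hq]
      rfl
    rw [Submodule.Quotient.mk_eq_zero, Submodule.mem_smul_pointwise_iff_exists] at h1
    obtain ⟨w, -, hw⟩ := h1
    exact ⟨w, hw.symm⟩
  choose w hw using hdiv
  rw [Submodule.Quotient.mk_eq_zero, Submodule.mem_smul_pointwise_iff_exists]
  refine ⟨{ toFun := w, map_add' := ?_, map_smul' := ?_ }, trivial, ?_⟩
  · intro y1 y2
    apply ha
    change a • w (y1 + y2) = a • (w y1 + w y2)
    rw [smul_add, ← hw, ← hw, ← hw, map_add]
  · intro c y
    apply ha
    change a • w (c • y) = a • (c • w y)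
    rw [← hw, map_smul, hw y, smul_comm]
  · ext y
    exact (hw y).symm

lemma regular_hom (a : R) (ha : IsSMulRegular L a) : IsSMulRegular (M →ₗ[R] L) a := by
  intro φ ψ h
  ext y
  exact ha (congrArg (fun χ => χ y) h)

/-- regular sequences of length at most `j + 2` on `L` are regular on `Hom(M, L)` when
`Ext^i(M, L) = 0` for `1 ≤ i ≤ j` -/
theorem weaklyRegular_hom (rs : List R) : ∀ (L : Type u) [AddCommGroup L] [Module R L] (j : ℕ),
    rs.length ≤ j + 2 → IsWeaklyRegular L rs → (∀ i, 1 ≤ i → i ≤ j → ExtZero R M L i) →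
    IsWeaklyRegular (M →ₗ[R] L) rs := by
  induction rs with
  | nil => intro L _ _ j _ _ _; exact IsWeaklyRegular.nil _ _
  | cons a rs ih =>
    intro L _ _ j hlen hreg hext
    rw [isWeaklyRegular_cons_iff] at hreg ⊢
    refine ⟨regular_hom M L a hreg.1, ?_⟩
    match j with
    | 0 =>
      match rs with
      | [] => exact IsWeaklyRegular.nil _ _
      | [b] =>
        rw [isWeaklyRegular_singleton_iff] at hreg ⊢
        have h1 := regular_hom M (QuotSMulTop a L) b hreg.2
        intro p q hpq
        apply homQuot_injective M L a hreg.1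
        apply h1
        change b • homQuot M L a p = b • homQuot M L a q
        rw [← map_smul, ← map_smul]
        exact congrArg _ hpq
      | b :: c :: rs =>
        exfalso
        simp at hlen
    | j + 1 =>
      have hbij : Function.Bijective (homQuot M L a) := by
        refine ⟨homQuot_injective M L a hreg.1, fun φ => ?_⟩
        obtain ⟨ψ, hψ⟩ := lift_quot M L a hreg.1 (hext 1 le_rfl (by omega)) φ
        refine ⟨Submodule.Quotient.mk ψ, ?_⟩
        ext y
        rw [homQuot_mk, hψ]
      have h1 := ih (QuotSMulTop a L) j (by simp at hlen; omega) hreg.2 (fun i hi hij =>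
        extZero_quot M L a hreg.1 i (hext i hi (by omega)) (hext (i + 1) (by omega) (by omega)))
      exact ((LinearEquiv.ofBijective _ hbij).isWeaklyRegular_congr rs).2 h1

end

/-- finite projective dimension and a maximal regular sequence which is regular on the module
imply freeness -/
theorem free_of_maximal_regular {n : ℕ} (t : ℕ) : ∀ (R : Type u) [CommRing R] [IsLocalRing R]
    [IsNoetherianRing R] (rs : List R), rs.length = t → (∀ r ∈ rs, r ∈ maximalIdeal R) →
    IsWeaklyRegular R rs → (∀ c ∈ maximalIdeal R, ¬ IsWeaklyRegular R (rs ++ [c])) →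
    ∀ (N : Type u) [AddCommGroup N] [Module R N] [Module.Finite R N], IsWeaklyRegular N rs →
    PdLT R N n → Module.Free R N := by
  induction t with
  | zero =>
    intro R _ _ _ rs hlen _ _ hmax N _ _ _ _ hpd
    obtain rfl := List.length_eq_zero_iff.1 hlen
    refine free_of_no_nzd ?_ N hpd
    rintro ⟨c, hc, hreg⟩
    apply hmax c hc
    rw [List.nil_append, weaklyRegular_cons]
    exact ⟨hreg, IsWeaklyRegular.nil _ _⟩
  | succ t ih =>
    intro R _ _ _ rs hlen hmem hreg hmax N _ _ _ hN hpd
    match rs with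
    | [] => simp at hlen
    | a :: rs =>
      have ham : a ∈ maximalIdeal R := hmem a (by simp)
      rw [weaklyRegular_cons] at hreg
      rw [isWeaklyRegular_cons_iff] at hN
      have haN : ∀ y : N, a • y = 0 → y = 0 := by
        intro y hy
        apply hN.1
        change a • y = a • (0 : N)
        rw [hy, smul_zero]
      refine free_of_free_qx a ham N haN ?_
      have hpd1 := pdLT_qx a N haN hreg.1 hpd
      have hloc1 := local_quot a ham
      have hfin1 : Module.Finite (R ⧸ Ideal.span {a}) (Qx a N) :=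
        Module.Finite.of_restrictScalars_finite R _ _
      refine ih (R ⧸ Ideal.span {a}) (rs.map (Ideal.Quotient.mk (Ideal.span {a}))) ?_ ?_ hreg.2 ?_
        (Qx a N) ?_ hpd1
      · simp at hlen ⊢
        exact hlen
      · intro r hr
        rw [List.mem_map] at hr
        obtain ⟨r, hr, rfl⟩ := hr
        have h1 : r ∈ maximalIdeal R := hmem r (by simp [hr])
        rw [mem_maximalIdeal, mem_nonunits_iff] at h1 ⊢
        intro hu
        apply h1
        exact (IsLocalHom.of_surjective (Ideal.Quotient.mk (Ideal.span {a}))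
          Ideal.Quotient.mk_surjective).map_nonunit r hu
      · intro c' hc' hw
        obtain ⟨c, rfl⟩ := Ideal.Quotient.mk_surjective c'
        apply hmax c (mk_mem_maximal a c hc')
        rw [List.cons_append, weaklyRegular_cons]
        refine ⟨hreg.1, ?_⟩
        rw [List.map_append]
        exact hw
      · have h1 := (isWeaklyRegular_map_algebraMap_iff (R := R) (S := R ⧸ Ideal.span {a})
          (M := Qx a N) rs).2 (((qxEquiv a N).isWeaklyRegular_congr rs).2 hN.2)
        exact h1

/-- a maximal regular sequence exists when lengths are bounded -/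
theorem exists_maximal_regular (R : Type u) [CommRing R] [IsLocalRing R] [IsNoetherianRing R]
    (t : ℕ) (hd : ∀ rs : List R, IsRegular R rs → rs.length ≤ t) :
    ∃ rs : List R, rs.length ≤ t ∧ (∀ r ∈ rs, r ∈ maximalIdeal R) ∧ IsWeaklyRegular R rs ∧
      ∀ c ∈ maximalIdeal R, ¬ IsWeaklyRegular R (rs ++ [c]) := by
  have hd' : ∀ rs : List R, (∀ r ∈ rs, r ∈ maximalIdeal R) → IsWeaklyRegular R rs →
      rs.length ≤ t := fun rs h1 h2 => hd rs
    ((IsLocalRing.isRegular_iff_isWeaklyRegular_of_subset_maximalIdeal h1).2 h2)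
  by_contra hne
  push Not at hne
  have hall : ∀ m : ℕ, ∃ rs : List R, rs.length = m ∧ (∀ r ∈ rs, r ∈ maximalIdeal R) ∧
      IsWeaklyRegular R rs := by
    intro m
    induction m with
    | zero => exact ⟨[], rfl, by simp, IsWeaklyRegular.nil _ _⟩
    | succ m ih =>
      obtain ⟨rs, hlen, hmem, hreg⟩ := ih
      obtain ⟨c, hc, hcr⟩ := hne rs (hd' rs hmem hreg) hmem hreg
      refine ⟨rs ++ [c], by simp [hlen], ?_, hcr⟩
      intro r hr
      rw [List.mem_append, List.mem_singleton] at hr
      rcases hr with hr | rfl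
      · exact hmem r hr
      · exact hc
  obtain ⟨rs, hlen, hmem, hreg⟩ := hall (t + 1)
  have := hd' rs hmem hreg
  omega

/-- a dual of finite projective dimension is free when the relevant `Ext` modules vanish -/
theorem dual_free_of_ext (R : Type u) [CommRing R] [IsLocalRing R] [IsNoetherianRing R]
    (t : ℕ) (hd : ∀ rs : List R, IsRegular R rs → rs.length ≤ t) (M : Type u) [AddCommGroup M]
    [Module R M] [Module.Finite R M] (hext : ∀ i, 1 ≤ i → i + 2 ≤ t → ExtZero R M R i) {n : ℕ}
    (hpd : PdLT R (M →ₗ[R] R) n) : Module.Free R (M →ₗ[R] R) := by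
  obtain ⟨rs, hlen, hmem, hreg, hmax⟩ := exists_maximal_regular R t hd
  refine free_of_maximal_regular _ R rs rfl hmem hreg hmax _ ?_ hpd
  exact weaklyRegular_hom M rs R (t - 2) (by omega) hreg (fun i hi hij => hext i hi (by omega))

end Pool.Agent.Y204.NM
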