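import Pool.Agent.Y204.NM.Pd

set_option autoImplicit false
set_option linter.unusedSectionVars false

universe u

open Pool.Agent.W506.Hilb CategoryTheory TensorProduct IsLocalRing Module
open RingTheory.Sequence

namespace Pool.Agent.Y204.NM

/-- `J` is generated by `f` and `f` is independent modulo `J²`, i.e. `J/J²` is free on `f`. -/
def FreeConormal {A : Type u} [CommRing A] (J : Ideal A) {m : ℕ} (f : Fin m → A) : Prop :=
  Ideal.span (Set.range f) = J ∧ ∀ c : Fin m → A, ∑ l, c l * f l ∈ J ^ 2 → ∀ l, c l ∈ J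

section nzd

variable {A : Type u} [CommRing A] [IsNoetherianRing A]

/-- an ideal with free nonzero conormal module and finite projective dimension is not
contained in an associated prime of the ring -/
theorem not_le_associatedPrime (J : Ideal A) {m : ℕ} (f : Fin (m + 1) → A)
    (hf : FreeConormal J f) {n : ℕ} (hpd : PdLT A J n) (P : Ideal A)
    (hP : P ∈ associatedPrimes A A) : ¬ J ≤ P := by
  intro hJP
  obtain ⟨hPp, z0, hz0⟩ := isAssociatedPrime_iff.1 (AssociatedPrimes.mem_iff.1 hP)
  have hmem : ∀ a : A, a ∈ P ↔ a * z0 = 0 := by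
    intro a
    rw [hz0, Submodule.mem_colon_singleton, Submodule.mem_bot, smul_eq_mul]
  let B := Localization.AtPrime P
  let z : B := algebraMap A B z0
  have hz : z ≠ 0 := by
    intro h
    obtain ⟨s, hs⟩ := (IsLocalization.map_eq_zero_iff P.primeCompl B z0).1 h
    exact s.2 ((hmem _).2 hs)
  have hzm : ∀ a ∈ maximalIdeal B, z * a = 0 := by
    intro a ha
    obtain ⟨p, s, rfl⟩ := IsLocalization.exists_mk'_eq P.primeCompl a
    have hp : p ∈ P := by
      by_contra hp
      have h1 : IsUnit (IsLocalization.mk' B p s) := by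
        rw [IsLocalization.AtPrime.isUnit_mk'_iff B P p s]
        exact hp
      exact (mem_maximalIdeal _).1 ha h1
    rw [show z = algebraMap A B z0 from rfl, mul_comm, ← IsLocalization.mk'_one (M := P.primeCompl) B z0,
      ← IsLocalization.mk'_mul, (hmem p).1 hp, IsLocalization.mk'_zero]
  have hfree : Module.Free B (B ⊗[A] J) :=
    free_of_pdLT_depth0 z hz hzm n _ (pdLT_baseChange_flat B J hpd)
  have hkill : ∀ y : B ⊗[A] J, z • y = 0 := by
    intro y
    induction y using TensorProduct.induction_on with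
    | zero => rw [smul_zero]
    | add y1 y2 h1 h2 => rw [smul_add, h1, h2, add_zero]
    | tmul b j =>
      have h1 : z0 • j = 0 := by
        apply Subtype.ext
        have := (hmem (j : A)).1 (hJP j.2)
        rw [Submodule.coe_smul, smul_eq_mul, mul_comm, this]
        rfl
      have h2 : z • (b ⊗ₜ[A] j) = (z0 • b) ⊗ₜ[A] j := by
        rw [TensorProduct.smul_tmul', smul_eq_mul, Algebra.smul_def]
      rw [h2, TensorProduct.smul_tmul, h1, TensorProduct.tmul_zero]
  have hzero : ∀ y : B ⊗[A] J, y = 0 := by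
    intro y
    let b := Module.Free.chooseBasis B (B ⊗[A] J)
    apply b.repr.injective
    rw [map_zero]
    ext i
    exfalso
    have h1 := congrArg (fun w => b.repr w i) (hkill (b i))
    simp at h1
    exact hz h1
  -- the element `1 ⊗ f 0`
  have hf0 : f 0 ∈ J := hf.1 ▸ Ideal.subset_span ⟨0, rfl⟩
  have h0 : algebraMap A B (f 0) = 0 := by
    have h1 := congrArg (fun w => (TensorProduct.rid A B) (LinearMap.lTensor B J.subtype w))
      (hzero ((1 : B) ⊗ₜ[A] (⟨f 0, hf0⟩ : J)))
    simp only [LinearMap.lTensor_tmul, map_zero, TensorProduct.rid_tmul] at h1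
    rw [Algebra.smul_def, mul_one] at h1
    exact h1
  obtain ⟨s, hs⟩ := (IsLocalization.map_eq_zero_iff P.primeCompl B (f 0)).1 h0
  have h1 := hf.2 (Pi.single 0 (s : A)) (by
    rw [Finset.sum_eq_single 0]
    · rw [Pi.single_eq_same, hs]
      exact zero_mem _
    · intro b _ hb
      rw [Pi.single_eq_of_ne hb, zero_mul]
    · intro h
      exact absurd (Finset.mem_univ _) h) 0
  rw [Pi.single_eq_same] at h1
  exact s.2 (hJP h1)

/-- prime avoidance: a nonzerodivisor of `A` in `J`, outside a given ideal -/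
theorem exists_nzd (J : Ideal A) {m : ℕ} (f : Fin (m + 1) → A)
    (hf : FreeConormal J f) {n : ℕ} (hpd : PdLT A J n) (K : Ideal A) (hK : ¬ J ≤ K) :
    ∃ x ∈ J, x ∉ K ∧ ∀ a : A, x * a = 0 → a = 0 := by
  classical
  have hfin := associatedPrimes.finite A A
  let s : Finset (Ideal A) := insert K hfin.toFinset
  have h1 : ¬ ((J : Set A) ⊆ ⋃ i ∈ (↑s : Set (Ideal A)), ((id i : Ideal A) : Set A)) := by
    rw [Ideal.subset_union_prime (f := id) K K]
    · rintro ⟨P, hPs, hP⟩
      rcases Finset.mem_insert.1 hPs with rfl | hPs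
      · exact hK hP
      · exact not_le_associatedPrime J f hf hpd P (hfin.mem_toFinset.1 hPs) hP
    · intro P hPs hPK _
      rcases Finset.mem_insert.1 hPs with rfl | hPs
      · exact absurd rfl hPK
      · exact (AssociatedPrimes.mem_iff.1 (hfin.mem_toFinset.1 hPs)).isPrime
  rw [Set.not_subset] at h1
  obtain ⟨x, hxJ, hx⟩ := h1
  refine ⟨x, hxJ, ?_, ?_⟩
  · intro hxK
    apply hx
    exact Set.mem_biUnion (x := K) (by simp [s]) hxK
  · intro a ha
    by_contra ha0
    have h2 : x ∈ ⋃ p ∈ associatedPrimes A A, (p : Set A) := by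
      rw [biUnion_associatedPrimes_eq_zero_divisors]
      exact ⟨a, ha0, ha⟩
    apply hx
    rw [Set.mem_iUnion₂] at h2
    obtain ⟨p, hp, hxp⟩ := h2
    exact Set.mem_biUnion (x := p) (by
      simp only [s, Finset.coe_insert, Set.Finite.coe_toFinset]
      exact Or.inr hp) hxp

end nzd

section retract

variable {A : Type u} [CommRing A] (J : Ideal A) {m : ℕ} (g : Fin m → A) (x : A) (hx : x ∈ J)
  (hgen : ∀ y ∈ J, ∃ (d : Fin m → A) (e : A), y = ∑ j, d j * g j + e * x)
  (hind : ∀ (d : Fin m → A) (e : A), ∑ j, d j * g j + e * x ∈ J ^ 2 → e ∈ J)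

include hx hgen hind in
/-- the coordinate of `x` -/
lemma exists_coord : ∃ l : J →ₗ[A] (A ⧸ J), ∀ (y : J) (d : Fin m → A) (e : A),
    (y : A) = ∑ j, d j * g j + e * x → l y = Ideal.Quotient.mk J e := by
  choose d e hde using fun y : J => hgen y y.2
  have huniq : ∀ (d1 d2 : Fin m → A) (e1 e2 : A),
      ∑ j, d1 j * g j + e1 * x = ∑ j, d2 j * g j + e2 * x →
      Ideal.Quotient.mk J e1 = Ideal.Quotient.mk J e2 := by
    intro d1 d2 e1 e2 h
    rw [← sub_eq_zero, ← map_sub, Ideal.Quotient.eq_zero_iff_mem]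
    apply hind (fun j => d1 j - d2 j)
    have : ∑ j, (d1 j - d2 j) * g j + (e1 - e2) * x = 0 := by
      simp_rw [sub_mul]
      rw [Finset.sum_sub_distrib]
      linear_combination h
    rw [this]
    exact zero_mem _
  refine ⟨{ toFun := fun y => Ideal.Quotient.mk J (e y), map_add' := ?_, map_smul' := ?_ }, ?_⟩
  · intro y1 y2
    rw [← map_add]
    apply huniq (d (y1 + y2)) (fun j => d y1 j + d y2 j)
    rw [← hde (y1 + y2)]
    simp_rw [add_mul]
    rw [Finset.sum_add_distrib, Submodule.coe_add]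
    conv_lhs => rw [hde y1, hde y2]
    ring
  · intro a y
    rw [RingHom.id_apply, Algebra.smul_def, Ideal.Quotient.algebraMap_eq, ← map_mul]
    apply huniq (d (a • y)) (fun j => a * d y j)
    rw [← hde (a • y), Submodule.coe_smul, smul_eq_mul]
    conv_lhs => rw [hde y]
    rw [mul_add, Finset.mul_sum]
    simp_rw [mul_assoc]
  · intro y d' e' h
    exact huniq (d y) d' (e y) e' (by rw [← hde y, h])

include hx hgen hind in
/-- finite projective dimension passes to the image of `J` modulo `x` -/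
theorem pdLT_quotient (hreg : ∀ a : A, x * a = 0 → a = 0) {n : ℕ} (hpd : PdLT A J n) :
    PdLT (A ⧸ Ideal.span {x}) (J.map (Ideal.Quotient.mk (Ideal.span {x}))) n := by
  obtain ⟨l, hl⟩ := exists_coord J g x hx hgen hind
  have hQ := pdLT_qx x J (by
    intro y hy
    apply Subtype.ext
    exact hreg _ (congrArg Subtype.val hy)) hreg hpd
  set A' := A ⧸ Ideal.span {x} with hA'
  let xJ : J := ⟨x, hx⟩
  let Q : Submodule A J := Ideal.span {x} • (⊤ : Submodule A J)
  -- the map A/J → J/xJ
  let t : (A ⧸ J) →ₗ[A] Qx x J := Submodule.liftQ J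
    (LinearMap.toSpanSingleton A (Qx x J) (Submodule.Quotient.mk xJ)) (by
      intro a ha
      rw [LinearMap.mem_ker, LinearMap.toSpanSingleton_apply, ← Submodule.Quotient.mk_smul,
        qmk_eq_zero]
      refine ⟨⟨a, ha⟩, ?_⟩
      apply Subtype.ext
      simp [xJ, mul_comm])
  have ht : ∀ a : A, t (Ideal.Quotient.mk J a) = Submodule.Quotient.mk (a • xJ) := fun a => rfl
  have hlx : ∀ y : J, (∃ a : A, (y : A) = a * x) → t (l y) = Submodule.Quotient.mk y := by
    rintro y ⟨a, ha⟩
    have h1 : l y = Ideal.Quotient.mk J a := hl y (fun _ => 0) a (by simp [ha])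
    rw [h1, ht]
    congr 1
    apply Subtype.ext
    simp [xJ, ha]
  let q : J →ₗ[A] Qx x J := Submodule.mkQ Q - t ∘ₗ l
  have hq : ∀ y : J, q y = Submodule.Quotient.mk y - t (l y) := fun y => rfl
  let J' := J.map (Ideal.Quotient.mk (Ideal.span {x}))
  let ρ : J →ₗ[A] J' :=
    { toFun := fun y => ⟨Ideal.Quotient.mk _ (y : A), Ideal.mem_map_of_mem _ y.2⟩
      map_add' := fun y z => by
        apply Subtype.ext
        simp
      map_smul' := fun a y => by
        apply Subtype.ext
        simp [Algebra.smul_def] }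
  have hρs : Function.Surjective ρ := by
    rintro ⟨y, hy⟩
    obtain ⟨w, hw, rfl⟩ := (Ideal.mem_map_iff_of_surjective _ Ideal.Quotient.mk_surjective).1 hy
    exact ⟨⟨w, hw⟩, rfl⟩
  have hρk : ∀ y : J, ρ y = 0 → ∃ a : A, (y : A) = a * x := by
    intro y hy
    have h1 : Ideal.Quotient.mk (Ideal.span {x}) (y : A) = 0 := congrArg Subtype.val hy
    rw [Ideal.Quotient.eq_zero_iff_mem, Ideal.mem_span_singleton'] at h1
    obtain ⟨a, ha⟩ := h1
    exact ⟨a, ha.symm⟩
  have hker : LinearMap.ker ρ ≤ LinearMap.ker q := by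
    intro y hy
    rw [LinearMap.mem_ker, hq, hlx y (hρk y hy), sub_self]
  let i0 : J' →ₗ[A] Qx x J :=
    (Submodule.liftQ (LinearMap.ker ρ) q hker) ∘ₗ (ρ.quotKerEquivOfSurjective hρs).symm.toLinearMap
  have hi0 : ∀ y : J, i0 (ρ y) = q y := by
    intro y
    have h1 : (ρ.quotKerEquivOfSurjective hρs).symm (ρ y) = Submodule.Quotient.mk y := by
      rw [LinearEquiv.symm_apply_eq]
      rfl
    change (Submodule.liftQ (LinearMap.ker ρ) q hker)
      ((ρ.quotKerEquivOfSurjective hρs).symm (ρ y)) = _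
    rw [h1]
    rfl
  let r0 : Qx x J →ₗ[A] J' := Submodule.liftQ Q ρ (by
    intro y hy
    obtain ⟨y', rfl⟩ := (mem_span_smul_top x y).1 hy
    rw [LinearMap.mem_ker]
    apply Subtype.ext
    change Ideal.Quotient.mk (Ideal.span {x}) (x * (y' : A)) = 0
    rw [Ideal.Quotient.eq_zero_iff_mem]
    exact Ideal.mul_mem_right _ _ (Ideal.mem_span_singleton_self x))
  have hr0 : ∀ y : J, r0 (Submodule.Quotient.mk y) = ρ y := fun y => rfl
  have hrt : ∀ w : A ⧸ J, r0 (t w) = 0 := by
    intro w
    obtain ⟨a, rfl⟩ := Ideal.Quotient.mk_surjective w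
    rw [ht, hr0]
    apply Subtype.ext
    change Ideal.Quotient.mk (Ideal.span {x}) (a * x) = 0
    rw [Ideal.Quotient.eq_zero_iff_mem]
    exact Ideal.mul_mem_left _ _ (Ideal.mem_span_singleton_self x)
  have hcomp : ∀ y' : J', r0 (i0 y') = y' := by
    intro y'
    obtain ⟨y, rfl⟩ := hρs y'
    rw [hi0, hq, map_sub, hr0, hrt, sub_zero]
  refine pdLT_retract (R := A') (LinearMap.extendScalarsOfSurjective (qx_surj x) i0)
    (LinearMap.extendScalarsOfSurjective (qx_surj x) r0) ?_ hQ
  apply LinearMap.ext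
  exact hcomp

end retract

end Pool.Agent.Y204.NM
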