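import Pool.Agent.Y204.NM.FV

set_option autoImplicit false
set_option linter.unusedSectionVars false

universe u

open Pool.Agent.W506.Hilb CategoryTheory TensorProduct IsLocalRing Module
open RingTheory.Sequence Pointwise

namespace Pool.Agent.Y204.NM

/-- The theorem of Ferrand and Vasconcelos: an ideal of finite projective dimension of a
Noetherian local ring with free conormal module is generated by a regular sequence. -/
theorem ferrand_vasconcelos (m : ℕ) : ∀ (A : Type u) [CommRing A] [IsNoetherianRing A]
    [IsLocalRing A] (J : Ideal A), J ≠ ⊤ → ∀ f : Fin m → A, FreeConormal J f →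
    ∀ n : ℕ, PdLT A J n → ∃ rs : List A, Ideal.ofList rs = J ∧ IsWeaklyRegular A rs := by
  induction m with
  | zero =>
    intro A _ _ _ J hJ f hf n hpd
    refine ⟨[], ?_, IsWeaklyRegular.nil A A⟩
    rw [← hf.1, Ideal.ofList_nil, Set.range_eq_empty, Ideal.span_empty]
  | succ m ih =>
    intro A _ _ _ J hJ f hf n hpd
    have hJm : J ≤ maximalIdeal A := le_maximalIdeal hJ
    have hfJ : ∀ i, f i ∈ J := fun i => hf.1 ▸ Ideal.subset_span ⟨i, rfl⟩
    -- J is not contained in 𝔪 J
    have hJnz : J ≠ ⊥ := by
      intro h0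
      have h1 := hf.2 (fun _ => 1) (by
        refine Ideal.sum_mem _ fun l _ => ?_
        have : f l = 0 := by
          have := hfJ l
          rwa [h0, Ideal.mem_bot] at this
        rw [this, mul_zero]
        exact zero_mem _) 0
      exact hJ ((Ideal.eq_top_iff_one _).2 h1)
    have hJK : ¬ J ≤ maximalIdeal A * J := by
      intro h
      apply hJnz
      exact Submodule.eq_bot_of_le_smul_of_le_jacobson_bot (maximalIdeal A) J
        (IsNoetherian.noetherian J) h (maximalIdeal_le_jacobson _)
    obtain ⟨x, hxJ, hxK, hreg⟩ := exists_nzd J f hf hpd _ hJK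
    obtain ⟨c, hc⟩ : ∃ c : Fin (m + 1) → A, ∑ i, c i * f i = x := by
      have := hxJ
      rw [← hf.1, Ideal.mem_span_range_iff_exists_fun] at this
      exact this
    obtain ⟨i, hi⟩ : ∃ i, IsUnit (c i) := by
      by_contra hne
      push Not at hne
      apply hxK
      rw [← hc]
      exact Ideal.sum_mem _ fun l _ => Ideal.mul_mem_mul ((mem_maximalIdeal _).2 (hne l)) (hfJ l)
    obtain ⟨u, hu⟩ := hi
    let g : Fin m → A := fun j => f (i.succAbove j)
    have hsplit : ∀ d : Fin (m + 1) → A, ∑ l, d l * f l =
        d i * f i + ∑ j, d (i.succAbove j) * g j := by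
      intro d
      rw [Fin.sum_univ_succAbove _ i]
    have hfi : f i = ∑ j, (-(↑u⁻¹ : A) * c (i.succAbove j)) * g j + (↑u⁻¹ : A) * x := by
      rw [← hc, hsplit c, ← hu]
      simp_rw [mul_assoc]
      rw [← Finset.mul_sum, mul_add, ← mul_assoc (↑u⁻¹ : A) (↑u : A), Units.inv_mul]
      ring
    have hgen : ∀ y ∈ J, ∃ (d : Fin m → A) (e : A), y = ∑ j, d j * g j + e * x := by
      intro y hy
      rw [← hf.1, Ideal.mem_span_range_iff_exists_fun] at hy
      obtain ⟨b, rfl⟩ := hy
      refine ⟨fun j => b (i.succAbove j) + b i * (-(↑u⁻¹ : A) * c (i.succAbove j)),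
        b i * (↑u⁻¹ : A), ?_⟩
      rw [hsplit b]
      conv_lhs => rw [hfi]
      simp_rw [add_mul]
      rw [Finset.sum_add_distrib, mul_add, Finset.mul_sum]
      simp_rw [mul_assoc]
      ring
    have hind2 : ∀ (d : Fin m → A) (e : A), ∑ j, d j * g j + e * x ∈ J ^ 2 →
        e ∈ J ∧ ∀ j, d j ∈ J := by
      intro d e h
      let b : Fin (m + 1) → A := Fin.insertNth i (e * c i) fun j => d j + e * c (i.succAbove j)
      have hb1 : b i = e * c i := Fin.insertNth_apply_same i _ _
      have hb2 : ∀ j, b (i.succAbove j) = d j + e * c (i.succAbove j) :=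
        fun j => Fin.insertNth_apply_succAbove i _ _ j
      have hbs : ∑ l, b l * f l = ∑ j, d j * g j + e * x := by
        rw [hsplit b, hb1]
        simp_rw [hb2]
        rw [← hc, hsplit c]
        simp_rw [add_mul]
        rw [Finset.sum_add_distrib, mul_add, Finset.mul_sum]
        simp_rw [mul_assoc]
        ring
      have hbJ := hf.2 b (by rw [hbs]; exact h)
      have heJ : e ∈ J := by
        have h1 := hbJ i
        rw [hb1, ← hu] at h1
        have h2 : e = (e * ↑u) * (↑u⁻¹ : A) := by rw [mul_assoc, Units.mul_inv, mul_one]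
        rw [h2]
        exact Ideal.mul_mem_right _ _ h1
      refine ⟨heJ, fun j => ?_⟩
      have h1 := hbJ (i.succAbove j)
      rw [hb2] at h1
      have h2 : d j = (d j + e * c (i.succAbove j)) - e * c (i.succAbove j) := by ring
      rw [h2]
      exact Ideal.sub_mem _ h1 (Ideal.mul_mem_right _ _ heJ)
    have hpd' := pdLT_quotient J g x hxJ hgen (fun d e h => (hind2 d e h).1) hreg hpd
    -- the quotient ring
    have hxm : x ∈ maximalIdeal A := hJm hxJ
    have hne : Ideal.span {x} ≠ ⊤ := by
      intro h
      have : (1 : A) ∈ Ideal.span {x} := h ▸ trivial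
      have h2 : Ideal.span {x} ≤ maximalIdeal A := (Ideal.span_singleton_le_iff_mem _).2 hxm
      exact (mem_maximalIdeal _).1 (h2 this) isUnit_one
    have hnt : Nontrivial (A ⧸ Ideal.span {x}) := Ideal.Quotient.nontrivial_iff.2 hne
    have hloc : IsLocalRing (A ⧸ Ideal.span {x}) :=
      IsLocalRing.of_surjective' (Ideal.Quotient.mk (Ideal.span {x})) Ideal.Quotient.mk_surjective
    have hcomap : (J.map (Ideal.Quotient.mk (Ideal.span {x}))).comap
        (Ideal.Quotient.mk (Ideal.span {x})) = J := by
      rw [Ideal.comap_map_of_surjective _ Ideal.Quotient.mk_surjective]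
      rw [← RingHom.ker_eq_comap_bot, Ideal.mk_ker, sup_eq_left]
      exact (Ideal.span_singleton_le_iff_mem _).2 hxJ
    have hmemJ : ∀ y : A, Ideal.Quotient.mk (Ideal.span {x}) y ∈
        J.map (Ideal.Quotient.mk (Ideal.span {x})) ↔ y ∈ J := by
      intro y
      rw [← Ideal.mem_comap, hcomap]
    have hFC : FreeConormal (J.map (Ideal.Quotient.mk (Ideal.span {x})))
        (fun j => Ideal.Quotient.mk (Ideal.span {x}) (g j)) := by
      constructor
      · apply le_antisymm
        · rw [Ideal.span_le]
          rintro _ ⟨j, rfl⟩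
          exact Ideal.mem_map_of_mem _ (hfJ _)
        · rw [Ideal.map_le_iff_le_comap]
          intro y hy
          obtain ⟨d, e, rfl⟩ := hgen y hy
          rw [Ideal.mem_comap, map_add, map_mul _ e x]
          rw [Ideal.Quotient.eq_zero_iff_mem.2 (Ideal.mem_span_singleton_self x), mul_zero,
            add_zero, map_sum]
          refine Ideal.sum_mem _ fun j _ => ?_
          rw [map_mul]
          exact Ideal.mul_mem_left _ _ (Ideal.subset_span ⟨j, rfl⟩)
      · intro d' hd' j
        choose d hd using fun j => Ideal.Quotient.mk_surjective (d' j)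
        rw [← hd j, hmemJ]
        have h1 : Ideal.Quotient.mk (Ideal.span {x}) (∑ j, d j * g j) ∈
            (J ^ 2).map (Ideal.Quotient.mk (Ideal.span {x})) := by
          rw [Ideal.map_pow, map_sum]
          simp_rw [map_mul, hd]
          exact hd'
        rw [Ideal.mem_map_iff_of_surjective _ Ideal.Quotient.mk_surjective] at h1
        obtain ⟨w, hw, hwe⟩ := h1
        rw [Ideal.Quotient.eq, Ideal.mem_span_singleton'] at hwe
        obtain ⟨e, he⟩ := hwe
        refine (hind2 d e ?_).2 j
        have : ∑ j, d j * g j + e * x = w := by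
          rw [he]
          ring
        rw [this]
        exact hw
    have hJ' : J.map (Ideal.Quotient.mk (Ideal.span {x})) ≠ ⊤ := by
      intro h
      apply hJ
      rw [← hcomap, h, Ideal.comap_top]
    obtain ⟨rs', hrs', hreg'⟩ := ih (A ⧸ Ideal.span {x}) _ hJ' _ hFC n hpd'
    obtain ⟨rs, hrs⟩ : ∃ rs : List A, rs.map (Ideal.Quotient.mk (Ideal.span {x})) = rs' := by
      have hs : Function.Surjective (List.map (Ideal.Quotient.mk (Ideal.span {x}))) :=
        List.map_surjective_iff.2 Ideal.Quotient.mk_surjective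
      exact hs rs'
    refine ⟨x :: rs, ?_, ?_⟩
    · rw [Ideal.ofList_cons]
      have h1 : (Ideal.ofList rs).map (Ideal.Quotient.mk (Ideal.span {x})) =
          J.map (Ideal.Quotient.mk (Ideal.span {x})) := by
        rw [Ideal.map_ofList, hrs, hrs']
      have h2 := congrArg (Ideal.comap (Ideal.Quotient.mk (Ideal.span {x}))) h1
      rw [hcomap, Ideal.comap_map_of_surjective _ Ideal.Quotient.mk_surjective,
        ← RingHom.ker_eq_comap_bot, Ideal.mk_ker] at h2
      rw [sup_comm]
      exact h2
    · rw [isWeaklyRegular_cons_iff]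
      refine ⟨?_, ?_⟩
      · intro a b hab
        have h1 : x * (a - b) = 0 := by
          rw [mul_sub, sub_eq_zero]
          exact hab
        exact sub_eq_zero.1 (hreg _ h1)
      · rw [← hrs] at hreg'
        have h1 : IsWeaklyRegular (A ⧸ Ideal.span {x}) rs :=
          (isWeaklyRegular_map_algebraMap_iff (R := A) (S := A ⧸ Ideal.span {x})
            (M := A ⧸ Ideal.span {x}) rs).1 hreg'
        have heq : (Ideal.span {x} : Submodule A A) = x • (⊤ : Submodule A A) := by
          ext y
          rw [Submodule.mem_smul_pointwise_iff_exists]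
          constructor
          · intro hy
            obtain ⟨a, rfl⟩ := Ideal.mem_span_singleton'.1 hy
            exact ⟨a, trivial, by rw [smul_eq_mul, mul_comm]⟩
          · rintro ⟨a, -, rfl⟩
            exact Ideal.mem_span_singleton'.2 ⟨a, by rw [smul_eq_mul, mul_comm]⟩
        exact ((Submodule.quotEquivOfEq _ _ heq).isWeaklyRegular_congr rs).1 h1

end Pool.Agent.Y204.NM
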