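import Pool.Agent.Y204.NM.Rank

set_option autoImplicit false
set_option linter.unusedSectionVars false

universe u

open Pool.Agent.W506.Hilb CategoryTheory TensorProduct IsLocalRing Module
open RingTheory.Sequence Pointwise

namespace Pool.Agent.Y204.NM

section nzd

variable {A : Type u} [CommRing A] [IsNoetherianRing A]

/-- an ideal of finite projective dimension with an element `f₀` such that `s f₀ = 0` forces
`s ∈ J` is not contained in an associated prime -/
theorem not_le_associatedPrime' (J : Ideal A) (f₀ : A) (hf₀ : f₀ ∈ J)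
    (hf : ∀ s, s * f₀ = 0 → s ∈ J) {n : ℕ} (hpd : PdLT A J n) (P : Ideal A)
    (hP : P ∈ associatedPrimes A A) : ¬ J ≤ P := by
  intro hJP
  obtain ⟨hPp, z0, hz0⟩ := isAssociatedPrime_iff.1 (AssociatedPrimes.mem_iff.1 hP)
  have hmem : ∀ a : A, a ∈ P ↔ a * z0 = 0 := by
    intro a
    rw [hz0, Submodule.mem_colon_singleton, Submodule.mem_bot, smul_eq_mul]
  let B := Localization.AtPrime P
  let z : B := algebraMap A B z0
  have hz : z ≠ 0 := by
    intro h
    obtain ⟨s, hs⟩ := (IsLocalization.map_eq_zero_iff P.primeCompl B z0).1 h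
    exact s.2 ((hmem _).2 hs)
  have hzm : ∀ a ∈ maximalIdeal B, z * a = 0 := by
    intro a ha
    obtain ⟨p, s, rfl⟩ := IsLocalization.exists_mk'_eq P.primeCompl a
    have hp : p ∈ P := by
      by_contra hp
      have h1 : IsUnit (IsLocalization.mk' B p s) := by
        rw [IsLocalization.AtPrime.isUnit_mk'_iff B P p s]
        exact hp
      exact (mem_maximalIdeal _).1 ha h1
    rw [show z = algebraMap A B z0 from rfl, mul_comm,
      ← IsLocalization.mk'_one (M := P.primeCompl) B z0,
      ← IsLocalization.mk'_mul, (hmem p).1 hp, IsLocalization.mk'_zero]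
  have hfree : Module.Free B (B ⊗[A] J) :=
    free_of_pdLT_depth0 z hz hzm n _ (pdLT_baseChange_flat B J hpd)
  have hkill : ∀ y : B ⊗[A] J, z • y = 0 := by
    intro y
    induction y using TensorProduct.induction_on with
    | zero => rw [smul_zero]
    | add y1 y2 h1 h2 => rw [smul_add, h1, h2, add_zero]
    | tmul b j =>
      have h1 : z0 • j = 0 := by
        apply Subtype.ext
        have := (hmem (j : A)).1 (hJP j.2)
        rw [Submodule.coe_smul, smul_eq_mul, mul_comm, this]
        rfl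
      have h2 : z • (b ⊗ₜ[A] j) = (z0 • b) ⊗ₜ[A] j := by
        rw [TensorProduct.smul_tmul', smul_eq_mul, Algebra.smul_def]
      rw [h2, TensorProduct.smul_tmul, h1, TensorProduct.tmul_zero]
  have hzero : ∀ y : B ⊗[A] J, y = 0 := by
    intro y
    let b := Module.Free.chooseBasis B (B ⊗[A] J)
    apply b.repr.injective
    rw [map_zero]
    ext i
    exfalso
    have h1 := congrArg (fun w => b.repr w i) (hkill (b i))
    simp at h1
    exact hz h1
  have h0 : algebraMap A B f₀ = 0 := by
    have h1 := congrArg (fun w => (TensorProduct.rid A B) (LinearMap.lTensor B J.subtype w))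
      (hzero ((1 : B) ⊗ₜ[A] (⟨f₀, hf₀⟩ : J)))
    simp only [LinearMap.lTensor_tmul, map_zero, TensorProduct.rid_tmul] at h1
    rw [Algebra.smul_def, mul_one] at h1
    exact h1
  obtain ⟨s, hs⟩ := (IsLocalization.map_eq_zero_iff P.primeCompl B f₀).1 h0
  exact s.2 (hJP (hf _ hs))

/-- prime avoidance -/
theorem exists_nzd' (J : Ideal A) (f₀ : A) (hf₀ : f₀ ∈ J)
    (hf : ∀ s, s * f₀ = 0 → s ∈ J) {n : ℕ} (hpd : PdLT A J n) (K : Ideal A) (hK : ¬ J ≤ K) :
    ∃ x ∈ J, x ∉ K ∧ ∀ a : A, x * a = 0 → a = 0 := by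
  classical
  have hfin := associatedPrimes.finite A A
  let s : Finset (Ideal A) := insert K hfin.toFinset
  have h1 : ¬ ((J : Set A) ⊆ ⋃ i ∈ (↑s : Set (Ideal A)), ((id i : Ideal A) : Set A)) := by
    rw [Ideal.subset_union_prime (f := id) K K]
    · rintro ⟨P, hPs, hP⟩
      rcases Finset.mem_insert.1 hPs with rfl | hPs
      · exact hK hP
      · exact not_le_associatedPrime' J f₀ hf₀ hf hpd P (hfin.mem_toFinset.1 hPs) hP
    · intro P hPs hPK _
      rcases Finset.mem_insert.1 hPs with rfl | hPs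
      · exact absurd rfl hPK
      · exact (AssociatedPrimes.mem_iff.1 (hfin.mem_toFinset.1 hPs)).isPrime
  rw [Set.not_subset] at h1
  obtain ⟨x, hxJ, hx⟩ := h1
  refine ⟨x, hxJ, ?_, ?_⟩
  · intro hxK
    apply hx
    exact Set.mem_biUnion (x := K) (by simp [s]) hxK
  · intro a ha
    by_contra ha0
    have h2 : x ∈ ⋃ p ∈ associatedPrimes A A, (p : Set A) := by
      rw [biUnion_associatedPrimes_eq_zero_divisors]
      exact ⟨a, ha0, ha⟩
    apply hx
    rw [Set.mem_iUnion₂] at h2
    obtain ⟨p, hp, hxp⟩ := h2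
    exact Set.mem_biUnion (x := p) (by
      simp only [s, Finset.coe_insert, Set.Finite.coe_toFinset]
      exact Or.inr hp) hxp

end nzd

section retract

variable {A : Type u} [CommRing A] (J : Ideal A) (x : A) (hx : x ∈ J)

/-- the map `J → J A'`, `A' = A/x` -/
noncomputable def rho : J →ₗ[A] (J.map (Ideal.Quotient.mk (Ideal.span {x}))) :=
    { toFun := fun y => ⟨Ideal.Quotient.mk _ (y : A), Ideal.mem_map_of_mem _ y.2⟩
      map_add' := fun y z => by
        apply Subtype.ext
        simp
      map_smul' := fun a y => by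
        apply Subtype.ext
        simp [Algebra.smul_def] }

lemma rho_surjective : Function.Surjective (rho J x) := by
  rintro ⟨y, hy⟩
  obtain ⟨w, hw, rfl⟩ := (Ideal.mem_map_iff_of_surjective _ Ideal.Quotient.mk_surjective).1 hy
  exact ⟨⟨w, hw⟩, rfl⟩

lemma rho_eq_zero {y : J} (hy : rho J x y = 0) : ∃ a : A, (y : A) = a * x := by
  have h1 : Ideal.Quotient.mk (Ideal.span {x}) (y : A) = 0 := congrArg Subtype.val hy
  rw [Ideal.Quotient.eq_zero_iff_mem, Ideal.mem_span_singleton'] at h1
  obtain ⟨a, ha⟩ := h1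
  exact ⟨a, ha.symm⟩

/-- a linear map killing the multiples of `x` factors through `rho` -/
theorem exists_factor {T : Type u} [AddCommGroup T] [Module A T] (q : J →ₗ[A] T)
    (hq : ∀ y : J, (∃ a : A, (y : A) = a * x) → q y = 0) :
    ∃ i0 : (J.map (Ideal.Quotient.mk (Ideal.span {x}))) →ₗ[A] T, ∀ y, i0 (rho J x y) = q y := by
  have hker : LinearMap.ker (rho J x) ≤ LinearMap.ker q := by
    intro y hy
    exact hq y (rho_eq_zero J x hy)
  refine ⟨(Submodule.liftQ (LinearMap.ker (rho J x)) q hker) ∘ₗ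
    ((rho J x).quotKerEquivOfSurjective (rho_surjective J x)).symm.toLinearMap, fun y => ?_⟩
  have h1 : ((rho J x).quotKerEquivOfSurjective (rho_surjective J x)).symm (rho J x y) =
      Submodule.Quotient.mk y := by
    rw [LinearEquiv.symm_apply_eq]
    rfl
  change (Submodule.liftQ (LinearMap.ker (rho J x)) q hker)
    (((rho J x).quotKerEquivOfSurjective (rho_surjective J x)).symm (rho J x y)) = _
  rw [h1]
  rfl

include hx in
/-- finite projective dimension passes to the image of `J` modulo `x` when a functional takes the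
value one at `x` -/
theorem pdLT_quotient' (l : J →ₗ[A] (A ⧸ J)) (hl : l ⟨x, hx⟩ = 1)
    (hreg : ∀ a : A, x * a = 0 → a = 0) {n : ℕ} (hpd : PdLT A J n) :
    PdLT (A ⧸ Ideal.span {x}) (J.map (Ideal.Quotient.mk (Ideal.span {x}))) n := by
  have hQ := pdLT_qx x J (by
    intro y hy
    apply Subtype.ext
    exact hreg _ (congrArg Subtype.val hy)) hreg hpd
  set A' := A ⧸ Ideal.span {x} with hA'
  let xJ : J := ⟨x, hx⟩
  let Q : Submodule A J := Ideal.span {x} • (⊤ : Submodule A J)
  let t : (A ⧸ J) →ₗ[A] Qx x J := Submodule.liftQ J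
    (LinearMap.toSpanSingleton A (Qx x J) (Submodule.Quotient.mk xJ)) (by
      intro a ha
      rw [LinearMap.mem_ker, LinearMap.toSpanSingleton_apply, ← Submodule.Quotient.mk_smul,
        qmk_eq_zero]
      refine ⟨⟨a, ha⟩, ?_⟩
      apply Subtype.ext
      simp [xJ, mul_comm])
  have ht : ∀ a : A, t (Ideal.Quotient.mk J a) = Submodule.Quotient.mk (a • xJ) := fun a => rfl
  have hlx : ∀ y : J, (∃ a : A, (y : A) = a * x) → t (l y) = Submodule.Quotient.mk y := by
    rintro y ⟨a, ha⟩
    have h0 : y = a • xJ := Subtype.ext (by simp [xJ, ha])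
    have h1 : l y = Ideal.Quotient.mk J a := by
      rw [h0, map_smul, hl, Algebra.smul_def, mul_one]
      rfl
    rw [h1, ht, h0]
  let q : J →ₗ[A] Qx x J := Submodule.mkQ Q - t ∘ₗ l
  have hq : ∀ y : J, q y = Submodule.Quotient.mk y - t (l y) := fun y => rfl
  obtain ⟨i0, hi0⟩ := exists_factor J x q (fun y hy => by rw [hq, hlx y hy, sub_self])
  let r0 : Qx x J →ₗ[A] (J.map (Ideal.Quotient.mk (Ideal.span {x}))) :=
    Submodule.liftQ Q (rho J x) (by
    intro y hy
    obtain ⟨y', rfl⟩ := (mem_span_smul_top x y).1 hy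
    rw [LinearMap.mem_ker]
    apply Subtype.ext
    change Ideal.Quotient.mk (Ideal.span {x}) (x * (y' : A)) = 0
    rw [Ideal.Quotient.eq_zero_iff_mem]
    exact Ideal.mul_mem_right _ _ (Ideal.mem_span_singleton_self x))
  have hr0 : ∀ y : J, r0 (Submodule.Quotient.mk y) = rho J x y := fun y => rfl
  have hrt : ∀ w : A ⧸ J, r0 (t w) = 0 := by
    intro w
    obtain ⟨a, rfl⟩ := Ideal.Quotient.mk_surjective w
    rw [ht, hr0]
    apply Subtype.ext
    change Ideal.Quotient.mk (Ideal.span {x}) (a * x) = 0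
    rw [Ideal.Quotient.eq_zero_iff_mem]
    exact Ideal.mul_mem_left _ _ (Ideal.mem_span_singleton_self x)
  have hcomp : ∀ y', r0 (i0 y') = y' := by
    intro y'
    obtain ⟨y, rfl⟩ := rho_surjective J x y'
    rw [hi0, hq, map_sub, hr0, hrt, sub_zero]
  refine pdLT_retract (R := A') (LinearMap.extendScalarsOfSurjective (qx_surj x) i0)
    (LinearMap.extendScalarsOfSurjective (qx_surj x) r0) ?_ hQ
  apply LinearMap.ext
  exact hcomp

end retract

/-- lifting a regular sequence generating the image of `J` modulo a regular element of `J` -/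
theorem lift_regular {A : Type u} [CommRing A] (J : Ideal A) (x : A) (hx : x ∈ J)
    (hreg : ∀ a : A, x * a = 0 → a = 0) (rs' : List (A ⧸ Ideal.span {x}))
    (hrs' : Ideal.ofList rs' = J.map (Ideal.Quotient.mk (Ideal.span {x})))
    (hreg' : IsWeaklyRegular (A ⧸ Ideal.span {x}) rs') :
    ∃ rs : List A, Ideal.ofList rs = J ∧ IsWeaklyRegular A rs := by
  have hcomap : (J.map (Ideal.Quotient.mk (Ideal.span {x}))).comap
      (Ideal.Quotient.mk (Ideal.span {x})) = J := by
    rw [Ideal.comap_map_of_surjective _ Ideal.Quotient.mk_surjective]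
    rw [← RingHom.ker_eq_comap_bot, Ideal.mk_ker, sup_eq_left]
    exact (Ideal.span_singleton_le_iff_mem _).2 hx
  obtain ⟨rs, hrs⟩ : ∃ rs : List A, rs.map (Ideal.Quotient.mk (Ideal.span {x})) = rs' := by
    have hs : Function.Surjective (List.map (Ideal.Quotient.mk (Ideal.span {x}))) :=
      List.map_surjective_iff.2 Ideal.Quotient.mk_surjective
    exact hs rs'
  refine ⟨x :: rs, ?_, ?_⟩
  · rw [Ideal.ofList_cons]
    have h1 : (Ideal.ofList rs).map (Ideal.Quotient.mk (Ideal.span {x})) =
        J.map (Ideal.Quotient.mk (Ideal.span {x})) := by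
      rw [Ideal.map_ofList, hrs, hrs']
    have h2 := congrArg (Ideal.comap (Ideal.Quotient.mk (Ideal.span {x}))) h1
    rw [hcomap, Ideal.comap_map_of_surjective _ Ideal.Quotient.mk_surjective,
      ← RingHom.ker_eq_comap_bot, Ideal.mk_ker] at h2
    rw [sup_comm]
    exact h2
  · rw [weaklyRegular_cons]
    exact ⟨hreg, hrs ▸ hreg'⟩

end Pool.Agent.Y204.NM
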