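import Pool.Agent.Y204.NM.FV3

set_option autoImplicit false
set_option linter.unusedSectionVars false

universe u

open Pool.Agent.W506.Hilb CategoryTheory TensorProduct IsLocalRing Module
open RingTheory.Sequence Pointwise

namespace Pool.Agent.Y204.NM

/-- socle element of the localization at an associated prime -/
theorem socle_of_assoc {A : Type u} [CommRing A] [IsNoetherianRing A] (P : Ideal A) [P.IsPrime]
    (z0 : A) (hmem : ∀ a : A, a ∈ P ↔ a * z0 = 0) :
    algebraMap A (Localization.AtPrime P) z0 ≠ 0 ∧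
      ∀ a ∈ maximalIdeal (Localization.AtPrime P),
        algebraMap A (Localization.AtPrime P) z0 * a = 0 := by
  refine ⟨?_, ?_⟩
  · intro h
    obtain ⟨s, hs⟩ := (IsLocalization.map_eq_zero_iff P.primeCompl (Localization.AtPrime P) z0).1 h
    exact s.2 ((hmem _).2 hs)
  · intro a ha
    obtain ⟨p, s, rfl⟩ := IsLocalization.exists_mk'_eq P.primeCompl a
    have hp : p ∈ P := by
      by_contra hp
      have h1 : IsUnit (IsLocalization.mk' (Localization.AtPrime P) p s) := by
        rw [IsLocalization.AtPrime.isUnit_mk'_iff (Localization.AtPrime P) P p s]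
        exact hp
      exact (mem_maximalIdeal _).1 ha h1
    rw [mul_comm, ← IsLocalization.mk'_one (M := P.primeCompl) (Localization.AtPrime P) z0,
      ← IsLocalization.mk'_mul, (hmem p).1 hp, IsLocalization.mk'_zero]

lemma algebraMap_eq_zero_of_tmul {A B : Type u} [CommRing A] [CommRing B] [Algebra A B]
    (J : Ideal A) (hz : ∀ y : B ⊗[A] J, y = 0) (y : J) : algebraMap A B y = 0 := by
  have h1 := congrArg (fun w => (TensorProduct.rid A B) (LinearMap.lTensor B J.subtype w))
    (hz ((1 : B) ⊗ₜ[A] y))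
  simp only [LinearMap.lTensor_tmul, map_zero, TensorProduct.rid_tmul] at h1
  rw [Algebra.smul_def, mul_one] at h1
  exact h1

/-- if there are no nonzero maps from `J` to `R`, then `J` vanishes at the associated primes
of `R` -/
theorem localized_eq_zero {A : Type u} [CommRing A] [IsNoetherianRing A] {R : Type u} [CommRing R]
    [Algebra A R] (J : Ideal A) (hno : ∀ φ : J →ₗ[A] R, φ = 0) (P : Ideal A) [P.IsPrime] (z : R)
    (hmem : ∀ a : A, a ∈ P ↔ a • z = 0) :
    ∀ y : (Localization.AtPrime P) ⊗[A] J, y = 0 := by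
  let B := Localization.AtPrime P
  by_contra hne
  have hnt : Nontrivial (B ⊗[A] J) := by
    push Not at hne
    obtain ⟨y, hy⟩ := hne
    exact ⟨⟨y, 0, hy⟩⟩
  have hnt2 : Nontrivial ((ResidueField B) ⊗[B] (B ⊗[A] J)) := by
    rw [← not_subsingleton_iff_nontrivial, IsLocalRing.subsingleton_tensorProduct]
    exact not_subsingleton_iff_nontrivial.2 hnt
  let β := Module.Free.chooseBasis (ResidueField B) ((ResidueField B) ⊗[B] (B ⊗[A] J))
  have hne2 : Nonempty (Module.Free.ChooseBasisIndex (ResidueField B)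
      ((ResidueField B) ⊗[B] (B ⊗[A] J))) := β.index_nonempty
  obtain ⟨i⟩ := hne2
  let Θ : (B ⊗[A] J) →ₗ[B] ResidueField B :=
    ((β.coord i).restrictScalars B) ∘ₗ (TensorProduct.mk B (ResidueField B) (B ⊗[A] J) 1)
  obtain ⟨y0, hy0⟩ : ∃ y0, Θ y0 = 1 := by
    obtain ⟨y0, hy0⟩ := TensorProduct.mk_surjective B (B ⊗[A] J) (ResidueField B)
      Ideal.Quotient.mk_surjective (β i)
    refine ⟨y0, ?_⟩
    change β.coord i ((TensorProduct.mk B (ResidueField B) (B ⊗[A] J) 1) y0) = 1
    rw [hy0]
    simp
  let RP := LocalizedModule P.primeCompl R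
  let f : R →ₗ[A] RP := LocalizedModule.mkLinearMap P.primeCompl R
  have hfz : f z ≠ 0 := by
    intro h
    obtain ⟨s, hs⟩ := (IsLocalizedModule.eq_zero_iff P.primeCompl f).1 h
    exact s.2 ((hmem _).2 hs)
  have hkill : ∀ a ∈ maximalIdeal B, a • f z = 0 := by
    intro a ha
    obtain ⟨p, s, rfl⟩ := IsLocalization.exists_mk'_eq P.primeCompl a
    have hp : p ∈ P := by
      by_contra hp
      have h1 : IsUnit (IsLocalization.mk' B p s) := by
        rw [IsLocalization.AtPrime.isUnit_mk'_iff B P p s]
        exact hp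
      exact (mem_maximalIdeal _).1 ha h1
    have h2 : IsLocalization.mk' B p s = IsLocalization.mk' B 1 s * algebraMap A B p := by
      rw [mul_comm, IsLocalization.mul_mk'_eq_mk'_of_mul, mul_one]
    rw [h2, mul_smul, algebraMap_smul, ← map_smul, (hmem p).1 hp, map_zero, smul_zero]
  let ι : ResidueField B →ₗ[B] RP := Submodule.liftQ (maximalIdeal B)
    (LinearMap.toSpanSingleton B RP (f z)) (by
      intro a ha
      rw [LinearMap.mem_ker, LinearMap.toSpanSingleton_apply]
      exact hkill a ha)
  have hι : ι 1 = f z := by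
    change (1 : B) • f z = f z
    rw [one_smul]
  let g : J →ₗ[A] RP := ((ι ∘ₗ Θ).restrictScalars A) ∘ₗ (TensorProduct.mk A B J 1)
  have hfp : Module.FinitePresentation A J := Module.finitePresentation_of_finite A J
  obtain ⟨h, s, hs⟩ := Module.FinitePresentation.exists_lift_of_isLocalizedModule
    P.primeCompl f g
  have hg : ∀ j, g j = 0 := by
    intro j
    have h1 := congrArg (fun l => l j) hs
    rw [hno h] at h1
    have h2 : s • g j = s • (0 : RP) := by
      rw [smul_zero]
      simpa using h1.symm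
    exact IsLocalizedModule.smul_injective f s h2
  have hall : ∀ y : B ⊗[A] J, ι (Θ y) = 0 := by
    intro y
    induction y using TensorProduct.induction_on with
    | zero => rw [map_zero, map_zero]
    | add y1 y2 h1 h2 => rw [map_add, map_add, h1, h2, add_zero]
    | tmul b j =>
      have h3 : b ⊗ₜ[A] j = b • ((1 : B) ⊗ₜ[A] j) := by
        rw [TensorProduct.smul_tmul', smul_eq_mul, mul_one]
      rw [h3, map_smul, map_smul]
      have h4 : ι (Θ ((1 : B) ⊗ₜ[A] j)) = 0 := hg j
      rw [h4, smul_zero]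
  have := hall y0
  rw [hy0, hι] at this
  exact hfz this

/-- an ideal of finite projective dimension without nonzero maps to the quotient is zero -/
theorem eq_bot_of_no_functional {A : Type u} [CommRing A] [IsNoetherianRing A] [IsLocalRing A]
    {R : Type u} [CommRing R] [Nontrivial R] [Algebra A R]
    (hs : Function.Surjective (algebraMap A R)) (J : Ideal A)
    (hJ : J = RingHom.ker (algebraMap A R)) (hno : ∀ φ : J →ₗ[A] R, φ = 0) {n : ℕ}
    (hpd : PdLT A J n) : J = ⊥ := by
  by_contra hJ0
  obtain ⟨P, hP⟩ := associatedPrimes.nonempty A R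
  obtain ⟨hPp, z, hz⟩ := isAssociatedPrime_iff.1 (AssociatedPrimes.mem_iff.1 hP)
  have hmem : ∀ a : A, a ∈ P ↔ a • z = 0 := by
    intro a
    rw [hz, Submodule.mem_colon_singleton, Submodule.mem_bot]
  have hzero := localized_eq_zero J hno P z hmem
  let B := Localization.AtPrime P
  obtain ⟨z1, hz1⟩ := hs z
  -- socle element of `B`
  have hB1 : algebraMap A B z1 ≠ 0 := by
    intro h
    obtain ⟨s, hs'⟩ := (IsLocalization.map_eq_zero_iff P.primeCompl B z1).1 h
    apply s.2
    change (s : A) ∈ P
    rw [hmem, Algebra.smul_def, ← hz1, ← map_mul, hs', map_zero]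
  have hB2 : ∀ a ∈ maximalIdeal B, algebraMap A B z1 * a = 0 := by
    intro a ha
    obtain ⟨p, s, rfl⟩ := IsLocalization.exists_mk'_eq P.primeCompl a
    have hp : p ∈ P := by
      by_contra hp
      have h1 : IsUnit (IsLocalization.mk' B p s) := by
        rw [IsLocalization.AtPrime.isUnit_mk'_iff B P p s]
        exact hp
      exact (mem_maximalIdeal _).1 ha h1
    have hpz : p * z1 ∈ J := by
      rw [hJ, RingHom.mem_ker, map_mul, hz1, ← Algebra.smul_def]
      exact (hmem p).1 hp
    have h2 : algebraMap A B (p * z1) = 0 := algebraMap_eq_zero_of_tmul J hzero ⟨_, hpz⟩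
    have h3 : IsLocalization.mk' B p s = IsLocalization.mk' B 1 s * algebraMap A B p := by
      rw [mul_comm, IsLocalization.mul_mk'_eq_mk'_of_mul, mul_one]
    rw [h3]
    calc algebraMap A B z1 * (IsLocalization.mk' B 1 s * algebraMap A B p)
        = IsLocalization.mk' B 1 s * algebraMap A B (p * z1) := by rw [map_mul]; ring
      _ = 0 := by rw [h2, mul_zero]
  -- a nonzero element of J
  obtain ⟨y, hyJ, hy0⟩ := (Submodule.ne_bot_iff J).1 hJ0
  obtain ⟨P', hP', hle⟩ := exists_le_isAssociatedPrime_of_isNoetherianRing A (y : A) hy0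
  obtain ⟨hPp', z', hz'⟩ := isAssociatedPrime_iff.1 hP'
  have hmem' : ∀ a : A, a ∈ P' ↔ a * z' = 0 := by
    intro a
    rw [hz', Submodule.mem_colon_singleton, Submodule.mem_bot, smul_eq_mul]
  obtain ⟨hB3, hB4⟩ := socle_of_assoc P' z' hmem'
  let B' := Localization.AtPrime P'
  have hrank := rank_const (A := A) (B := B) (B' := B') _ hB1 hB2 _ hB3 hB4 n J hpd
  have hsub : Subsingleton (B ⊗[A] J) := ⟨fun a b => by rw [hzero a, hzero b]⟩
  rw [finrank_zero_of_subsingleton] at hrank
  have hfree : Module.Free B' (B' ⊗[A] J) :=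
    free_of_pdLT_depth0 _ hB3 hB4 n _ (pdLT_baseChange_flat B' J hpd)
  let b := Module.Free.chooseBasis B' (B' ⊗[A] J)
  have hzero' : ∀ y : B' ⊗[A] J, y = 0 := by
    intro y
    have hcard := Module.finrank_eq_card_basis b
    rw [← hrank] at hcard
    have hemp : IsEmpty (Module.Free.ChooseBasisIndex B' (B' ⊗[A] J)) :=
      Fintype.card_eq_zero_iff.1 hcard.symm
    apply b.repr.injective
    ext i
    exact hemp.elim i
  have hy1 : algebraMap A B' y = 0 := algebraMap_eq_zero_of_tmul J hzero' ⟨y, hyJ⟩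
  obtain ⟨s, hs'⟩ := (IsLocalization.map_eq_zero_iff P'.primeCompl B' y).1 hy1
  apply s.2
  apply hle
  rw [Submodule.mem_colon_singleton, Submodule.mem_bot]
  exact hs'

end Pool.Agent.Y204.NM
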