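import Pool.Agent.Y204.NM.FV4

set_option autoImplicit false
set_option linter.unusedSectionVars false

universe u

open Pool.Agent.W506.Hilb CategoryTheory TensorProduct IsLocalRing Module
open RingTheory.Sequence Pointwise

namespace Pool.Agent.Y204.NM

/-- If `J` has finite projective dimension, maps onto `R^r`, `R = A/J`, and all functionals
`J → R` factor through this map, then `J` is generated by a regular sequence. -/
theorem fv_general (R : Type u) [CommRing R] [IsLocalRing R] (r : ℕ) : ∀ (A : Type u) [CommRing A]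
    [IsNoetherianRing A] [IsLocalRing A] [Algebra A R], Function.Surjective (algebraMap A R) →
    ∀ (J : Ideal A), J = RingHom.ker (algebraMap A R) → ∀ (l : J →ₗ[A] (Fin r → R)),
    Function.Surjective l → (∀ φ : J →ₗ[A] R, ∀ y, l y = 0 → φ y = 0) → ∀ n : ℕ, PdLT A J n →
    ∃ rs : List A, Ideal.ofList rs = J ∧ IsWeaklyRegular A rs := by
  induction r with
  | zero =>
    intro A _ _ _ _ hs J hJ l hl hfac n hpd
    have hbot : J = ⊥ := by
      refine eq_bot_of_no_functional hs J hJ (fun φ => ?_) hpd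
      ext y
      exact hfac φ y (Subsingleton.elim _ _)
    exact ⟨[], by rw [hbot, Ideal.ofList_nil], IsWeaklyRegular.nil A A⟩
  | succ r ih =>
    intro A _ _ _ _ hs J hJ l hl hfac n hpd
    have hmemJ0 : ∀ a : A, a ∈ J ↔ algebraMap A R a = 0 := by
      intro a
      rw [hJ, RingHom.mem_ker]
    have hJm : J ≤ maximalIdeal A := by
      intro a ha
      rw [mem_maximalIdeal, mem_nonunits_iff]
      intro hu
      have h1 := (hmemJ0 a).1 ha
      have h2 : IsUnit (algebraMap A R a) := hu.map _
      rw [h1] at h2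
      exact not_isUnit_zero h2
    -- an element of J with a coordinate equal to one
    obtain ⟨y0, hy0⟩ := hl (Pi.single 0 1)
    have hann : ∀ s : A, s * (y0 : A) = 0 → s ∈ J := by
      intro s hs0
      have h1 : s • y0 = 0 := Subtype.ext hs0
      have h2 : s • l y0 = 0 := by rw [← map_smul, h1, map_zero]
      have h3 := congrFun h2 0
      rw [hy0] at h3
      simp only [Pi.smul_apply, Pi.single_eq_same, Pi.zero_apply, Algebra.smul_def, mul_one] at h3
      exact (hmemJ0 s).2 h3
    let K : Ideal A := Submodule.map J.subtype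
      (Submodule.comap l (Submodule.pi Set.univ fun _ => (maximalIdeal R).restrictScalars A))
    have hK : ¬ J ≤ K := by
      intro h
      obtain ⟨y, hy, hyy⟩ := h y0.2
      have hyy' : y = y0 := Subtype.ext hyy
      subst hyy'
      have h1 : l y 0 ∈ maximalIdeal R := hy 0 trivial
      rw [hy0, Pi.single_eq_same] at h1
      exact (mem_maximalIdeal _).1 h1 isUnit_one
    obtain ⟨x, hxJ, hxK, hreg⟩ := exists_nzd' J y0 y0.2 hann hpd K hK
    obtain ⟨i, hi⟩ : ∃ i, IsUnit (l ⟨x, hxJ⟩ i) := by
      by_contra hne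
      push Not at hne
      apply hxK
      exact ⟨⟨x, hxJ⟩, fun i _ => (mem_maximalIdeal _).2 (hne i), rfl⟩
    obtain ⟨u, hu⟩ := hi
    let xJ : J := ⟨x, hxJ⟩
    have hux : l xJ i = ↑u := hu.symm
    -- the functional
    let e : (A ⧸ J) ≃ₗ[A] R :=
      (Submodule.quotEquivOfEq J (LinearMap.ker (Algebra.linearMap A R)) (by
        ext a
        rw [LinearMap.mem_ker, Algebra.linearMap_apply]
        exact hmemJ0 a)).trans ((Algebra.linearMap A R).quotKerEquivOfSurjective hs)
    have he : ∀ a : A, e (Ideal.Quotient.mk J a) = algebraMap A R a := fun a => rfl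
    let μ0 : J →ₗ[A] R := (LinearMap.mulLeft A (↑u⁻¹ : R)) ∘ₗ (LinearMap.proj i) ∘ₗ l
    let μ : J →ₗ[A] (A ⧸ J) := e.symm.toLinearMap ∘ₗ μ0
    have hμ : μ ⟨x, hxJ⟩ = 1 := by
      change e.symm ((↑u⁻¹ : R) * l xJ i) = 1
      rw [hux, Units.inv_mul, LinearEquiv.symm_apply_eq]
      change 1 = e (Ideal.Quotient.mk J 1)
      rw [he, map_one]
    have hpd' := pdLT_quotient' J x hxJ μ hμ hreg hpd
    have hxm : x ∈ maximalIdeal A := hJm hxJ
    have hloc := local_quot x hxm
    have hspan : ∀ a ∈ Ideal.span {x}, algebraMap A R a = 0 := by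
      intro a ha
      apply (hmemJ0 a).1
      exact (Ideal.span_singleton_le_iff_mem _).2 hxJ ha
    let _ : Algebra (A ⧸ Ideal.span {x}) R :=
      (Ideal.Quotient.lift (Ideal.span {x}) (algebraMap A R) hspan).toAlgebra
    have hmk : ∀ a : A, algebraMap (A ⧸ Ideal.span {x}) R (Ideal.Quotient.mk _ a) =
        algebraMap A R a := fun a => Ideal.Quotient.lift_mk _ _ _
    have _ : IsScalarTower A (A ⧸ Ideal.span {x}) R :=
      IsScalarTower.of_algebraMap_eq fun a => (hmk a).symm
    have hs' : Function.Surjective (algebraMap (A ⧸ Ideal.span {x}) R) := by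
      intro b
      obtain ⟨a, rfl⟩ := hs b
      exact ⟨Ideal.Quotient.mk _ a, hmk a⟩
    have hcomap : (J.map (Ideal.Quotient.mk (Ideal.span {x}))).comap
        (Ideal.Quotient.mk (Ideal.span {x})) = J := by
      rw [Ideal.comap_map_of_surjective _ Ideal.Quotient.mk_surjective]
      rw [← RingHom.ker_eq_comap_bot, Ideal.mk_ker, sup_eq_left]
      exact (Ideal.span_singleton_le_iff_mem _).2 hxJ
    have hJ' : J.map (Ideal.Quotient.mk (Ideal.span {x})) =
        RingHom.ker (algebraMap (A ⧸ Ideal.span {x}) R) := by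
      ext y
      obtain ⟨a, rfl⟩ := Ideal.Quotient.mk_surjective y
      rw [← Ideal.mem_comap, hcomap, RingHom.mem_ker, hmk]
      exact hmemJ0 a
    let l0 : J →ₗ[A] (Fin r → R) := LinearMap.pi fun j =>
      (LinearMap.proj (i.succAbove j)) ∘ₗ l -
        (LinearMap.mulLeft A (l xJ (i.succAbove j) * (↑u⁻¹ : R))) ∘ₗ (LinearMap.proj i) ∘ₗ l
    have hl0 : ∀ y j, l0 y j = l y (i.succAbove j) -
        l xJ (i.succAbove j) * (↑u⁻¹ : R) * l y i := fun y j => rfl
    have hl0x : ∀ y : J, (∃ a : A, (y : A) = a * x) → l0 y = 0 := by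
      rintro y ⟨a, ha⟩
      have h0 : y = a • xJ := Subtype.ext (by simp [xJ, ha])
      have h1 : l0 xJ = 0 := by
        funext j
        rw [hl0, hux, mul_assoc, Units.inv_mul, mul_one, sub_self]
        rfl
      rw [h0, map_smul, h1, smul_zero]
    obtain ⟨i0, hi0⟩ := exists_factor J x l0 hl0x
    let l' : (J.map (Ideal.Quotient.mk (Ideal.span {x}))) →ₗ[A ⧸ Ideal.span {x}] (Fin r → R) :=
      LinearMap.extendScalarsOfSurjective (qx_surj x) i0
    have hl' : ∀ y, l' (rho J x y) = l0 y := hi0
    have hsurj' : Function.Surjective l' := by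
      intro v
      obtain ⟨y, hy⟩ := hl (Fin.insertNth i 0 v)
      refine ⟨rho J x y, ?_⟩
      rw [hl']
      funext j
      rw [hl0, hy, Fin.insertNth_apply_same, mul_zero, sub_zero, Fin.insertNth_apply_succAbove]
    have hfac' : ∀ φ' : (J.map (Ideal.Quotient.mk (Ideal.span {x}))) →ₗ[A ⧸ Ideal.span {x}] R,
        ∀ y', l' y' = 0 → φ' y' = 0 := by
      intro φ' y' hy'
      obtain ⟨y, rfl⟩ := rho_surjective J x y'
      rw [hl'] at hy'
      let φ : J →ₗ[A] R := (φ'.restrictScalars A) ∘ₗ rho J x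
      have hφ : ∀ y, φ y = φ' (rho J x y) := fun y => rfl
      obtain ⟨a, ha⟩ := hs ((↑u⁻¹ : R) * l y i)
      have h1 : l (y - a • xJ) = 0 := by
        funext j
        rw [map_sub, map_smul, Pi.sub_apply, Pi.smul_apply, Algebra.smul_def, ha, Pi.zero_apply]
        rcases Fin.eq_self_or_eq_succAbove i j with rfl | ⟨j', rfl⟩
        · rw [hux]
          have : (↑u⁻¹ : R) * l y j * ↑u = (↑u⁻¹ * ↑u) * l y j := by ring
          rw [this, Units.inv_mul, one_mul, sub_self]
        · have h2 := congrFun hy' j'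
          rw [hl0, Pi.zero_apply] at h2
          rw [← h2]
          ring
      have h2 := hfac φ _ h1
      rw [map_sub, map_smul, hφ xJ] at h2
      have h3 : rho J x xJ = 0 := by
        apply Subtype.ext
        change Ideal.Quotient.mk (Ideal.span {x}) x = 0
        rw [Ideal.Quotient.eq_zero_iff_mem]
        exact Ideal.mem_span_singleton_self x
      rw [h3, map_zero, smul_zero, sub_zero] at h2
      exact h2
    obtain ⟨rs', hrs', hreg'⟩ := ih (A ⧸ Ideal.span {x}) hs' _ hJ' l' hsurj' hfac' n hpd'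
    exact lift_regular J x hxJ hreg rs' hrs' hreg'

end Pool.Agent.Y204.NM
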