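import Pool.Agent.W506.H2

set_option autoImplicit false
set_option linter.unusedSectionVars false

universe u

open Pool.Agent.W506.Hilb CategoryTheory TensorProduct IsLocalRing Module

namespace Pool.Agent.Y204.NM

lemma pdLT_retract {R : Type u} [CommRing R] {M N : Type u} [AddCommGroup M] [Module R M]
    [AddCommGroup N] [Module R N] (i : M →ₗ[R] N) (r : N →ₗ[R] M)
    (h : r ∘ₗ i = LinearMap.id) {n : ℕ} (hN : PdLT R N n) : PdLT R M n := by
  let ρ : Retract (ModuleCat.of R M) (ModuleCat.of R N) :=
    { i := ModuleCat.ofHom i
      r := ModuleCat.ofHom r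
      retract := by
        rw [← ModuleCat.ofHom_comp, h]
        rfl }
  exact ρ.hasProjectiveDimensionLT n

section depth0

variable {R : Type u} [CommRing R] [IsLocalRing R] [IsNoetherianRing R]

lemma one_tmul_eq_zero_iff {F : Type u} [AddCommGroup F] [Module R F] {ι : Type*}
    (b : Basis ι R F) (x : F) :
    (1 : ResidueField R) ⊗ₜ[R] x = 0 ↔ ∀ i, b.repr x i ∈ maximalIdeal R := by
  rw [← (b.baseChange (ResidueField R)).repr.map_eq_zero_iff]
  rw [Finsupp.ext_iff]
  refine forall_congr' fun i => ?_
  rw [Basis.baseChange_repr_tmul, Finsupp.zero_apply, Algebra.smul_def, mul_one]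
  exact residue_eq_zero_iff _

/-- over a local ring of depth zero, finite projective dimension means free -/
theorem free_of_pdLT_depth0 (z : R) (hz : z ≠ 0) (hzm : ∀ a ∈ maximalIdeal R, z * a = 0) (n : ℕ) :
    ∀ (M : Type u) [AddCommGroup M] [Module R M] [Module.Finite R M], PdLT R M n →
      Module.Free R M := by
  induction n with
  | zero =>
    intro M _ _ _ h
    rw [pdLT_zero_iff] at h
    infer_instance
  | succ n ih =>
    intro M _ _ _ h
    match n with
    | 0 =>
      have hp := projective_of_pdLT_one h
      exact Module.free_of_flat_of_isLocalRing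
    | n + 1 =>
      obtain ⟨m, π, hπ⟩ := Module.Finite.exists_fin' R M
      have hK : PdLT R (LinearMap.ker π) (n + 1) :=
        pdLT_left (LinearMap.ker π).subtype π (Submodule.injective_subtype _) hπ
          (LinearMap.exact_subtype_ker_map π)
          (pdLT_mono (by omega) (pdLT_one_of_projective inferInstance)) h
      have hfree : Module.Free R (LinearMap.ker π) := ih _ hK
      refine Module.free_of_lTensor_residueField_injective (LinearMap.ker π).subtype π hπ
        (LinearMap.exact_subtype_ker_map π) ?_
      rw [injective_iff_map_eq_zero]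
      intro y hy
      obtain ⟨y, rfl⟩ := TensorProduct.mk_surjective R (LinearMap.ker π) (ResidueField R)
        Ideal.Quotient.mk_surjective y
      have hy' : (1 : ResidueField R) ⊗ₜ[R] (y : Fin m → R) = 0 := hy
      rw [one_tmul_eq_zero_iff (Pi.basisFun R (Fin m))] at hy'
      change (1 : ResidueField R) ⊗ₜ[R] y = 0
      let b := Module.Free.chooseBasis R (LinearMap.ker π)
      rw [one_tmul_eq_zero_iff b]
      have h0 : z • y = 0 := by
        apply Subtype.ext
        funext i
        have := hzm _ (hy' i)
        simpa using this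
      intro i
      have h1 : z * b.repr y i = 0 := by
        have := congrArg (fun w => b.repr w i) h0
        simpa using this
      by_contra hi
      have hu : IsUnit (b.repr y i) := by
        by_contra hu
        exact hi ((mem_maximalIdeal _).2 hu)
      exact hz ((hu.mul_left_eq_zero).1 h1)

end depth0

section basechange

variable {R : Type u} [CommRing R]

lemma baseChange_exact (B : Type u) [CommRing B] [Algebra R B] {K F M : Type u}
    [AddCommGroup K] [AddCommGroup F] [AddCommGroup M] [Module R K] [Module R F] [Module R M]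
    (f : K →ₗ[R] F) (g : F →ₗ[R] M) (hg : Function.Surjective g) (h : Function.Exact f g) :
    Function.Exact (f.baseChange B) (g.baseChange B) := lTensor_exact B h hg

lemma pdLT_right_baseChange (B : Type u) [CommRing B] [Algebra R B] [Module.Flat R B]
    {K F M : Type u}
    [AddCommGroup K] [AddCommGroup F] [AddCommGroup M] [Module R K] [Module R F] [Module R M]
    (f : K →ₗ[R] F) (g : F →ₗ[R] M) (hf : Function.Injective f)
    (hg : Function.Surjective g) (h : Function.Exact f g) {n : ℕ}
    (h1 : PdLT B (B ⊗[R] K) n) (h2 : PdLT B (B ⊗[R] F) (n + 1)) :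
    PdLT B (B ⊗[R] M) (n + 1) :=
  pdLT_right (f.baseChange B) (g.baseChange B)
    (Module.Flat.lTensor_preserves_injective_linearMap (M := B) _ hf)
    (LinearMap.lTensor_surjective B hg) (baseChange_exact B f g hg h) h1 h2

lemma exists_syzygy {M : Type u} [AddCommGroup M] [Module R M] {n : ℕ}
    (h : PdLT R M (n + 2)) : ∃ (K F : ModuleCat.{u} R) (f : K →ₗ[R] F) (g : F →ₗ[R] M),
      Function.Injective f ∧ Function.Surjective g ∧ Function.Exact f g ∧ Module.Free R F ∧
      PdLT R K (n + 1) := by
  let π : (M →₀ R) →ₗ[R] M := Finsupp.linearCombination R id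
  have hπ : Function.Surjective π := Finsupp.linearCombination_id_surjective R M
  have hK : PdLT R (LinearMap.ker π) (n + 1) :=
    pdLT_left (LinearMap.ker π).subtype π (Submodule.injective_subtype _) hπ
      (LinearMap.exact_subtype_ker_map π)
      (pdLT_mono (by omega) (pdLT_one_of_projective inferInstance)) h
  exact ⟨ModuleCat.of R (LinearMap.ker π), ModuleCat.of R (M →₀ R), (LinearMap.ker π).subtype, π,
    Submodule.injective_subtype _, hπ, LinearMap.exact_subtype_ker_map π,
    inferInstanceAs (Module.Free R (M →₀ R)), hK⟩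

/-- flat base change of projective dimension -/
theorem pdLT_baseChange_flat (B : Type u) [CommRing B] [Algebra R B] [Module.Flat R B] {n : ℕ} :
    ∀ (M : Type u) [AddCommGroup M] [Module R M], PdLT R M n → PdLT B (B ⊗[R] M) n := by
  induction n with
  | zero =>
    intro M _ _ h
    rw [pdLT_zero_iff] at h ⊢
    infer_instance
  | succ n ih =>
    intro M _ _ h
    match n with
    | 0 =>
      have hp := projective_of_pdLT_one h
      exact pdLT_one_of_projective inferInstance
    | n + 1 =>
      obtain ⟨K, F, f, g, hf, hg, he, hF, hK⟩ := exists_syzygy h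
      have h2 : PdLT B (B ⊗[R] F) (n + 2) :=
        pdLT_mono (by omega) (pdLT_one_of_projective inferInstance)
      exact pdLT_right_baseChange B f g hf hg he (ih K hK) h2

variable (x : R)

/-- the quotient `M / xM` as a module over `R / x` -/
abbrev Qx (M : Type u) [AddCommGroup M] [Module R M] : Type u :=
  M ⧸ (Ideal.span {x} • (⊤ : Submodule R M))

lemma mem_span_smul_top {M : Type u} [AddCommGroup M] [Module R M] (m : M) :
    m ∈ (Ideal.span {x} • (⊤ : Submodule R M)) ↔ ∃ m' : M, m = x • m' := by
  rw [Submodule.ideal_span_singleton_smul, Submodule.mem_smul_pointwise_iff_exists]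
  constructor
  · rintro ⟨a, -, rfl⟩
    exact ⟨a, rfl⟩
  · rintro ⟨a, rfl⟩
    exact ⟨a, trivial, rfl⟩

lemma qx_surj : Function.Surjective (algebraMap R (R ⧸ Ideal.span {x})) :=
  Ideal.Quotient.mk_surjective

/-- a map which induces a map of quotients -/
noncomputable def qmap {M N : Type u} [AddCommGroup M] [Module R M] [AddCommGroup N] [Module R N]
    (f : M →ₗ[R] N) : Qx x M →ₗ[R ⧸ Ideal.span {x}] Qx x N :=
  LinearMap.extendScalarsOfSurjective (qx_surj x)
    (Submodule.mapQ _ _ f (by
      intro m hm
      rw [mem_span_smul_top] at hm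
      obtain ⟨m', rfl⟩ := hm
      rw [Submodule.mem_comap, mem_span_smul_top]
      exact ⟨f m', by simp⟩))

lemma qmap_mk {M N : Type u} [AddCommGroup M] [Module R M] [AddCommGroup N] [Module R N]
    (f : M →ₗ[R] N) (m : M) :
    qmap x f (Submodule.Quotient.mk m) = Submodule.Quotient.mk (f m) := rfl

lemma qmk_eq_zero {M : Type u} [AddCommGroup M] [Module R M] (m : M) :
    (Submodule.Quotient.mk m : Qx x M) = 0 ↔ ∃ m' : M, m = x • m' := by
  rw [Submodule.Quotient.mk_eq_zero, mem_span_smul_top]

lemma projective_qx (M : Type u) [AddCommGroup M] [Module R M] [Module.Projective R M] :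
    Module.Projective (R ⧸ Ideal.span {x}) (Qx x M) := by
  refine Module.Projective.of_lifting_property'' fun f hf => ?_
  let f0 : (Qx x M →₀ (R ⧸ Ideal.span {x})) →ₗ[R] Qx x M := f.restrictScalars R
  obtain ⟨h, hh⟩ := Module.projective_lifting_property f0
    (Submodule.mkQ (Ideal.span {x} • (⊤ : Submodule R M))) hf
  have hk : (Ideal.span {x} • (⊤ : Submodule R M)) ≤ LinearMap.ker h := by
    intro m hm
    rw [mem_span_smul_top] at hm
    obtain ⟨m', rfl⟩ := hm
    rw [LinearMap.mem_ker, map_smul]
    ext i
    rw [Finsupp.smul_apply, Algebra.smul_def]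
    have : algebraMap R (R ⧸ Ideal.span {x}) x = 0 := by
      rw [Ideal.Quotient.algebraMap_eq]
      exact Ideal.Quotient.eq_zero_iff_mem.2 (Ideal.mem_span_singleton_self x)
    rw [this, zero_mul, Finsupp.zero_apply]
  refine ⟨LinearMap.extendScalarsOfSurjective (qx_surj x) (Submodule.liftQ _ h hk), ?_⟩
  apply LinearMap.ext
  intro q
  obtain ⟨m, rfl⟩ := Submodule.mkQ_surjective _ q
  have := congrArg (fun l => l m) hh
  exact this

/-- reduction modulo a regular element of projective dimension -/
theorem pdLT_qx {n : ℕ} :
    ∀ (M : Type u) [AddCommGroup M] [Module R M], (∀ m : M, x • m = 0 → m = 0) →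
      (∀ a : R, x * a = 0 → a = 0) → PdLT R M n →
      PdLT (R ⧸ Ideal.span {x}) (Qx x M) n := by
  induction n with
  | zero =>
    intro M _ _ hM hR h
    rw [pdLT_zero_iff] at h ⊢
    infer_instance
  | succ n ih =>
    intro M _ _ hM hR h
    match n with
    | 0 =>
      have hp := projective_of_pdLT_one h
      exact pdLT_one_of_projective (projective_qx x M)
    | n + 1 =>
      let π : (M →₀ R) →ₗ[R] M := Finsupp.linearCombination R id
      have hπ : Function.Surjective π := Finsupp.linearCombination_id_surjective R M
      have hK : PdLT R (LinearMap.ker π) (n + 1) :=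
        pdLT_left (LinearMap.ker π).subtype π (Submodule.injective_subtype _) hπ
          (LinearMap.exact_subtype_ker_map π)
          (pdLT_mono (by omega) (pdLT_one_of_projective inferInstance)) h
      have hF : ∀ y : (M →₀ R), x • y = 0 → y = 0 := by
        intro y hy
        ext i
        apply hR
        have := congrArg (fun w => w i) hy
        simpa using this
      have h1 := ih (LinearMap.ker π) (by
        intro k hk
        apply Subtype.ext
        exact hF _ (congrArg Subtype.val hk)) hR hK
      have h2 : PdLT (R ⧸ Ideal.span {x}) (Qx x (M →₀ R)) (n + 2) :=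
        pdLT_mono (by omega) (pdLT_one_of_projective (projective_qx x _))
      refine pdLT_right (qmap x (LinearMap.ker π).subtype) (qmap x π) ?_ ?_ ?_ h1 h2
      · rw [injective_iff_map_eq_zero]
        intro k hk
        obtain ⟨k, rfl⟩ := Submodule.Quotient.mk_surjective _ k
        rw [qmap_mk, qmk_eq_zero] at hk
        obtain ⟨y, hy⟩ := hk
        have hy0 : π y = 0 := by
          apply hM
          rw [← map_smul, ← hy]
          exact k.2
        rw [qmk_eq_zero]
        exact ⟨⟨y, hy0⟩, Subtype.ext hy⟩
      · intro q
        obtain ⟨m, rfl⟩ := Submodule.Quotient.mk_surjective _ q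
        obtain ⟨y, rfl⟩ := hπ m
        exact ⟨Submodule.Quotient.mk y, rfl⟩
      · intro q
        obtain ⟨y, rfl⟩ := Submodule.Quotient.mk_surjective _ q
        rw [qmap_mk, qmk_eq_zero]
        constructor
        · rintro ⟨m, hm⟩
          obtain ⟨y', rfl⟩ := hπ m
          refine ⟨Submodule.Quotient.mk ⟨y - x • y', ?_⟩, ?_⟩
          · rw [LinearMap.mem_ker, map_sub, map_smul, hm, sub_self]
          · rw [qmap_mk]
            rw [← sub_eq_zero, ← Submodule.Quotient.mk_sub, qmk_eq_zero]
            exact ⟨-y', by simp⟩
        · rintro ⟨k, hk⟩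
          obtain ⟨k, rfl⟩ := Submodule.Quotient.mk_surjective _ k
          rw [qmap_mk, ← sub_eq_zero, ← Submodule.Quotient.mk_sub, qmk_eq_zero] at hk
          obtain ⟨y', hy'⟩ := hk
          refine ⟨- π y', ?_⟩
          have hk0 : π ((LinearMap.ker π).subtype k) = 0 := k.2
          have := congrArg π hy'
          rw [map_sub, hk0, zero_sub, map_smul] at this
          rw [smul_neg, ← this, neg_neg]

end basechange

end Pool.Agent.Y204.NM
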