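import Pool.Agent.Y204.NM.Contract
import Pool.Agent.Y204.NM.Pd

set_option autoImplicit false
set_option linter.unusedSectionVars false

universe u

open Pool.Agent.W506.Hilb CategoryTheory TensorProduct IsLocalRing Module MvPolynomial

namespace Pool.Agent.Y204.NM

section ext

variable {k P S : Type u} [CommRing k] [CommRing P] [CommRing S] [Algebra k P] [Algebra P S]
  [Algebra k S] [IsScalarTower k P S]

/-- derivations extend to localizations -/
theorem exists_extend (M : Submonoid P) [IsLocalization M S] (D : Derivation k P P) :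
    ∃ D' : Derivation ℤ S S, ∀ p : P, D' (algebraMap P S p) = algebraMap P S (D p) := by
  have := Algebra.FormallyEtale.of_isLocalization (Rₘ := S) M
  let D1 : Derivation k P S := (Algebra.linearMap P S).compDer D
  let l1 : Ω[P⁄k] →ₗ[P] S := D1.liftKaehlerDifferential
  let l2 : Ω[S⁄k] →ₗ[S] S := (l1.liftBaseChange S) ∘ₗ
    (KaehlerDifferential.tensorKaehlerEquivOfFormallyEtale k P S).symm.toLinearMap
  refine ⟨(l2.compDer (KaehlerDifferential.D k S)).restrictScalars ℤ, fun p => ?_⟩
  change l2 (KaehlerDifferential.D k S (algebraMap P S p)) = _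
  change (l1.liftBaseChange S) ((KaehlerDifferential.tensorKaehlerEquivOfFormallyEtale k P S).symm
    (KaehlerDifferential.D k S (algebraMap P S p))) = _
  rw [KaehlerDifferential.tensorKaehlerEquivOfFormallyEtale_symm_D_algebraMap,
    LinearMap.liftBaseChange_tmul, one_smul, Derivation.liftKaehlerDifferential_comp_D]
  rfl

end ext

section graded

variable (k : Type u) [Field k] {n : ℕ} (Q : Ideal (MvPolynomial (Fin n) k)) [Q.IsPrime]
  (S : Type u) [CommRing S] [Algebra (MvPolynomial (Fin n) k) S]

/-- projective dimension over localizations of polynomial rings is finite -/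
theorem pdLT_localization [IsLocalization.AtPrime S Q] {m : ℕ}
    (f : Fin m → MvPolynomial (Fin n) k) :
    PdLT S (Ideal.span (Set.range fun l => algebraMap _ S (f l))) (n + 1) := by
  let P := MvPolynomial (Fin n) k
  have hflat : Module.Flat P S := IsLocalization.flat S Q.primeCompl
  let I0 : Ideal P := Ideal.span (Set.range f)
  have h1 : PdLT S (S ⊗[P] I0) (n + 1) := pdLT_baseChange_flat S I0 (hilbert_syzygy k n I0)
  let θ : S ⊗[P] I0 →ₗ[S] S :=
    (AlgebraTensorModule.rid P S S).toLinearMap ∘ₗ (I0.subtype.baseChange S)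
  have hθ : ∀ (s : S) (y : I0), θ (s ⊗ₜ y) = algebraMap P S y * s := by
    intro s y
    change (AlgebraTensorModule.rid P S S) (s ⊗ₜ[P] (y : P)) = _
    rw [AlgebraTensorModule.rid_tmul, Algebra.smul_def]
  have hinj : Function.Injective θ := by
    have h2 : Function.Injective (I0.subtype.baseChange S) :=
      Module.Flat.lTensor_preserves_injective_linearMap (M := S) _ (Submodule.injective_subtype _)
    exact (AlgebraTensorModule.rid P S S).injective.comp h2
  have hrange : LinearMap.range θ = Ideal.span (Set.range fun l => algebraMap P S (f l)) := by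
    apply le_antisymm
    · rintro _ ⟨z, rfl⟩
      induction z using TensorProduct.induction_on with
      | zero => rw [map_zero]; exact zero_mem _
      | add z1 z2 h1 h2 => rw [map_add]; exact add_mem h1 h2
      | tmul s y =>
        rw [hθ]
        apply Ideal.mul_mem_right
        have hy := y.2
        have h3 : algebraMap P S y ∈ I0.map (algebraMap P S) := Ideal.mem_map_of_mem _ hy
        rw [Ideal.map_span, ← Set.range_comp] at h3
        exact h3
    · rw [Ideal.span_le]
      rintro _ ⟨l, rfl⟩
      exact ⟨1 ⊗ₜ ⟨f l, Ideal.subset_span ⟨l, rfl⟩⟩, by rw [hθ, mul_one]⟩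
  have e : (S ⊗[P] I0) ≃ₗ[S] (Ideal.span (Set.range fun l => algebraMap P S (f l)) : Ideal S) :=
    (LinearEquiv.ofInjective θ hinj).trans (LinearEquiv.ofEq _ _ hrange)
  exact pdLT_equiv e h1

/-- weighted homogeneous polynomials generate contracted ideals in a localization at a prime
containing the variables of nonzero weight -/
theorem contracting_weighted [IsLocalRing S] [IsLocalization.AtPrime S Q] (w : Fin n → ℕ)
    (hQ : ∀ i, w i ≠ 0 → (X i : MvPolynomial (Fin n) k) ∈ Q)
    {m : ℕ} (f : Fin m → MvPolynomial (Fin n) k) (d : Fin m → ℕ)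
    (hf : ∀ l, (f l).IsWeightedHomogeneous w (d l)) (hd : ∀ l, (d l : k) ≠ 0) :
    ∃ (D : Fin n → Derivation ℤ S S) (a : Fin n → S),
      (∀ (i : Fin n) (p : MvPolynomial (Fin n) k), D i (algebraMap _ _ p) =
        algebraMap _ _ (pderiv i p)) ∧
      (∀ i, a i = algebraMap _ _ ((w i : MvPolynomial (Fin n) k) * X i)) ∧
      Contracting (Ideal.span (Set.range fun l => algebraMap _ S (f l))) D a := by
  let _ : Algebra k S := ((algebraMap (MvPolynomial (Fin n) k) S).comp
    (algebraMap k (MvPolynomial (Fin n) k))).toAlgebra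
  have : IsScalarTower k (MvPolynomial (Fin n) k) S := IsScalarTower.of_algebraMap_eq fun _ => rfl
  choose D hD using fun i : Fin n => exists_extend (k := k) (S := S)
    Q.primeCompl (pderiv i : Derivation k (MvPolynomial (Fin n) k) (MvPolynomial (Fin n) k))
  refine ⟨D, fun i => algebraMap _ _ ((w i : MvPolynomial (Fin n) k) * X i), hD, fun i => rfl, ?_⟩
  refine contracting_of_eigen _ D _ ?_ _ rfl ?_
  · intro i
    rw [IsLocalization.AtPrime.to_map_mem_maximal_iff S Q]
    by_cases hw : w i = 0
    · rw [hw, Nat.cast_zero, zero_mul]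
      exact zero_mem _
    · exact Ideal.mul_mem_left _ _ (hQ i hw)
  · intro l
    refine ⟨algebraMap (MvPolynomial (Fin n) k) S (C (d l : k)), ?_, ?_⟩
    · exact ((IsUnit.mk0 _ (hd l)).map (C : k →+* MvPolynomial (Fin n) k)).map _
    · have h1 := (hf l).sum_weight_X_mul_pderiv
      have h2 : ∑ i, ((w i : MvPolynomial (Fin n) k) * X i) * pderiv i (f l) =
          C (d l : k) * f l := by
        rw [map_natCast, ← nsmul_eq_mul, ← h1]
        exact Finset.sum_congr rfl fun i _ => by rw [nsmul_eq_mul, mul_assoc]
      rw [← map_mul, ← h2, map_sum]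
      exact Finset.sum_congr rfl fun i _ => by rw [hD, ← map_mul]

end graded

end Pool.Agent.Y204.NM
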