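import Pool.Agent.Y204.NM.PdOne
import Pool.Agent.Y204.NM.Can
import Pool.Agent.Y204.NM.Graded

set_option autoImplicit false
set_option linter.unusedSectionVars false

universe u

open Pool.Agent.W506.Hilb CategoryTheory TensorProduct IsLocalRing Module
open RingTheory.Sequence

namespace Pool.Agent.Y204.NM

section local_

variable {S : Type u} [CommRing S] [IsLocalRing S] [IsNoetherianRing S]

/-- the module of relations between the classes of the `D i` in the normal module -/
noncomputable def relMod (I : Ideal S) {n : ℕ} (D : Fin n → Derivation ℤ S S) :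
    Submodule (S ⧸ I) (Fin n → (S ⧸ I)) :=
  LinearMap.ker (Fintype.linearCombination (S ⧸ I) fun i => derNormal I (D i))

lemma euler_mem_relMod (I : Ideal S) {n : ℕ} (D : Fin n → Derivation ℤ S S)
    (a : Fin n → S) (hE : Contracting I D a) :
    (fun i => Ideal.Quotient.mk I (a i)) ∈ relMod I D := by
  rw [relMod, LinearMap.mem_ker, Fintype.linearCombination_apply]
  apply LinearMap.ext
  intro y
  obtain ⟨x, rfl⟩ := I.toCotangent_surjective y
  simp only [LinearMap.sum_apply, LinearMap.smul_apply, smul_eq_mul, LinearMap.zero_apply,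
    derNormal_apply]
  simp_rw [← map_mul]
  rw [← map_sum]
  exact Ideal.Quotient.eq_zero_iff_mem.2 (hE.stable _ x.2)

/-- if the normal module has projective dimension at most one and no functional on the relations
takes a unit value at the Euler relation, the ideal is generated by a regular sequence -/
theorem regular_of_pd_one (I : Ideal S) (hI : I ≠ ⊤) {p : ℕ} (hpd : PdLT S I p)
    {n : ℕ} (D : Fin n → Derivation ℤ S S) (a : Fin n → S) (hE : Contracting I D a)
    (hN : PdLT (S ⧸ I) (I.Cotangent →ₗ[S ⧸ I] (S ⧸ I)) 2)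
    (hK : ∀ ω : relMod I D →ₗ[S ⧸ I] (S ⧸ I), ¬ IsUnit (ω ⟨_, euler_mem_relMod I D a hE⟩)) :
    ∃ rs : List S, Ideal.span {r : S | r ∈ rs} = I ∧ IsRegular S rs := by
  have hnt : Nontrivial (S ⧸ I) := Ideal.Quotient.nontrivial_iff.2 hI
  have hloc : IsLocalRing (S ⧸ I) :=
    IsLocalRing.of_surjective' (Ideal.Quotient.mk I) Ideal.Quotient.mk_surjective
  have hfin : Module.Finite (S ⧸ I) I.Cotangent := by
    have h1 : Module.Finite S I.Cotangent :=
      Module.Finite.of_surjective I.toCotangent I.toCotangent_surjective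
    exact Module.Finite.of_restrictScalars_finite S (S ⧸ I) I.Cotangent
  have hfin2 : Module.Finite (S ⧸ I) (I.Cotangent →ₗ[S ⧸ I] (S ⧸ I)) := inferInstance
  obtain ⟨r, π, hπ⟩ := Module.Finite.exists_fin' (S ⧸ I) (I.Cotangent →ₗ[S ⧸ I] (S ⧸ I))
  let φ : Fin r → (I.Cotangent →ₗ[S ⧸ I] (S ⧸ I)) := fun j => π (Pi.single j 1)
  have hπφ : π = Fintype.linearCombination (S ⧸ I) φ := by
    apply LinearMap.pi_ext'
    intro j
    apply LinearMap.ext_ring
    simp [φ, Fintype.linearCombination_apply_single]
  have hsurj : Function.Surjective (Fintype.linearCombination (S ⧸ I) φ) := hπφ ▸ hπ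
  choose c' hc' using fun i : Fin n => hsurj (derNormal I (D i))
  choose c hcc using fun (i : Fin n) (j : Fin r) => Ideal.Quotient.mk_surjective (c' i j)
  have hc : ∀ i, derNormal I (D i) = ∑ j, Ideal.Quotient.mk I (c i j) • φ j := by
    intro i
    rw [← hc' i, Fintype.linearCombination_apply]
    exact Finset.sum_congr rfl fun j _ => by rw [hcc]
  let Z := LinearMap.ker (Fintype.linearCombination (S ⧸ I) φ)
  have hZ1 : PdLT (S ⧸ I) Z 1 :=
    pdLT_left Z.subtype (Fintype.linearCombination (S ⧸ I) φ) (Submodule.injective_subtype _)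
      hsurj (LinearMap.exact_subtype_ker_map _) (pdLT_one_of_projective inferInstance) hN
  have hZp := projective_of_pdLT_one hZ1
  have hZf : Module.Free (S ⧸ I) Z := Module.free_of_flat_of_isLocalRing
  have hg := euler_mem_ker I D a hE φ c hc
  refine regular_of_euler I hI hpd D a hE φ c hc ?_
  let β := Module.Free.chooseBasis (S ⧸ I) Z
  let g : Z := ⟨_, hg⟩
  by_cases hall : ∀ j, ¬ IsUnit (β.repr g j)
  · choose t ht using fun j => Ideal.Quotient.mk_surjective (β.repr g j)
    have htm : ∀ j, t j ∈ maximalIdeal S := by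
      intro j
      rw [mem_maximalIdeal, mem_nonunits_iff]
      intro hu
      apply hall j
      rw [← ht]
      exact hu.map _
    have h1 : (g : Fin r → S ⧸ I) = ∑ j, t j • (β j : Fin r → S ⧸ I) := by
      conv_lhs => rw [← β.sum_repr g]
      rw [AddSubmonoidClass.coe_finsetSum]
      refine Finset.sum_congr rfl fun j _ => ?_
      rw [← ht, Submodule.coe_smul]
      rfl
    change (g : Fin r → S ⧸ I) ∈ _
    rw [h1]
    refine Submodule.sum_mem _ fun j _ => ?_
    exact Submodule.smul_mem_smul (htm j) (β j).2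
  · push Not at hall
    obtain ⟨j, hj⟩ := hall
    exfalso
    -- the map from relations between the `D i` to relations between the `φ j`
    let C : (Fin n → S ⧸ I) →ₗ[S ⧸ I] (Fin r → S ⧸ I) :=
      Fintype.linearCombination (S ⧸ I) fun i => fun j => Ideal.Quotient.mk I (c i j)
    have hC : ∀ z ∈ relMod I D, C z ∈ Z := by
      intro z hz
      rw [relMod, LinearMap.mem_ker, Fintype.linearCombination_apply] at hz
      rw [LinearMap.mem_ker, Fintype.linearCombination_apply, ← hz]
      simp_rw [hc]
      have h2 : ∀ j, C z j = ∑ i, z i * Ideal.Quotient.mk I (c i j) := by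
        intro j
        simp only [C, Fintype.linearCombination_apply, Finset.sum_apply, Pi.smul_apply, smul_eq_mul]
      simp_rw [h2, Finset.sum_smul, Finset.smul_sum, smul_smul]
      rw [Finset.sum_comm]
    let CK : relMod I D →ₗ[S ⧸ I] Z := (C ∘ₗ (relMod I D).subtype).codRestrict Z
      (fun z => hC z z.2)
    have hCg : CK ⟨_, euler_mem_relMod I D a hE⟩ = g := by
      apply Subtype.ext
      funext j
      change C _ j = _
      simp only [C, Fintype.linearCombination_apply, Finset.sum_apply, Pi.smul_apply, smul_eq_mul,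
        g, map_sum, map_mul]
      rfl
    apply hK ((β.coord j) ∘ₗ CK)
    rw [LinearMap.comp_apply, hCg]
    exact hj

end local_

section poly

variable (k : Type u) [Field k] {n : ℕ} (Q : Ideal (MvPolynomial (Fin n) k)) [Q.IsPrime]
  (S : Type u) [CommRing S] [Algebra (MvPolynomial (Fin n) k) S] [IsLocalization.AtPrime S Q]
  [IsLocalRing S] [IsNoetherianRing S] [Algebra k S]
  [IsScalarTower k (MvPolynomial (Fin n) k) S]

open MvPolynomial

include Q

/-- a `k`-derivation of `S/I` is determined by its values on the variables -/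
theorem der_eq_sum (I : Ideal S) (D : Fin n → Derivation ℤ S S)
    (hD : ∀ (i : Fin n) (p : MvPolynomial (Fin n) k), D i (algebraMap _ _ p) =
        algebraMap _ _ (pderiv i p)) (δ : Derivation k (S ⧸ I) (S ⧸ I)) (s : S) :
    δ (Ideal.Quotient.mk I s) = ∑ i, δ (Ideal.Quotient.mk I (algebraMap (MvPolynomial (Fin n) k) S (X i))) *
      Ideal.Quotient.mk I (D i s) := by
  let z : Fin n → S ⧸ I := fun i => δ (Ideal.Quotient.mk I (algebraMap (MvPolynomial (Fin n) k) S (X i)))
  let T : S → S ⧸ I := fun s => δ (Ideal.Quotient.mk I s) - ∑ i, z i * Ideal.Quotient.mk I (D i s)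
  have hadd : ∀ s t, T (s + t) = T s + T t := by
    intro s t
    simp only [T, map_add, mul_add, Finset.sum_add_distrib]
    ring
  have hmul : ∀ s t, T (s * t) = Ideal.Quotient.mk I s * T t + Ideal.Quotient.mk I t * T s := by
    intro s t
    simp only [T, map_mul, Derivation.leibniz, map_add, smul_eq_mul, mul_sub]
    have h1 : ∀ i, z i * (Ideal.Quotient.mk I s * Ideal.Quotient.mk I (D i t) +
        Ideal.Quotient.mk I t * Ideal.Quotient.mk I (D i s)) =
        Ideal.Quotient.mk I s * (z i * Ideal.Quotient.mk I (D i t)) +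
        Ideal.Quotient.mk I t * (z i * Ideal.Quotient.mk I (D i s)) := fun i => by ring
    simp_rw [h1]
    rw [Finset.sum_add_distrib, ← Finset.mul_sum, ← Finset.mul_sum]
    ring
  have hX : ∀ j, T (algebraMap (MvPolynomial (Fin n) k) S (X j)) = 0 := by
    intro j
    simp only [T, hD]
    rw [Finset.sum_eq_single j]
    · rw [pderiv_X_self, map_one, map_one, mul_one, sub_self]
    · intro i _ hij
      rw [pderiv_X_of_ne (Ne.symm hij), map_zero, map_zero, mul_zero]
    · intro h
      exact absurd (Finset.mem_univ _) h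
  have hpoly : ∀ p : MvPolynomial (Fin n) k, T (algebraMap _ S p) = 0 := by
    intro p
    induction p using MvPolynomial.induction_on with
    | C c =>
      simp only [T, hD, pderiv_C, map_zero, mul_zero, Finset.sum_const_zero, sub_zero]
      have h1 : Ideal.Quotient.mk I (algebraMap (MvPolynomial (Fin n) k) S (C c)) =
          algebraMap k (S ⧸ I) c := by
        rw [← MvPolynomial.algebraMap_eq, ← IsScalarTower.algebraMap_apply]
        rfl
      rw [h1, Derivation.map_algebraMap]
    | add p q hp hq => rw [map_add, hadd, hp, hq, add_zero]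
    | mul_X p j hp => rw [map_mul, hmul, hp, hX, mul_zero, mul_zero, add_zero]
  obtain ⟨⟨p, y⟩, hy⟩ := IsLocalization.surj Q.primeCompl s
  have h1 := hpoly p
  rw [← hy, hmul, hpoly, mul_zero, zero_add] at h1
  have h2 : IsUnit (Ideal.Quotient.mk I (algebraMap (MvPolynomial (Fin n) k) S y)) :=
    (IsLocalization.map_units S y).map _
  have h3 : T s = 0 := (h2.mul_right_eq_zero).1 h1
  exact sub_eq_zero.1 h3

/-- the canonical data excludes functionals with unit value at the Euler relation -/
theorem relMod_no_unit (I : Ideal S) (D : Fin n → Derivation ℤ S S) (a : Fin n → S)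
    (hD : ∀ (i : Fin n) (p : MvPolynomial (Fin n) k), D i (algebraMap _ _ p) =
        algebraMap _ _ (pderiv i p)) (hE : Contracting I D a)
    {A W : Type u} [CommRing A] [IsLocalRing A] [Algebra k A] [Algebra A (S ⧸ I)]
    [IsScalarTower k A (S ⧸ I)] [AddCommGroup W] [Module (S ⧸ I) W]
    [Module A W] [IsScalarTower A (S ⧸ I) W] {ev : W →ₗ[A] A} {E : Derivation k (S ⧸ I) (S ⧸ I)}
    {e : ℕ} {v : Fin e → Derivation k A A} {α : Fin e → A}
    (h : CanonicalData k A (S ⧸ I) W ev E v α)
    (hEX : ∀ i, E (Ideal.Quotient.mk I (algebraMap (MvPolynomial (Fin n) k) S (X i))) = Ideal.Quotient.mk I (a i))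
    (ω : relMod I D →ₗ[S ⧸ I] (S ⧸ I)) : ¬ IsUnit (ω ⟨_, euler_mem_relMod I D a hE⟩) := by
  let ζ0 : Derivation k (S ⧸ I) (S ⧸ I) →ₗ[S ⧸ I] (Fin n → S ⧸ I) :=
    { toFun := fun δ i => δ (Ideal.Quotient.mk I (algebraMap (MvPolynomial (Fin n) k) S (X i)))
      map_add' := fun δ ε => rfl
      map_smul' := fun c δ => rfl }
  have hζ : ∀ δ, ζ0 δ ∈ relMod I D := by
    intro δ
    rw [relMod, LinearMap.mem_ker, Fintype.linearCombination_apply]
    apply LinearMap.ext
    intro y
    obtain ⟨x, rfl⟩ := I.toCotangent_surjective y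
    simp only [LinearMap.sum_apply, LinearMap.smul_apply, smul_eq_mul, LinearMap.zero_apply,
      derNormal_apply]
    have h1 := der_eq_sum k Q S I D hD δ (x : S)
    rw [Ideal.Quotient.eq_zero_iff_mem.2 x.2, map_zero] at h1
    exact h1.symm
  let ζ : Derivation k (S ⧸ I) (S ⧸ I) →ₗ[S ⧸ I] relMod I D := ζ0.codRestrict _ hζ
  have h2 := h.not_isUnit (ω ∘ₗ ζ)
  rw [LinearMap.comp_apply] at h2
  have h3 : ζ E = ⟨_, euler_mem_relMod I D a hE⟩ := by
    apply Subtype.ext
    funext i
    exact hEX i
  rwa [h3] at h2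

end poly

end Pool.Agent.Y204.NM
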