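import Pool.Agent.Y204.NM.FV5
import Pool.Agent.Y204.NM.Euler

set_option autoImplicit false
set_option linter.unusedSectionVars false

universe u

open Pool.Agent.W506.Hilb CategoryTheory TensorProduct IsLocalRing Module
open RingTheory.Sequence Pointwise

namespace Pool.Agent.Y204.NM

section

variable {R : Type u} [CommRing R] (M : Type u) [AddCommGroup M] [Module R M]

/-- a homomorphism with values in `(rs) L` lies in `(rs) Hom(M, L)` -/
theorem mem_ofList_smul_hom (rs : List R) : ∀ (L : Type u) [AddCommGroup L] [Module R L] (j : ℕ),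
    rs.length ≤ j + 1 → IsWeaklyRegular L rs → (∀ i, 1 ≤ i → i ≤ j → ExtZero R M L i) →
    ∀ ψ : M →ₗ[R] L, (∀ y, ψ y ∈ (Ideal.ofList rs • (⊤ : Submodule R L))) →
    ψ ∈ (Ideal.ofList rs • (⊤ : Submodule R (M →ₗ[R] L))) := by
  induction rs with
  | nil =>
    intro L _ _ j _ _ _ ψ hψ
    have h0 : ψ = 0 := by
      ext y
      have := hψ y
      rwa [Ideal.ofList_nil, Submodule.bot_smul, Submodule.mem_bot] at this
    rw [h0]
    exact zero_mem _
  | cons a rs ih =>
    intro L _ _ j hlen hreg hext ψ hψ
    rw [isWeaklyRegular_cons_iff] at hreg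
    rw [Ideal.ofList_cons_smul]
    let ψ' : M →ₗ[R] QuotSMulTop a L := homQuot M L a (Submodule.Quotient.mk ψ)
    have hψ' : ∀ y, ψ' y ∈ (Ideal.ofList rs • (⊤ : Submodule R (QuotSMulTop a L))) := by
      intro y
      have h1 := hψ y
      rw [Ideal.ofList_cons_smul, Submodule.mem_sup] at h1
      obtain ⟨p, hp, q, hq, hpq⟩ := h1
      have h2 : ψ' y = (Submodule.mkQ (a • (⊤ : Submodule R L))) q := by
        change (Submodule.mkQ (a • (⊤ : Submodule R L))) (ψ y) = _
        rw [← hpq, map_add]
        have h3 : (Submodule.mkQ (a • (⊤ : Submodule R L))) p = 0 := by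
          rw [Submodule.mkQ_apply, Submodule.Quotient.mk_eq_zero]
          exact hp
        rw [h3, zero_add]
      rw [h2]
      have h4 : (Submodule.mkQ (a • (⊤ : Submodule R L))) q ∈
          Submodule.map (Submodule.mkQ (a • (⊤ : Submodule R L)))
            (Ideal.ofList rs • (⊤ : Submodule R L)) := Submodule.mem_map_of_mem hq
      rw [Submodule.map_smul''] at h4
      exact Submodule.smul_mono le_rfl le_top h4
    have hfin : ∀ χ : M →ₗ[R] L, χ ∈ (Ideal.ofList rs • (⊤ : Submodule R (M →ₗ[R] L))) →
        (Submodule.Quotient.mk χ : QuotSMulTop a (M →ₗ[R] L)) = Submodule.Quotient.mk ψ →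
        ψ ∈ a • (⊤ : Submodule R (M →ₗ[R] L)) ⊔ Ideal.ofList rs • ⊤ := by
      intro χ hχ heq
      have h5 : ψ - χ ∈ a • (⊤ : Submodule R (M →ₗ[R] L)) := by
        rw [← Submodule.Quotient.mk_eq_zero, Submodule.Quotient.mk_sub, heq, sub_self]
      have h6 : ψ = (ψ - χ) + χ := by abel
      rw [h6]
      exact add_mem (Submodule.mem_sup_left h5) (Submodule.mem_sup_right hχ)
    match rs with
    | [] =>
      refine hfin 0 (zero_mem _) ?_
      apply homQuot_injective M L a hreg.1
      rw [Submodule.Quotient.mk_zero, map_zero]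
      symm
      ext y
      have := hψ' y
      rwa [Ideal.ofList_nil, Submodule.bot_smul, Submodule.mem_bot] at this
    | b :: rs =>
      have hj : 1 ≤ j := by
        simp only [List.length_cons] at hlen
        omega
      have hbij : Function.Bijective (homQuot M L a) := by
        refine ⟨homQuot_injective M L a hreg.1, fun φ => ?_⟩
        obtain ⟨ψ, hψ⟩ := lift_quot M L a hreg.1 (hext 1 le_rfl hj) φ
        refine ⟨Submodule.Quotient.mk ψ, ?_⟩
        ext y
        rw [homQuot_mk, hψ]
      have h1 := ih (QuotSMulTop a L) (j - 1) (by simp only [List.length_cons] at hlen ⊢; omega)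
        hreg.2 (fun i hi hij => extZero_quot M L a hreg.1 i (hext i hi (by omega))
          (hext (i + 1) (by omega) (by omega))) ψ' hψ'
      let e := LinearEquiv.ofBijective _ hbij
      have h2 : e.symm ψ' = Submodule.Quotient.mk ψ := by
        rw [LinearEquiv.symm_apply_eq]
        rfl
      have h3 : e.symm ψ' ∈ (Ideal.ofList (b :: rs) •
          (⊤ : Submodule R (QuotSMulTop a (M →ₗ[R] L)))) := by
        have h4 : e.symm ψ' ∈ Submodule.map e.symm.toLinearMap
            (Ideal.ofList (b :: rs) • (⊤ : Submodule R (M →ₗ[R] QuotSMulTop a L))) :=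
          Submodule.mem_map_of_mem h1
        rw [Submodule.map_smul''] at h4
        exact Submodule.smul_mono le_rfl le_top h4
      rw [h2] at h3
      have h5 : (⊤ : Submodule R (QuotSMulTop a (M →ₗ[R] L))) =
          Submodule.map (Submodule.mkQ (a • (⊤ : Submodule R (M →ₗ[R] L)))) ⊤ := by
        rw [Submodule.map_top, Submodule.range_mkQ]
      rw [h5, ← Submodule.map_smul''] at h3
      obtain ⟨χ, hχ, hχe⟩ := h3
      exact hfin χ hχ hχe

end

section

variable {R : Type u} [CommRing R] [IsLocalRing R] [IsNoetherianRing R]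

/-- socle elements modulo a maximal regular sequence -/
theorem exists_socle_mod (rs : List R) (hreg : IsWeaklyRegular R rs)
    (hmax : ∀ c ∈ maximalIdeal R, ¬ IsWeaklyRegular R (rs ++ [c])) :
    ∃ z : R, z ∉ Ideal.ofList rs ∧ ∀ a ∈ maximalIdeal R, a * z ∈ Ideal.ofList rs := by
  classical
  let T := R ⧸ (Ideal.ofList rs • (⊤ : Submodule R R))
  have hfin := associatedPrimes.finite R T
  have h1 : ((maximalIdeal R : Ideal R) : Set R) ⊆
      ⋃ i ∈ (↑hfin.toFinset : Set (Ideal R)), ((id i : Ideal R) : Set R) := by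
    intro a ha
    have h0 := hmax a ha
    rw [isWeaklyRegular_append_iff, isWeaklyRegular_singleton_iff] at h0
    have h2 : ∃ y : T, y ≠ 0 ∧ a • y = 0 := by
      by_contra hne
      push Not at hne
      apply h0
      refine ⟨hreg, ?_⟩
      intro p q hpq
      by_contra hpq'
      have h3 := hne (p - q) (sub_ne_zero.2 hpq')
      apply h3
      rw [smul_sub, sub_eq_zero]
      exact hpq
    have h4 : a ∈ ⋃ p ∈ associatedPrimes R T, (p : Set R) := by
      rw [biUnion_associatedPrimes_eq_zero_divisors]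
      exact h2
    simpa using h4
  rw [Ideal.subset_union_prime (f := id) ⊥ ⊥] at h1
  · obtain ⟨P, hP, hle⟩ := h1
    obtain ⟨hPp, z0, hz0⟩ := isAssociatedPrime_iff.1
      (AssociatedPrimes.mem_iff.1 (hfin.mem_toFinset.1 hP))
    obtain ⟨z, rfl⟩ := Submodule.Quotient.mk_surjective _ z0
    have hmem : ∀ a : R, a ∈ P ↔ a * z ∈ Ideal.ofList rs := by
      intro a
      rw [hz0, Submodule.mem_colon_singleton, Submodule.mem_bot, ← Submodule.Quotient.mk_smul,
        Submodule.Quotient.mk_eq_zero, smul_eq_mul, smul_eq_mul, Ideal.mul_top]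
    refine ⟨z, ?_, fun a ha => (hmem a).1 (hle ha)⟩
    intro hz
    apply hPp.ne_top
    rw [Ideal.eq_top_iff_one, hmem, one_mul]
    exact hz
  · intro P hP _ _
    exact (AssociatedPrimes.mem_iff.1 (hfin.mem_toFinset.1 hP)).isPrime

/-- if the dual is free and the `Ext` modules vanish, then the map to the bidual is onto -/
theorem pi_surjective (M : Type u) [AddCommGroup M] [Module R M]
    (t : ℕ) (hd : ∀ rs : List R, IsRegular R rs → rs.length ≤ t)
    (hext : ∀ i, 1 ≤ i → i + 1 ≤ t → ExtZero R M R i) {r : ℕ}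
    (b : Basis (Fin r) R (M →ₗ[R] R)) :
    Function.Surjective (LinearMap.pi fun j => b j : M →ₗ[R] (Fin r → R)) := by
  classical
  obtain ⟨rs, hlen, hmem, hreg, hmax⟩ := exists_maximal_regular R t hd
  obtain ⟨z, hz, hzm⟩ := exists_socle_mod rs hreg hmax
  by_contra hns
  let lam : M →ₗ[R] (Fin r → R) := LinearMap.pi fun j => b j
  let ev : M → (Fin r → ResidueField R) := fun y j => residue R (b j y)
  obtain ⟨c, ⟨j0, hj0⟩, hc⟩ : ∃ c : Fin r → R, (∃ j, IsUnit (c j)) ∧
      ∀ y, ∑ j, c j * b j y ∈ maximalIdeal R := by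
    by_cases hV : Submodule.span (ResidueField R) (Set.range ev) = ⊤
    · exfalso
      have hrange : ∀ v : Fin r → ResidueField R, ∃ y : M, ev y = v := by
        intro v
        have hv : v ∈ Submodule.span (ResidueField R) (Set.range ev) := hV ▸ trivial
        refine Submodule.span_induction (p := fun v _ => ∃ y : M, ev y = v) ?_ ?_ ?_ ?_ hv
        · rintro _ ⟨y, rfl⟩
          exact ⟨y, rfl⟩
        · refine ⟨0, ?_⟩
          funext l
          simp [ev]
        · rintro _ _ _ _ ⟨y, rfl⟩ ⟨y', rfl⟩
          refine ⟨y + y', ?_⟩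
          funext l
          simp [ev]
        · rintro a _ _ ⟨y, rfl⟩
          obtain ⟨t, rfl⟩ := Ideal.Quotient.mk_surjective a
          refine ⟨t • y, ?_⟩
          funext l
          simp only [ev, map_smul, smul_eq_mul, map_mul]
          rfl
      apply hns
      have hle : (⊤ : Submodule R (Fin r → R)) ≤ LinearMap.range lam := by
        refine Submodule.le_of_le_smul_of_le_jacobson_bot (I := maximalIdeal R)
          Module.Finite.fg_top (maximalIdeal_le_jacobson _) ?_
        intro w _
        obtain ⟨y, hy⟩ := hrange fun j => residue R (w j)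
        have h1 : w = lam y + (w - lam y) := by abel
        rw [h1]
        refine add_mem (Submodule.mem_sup_left ⟨y, rfl⟩) (Submodule.mem_sup_right ?_)
        have h2 : ∀ j, (w - lam y) j ∈ maximalIdeal R := by
          intro j
          rw [← residue_eq_zero_iff, Pi.sub_apply, map_sub, sub_eq_zero]
          exact (congrFun hy j).symm
        rw [pi_eq_sum_univ' (w - lam y)]
        exact Submodule.sum_mem _ fun j _ => Submodule.smul_mem_smul (h2 j) trivial
      intro w
      exact hle trivial
    · obtain ⟨g, hg0, hg⟩ := Submodule.exists_le_ker_of_lt_top _ (lt_top_iff_ne_top.2 hV)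
      choose c hc using fun l => Ideal.Quotient.mk_surjective (g (Pi.single l 1))
      have hgv : ∀ v : Fin r → ResidueField R, g v = ∑ l, v l * residue R (c l) := by
        intro v
        conv_lhs => rw [← LinearMap.sum_single_apply (φ := fun _ => ResidueField R) v]
        rw [map_sum]
        refine Finset.sum_congr rfl fun l _ => ?_
        have : (Pi.single l (v l) : Fin r → ResidueField R)
          = v l • (Pi.single l (1 : ResidueField R)) := by
          rw [← Pi.single_smul', smul_eq_mul, mul_one]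
        rw [this, map_smul, smul_eq_mul]
        congr 1
        exact (hc l).symm
      refine ⟨c, ?_, ?_⟩
      · by_contra hne
        push Not at hne
        apply hg0
        apply LinearMap.ext
        intro v
        rw [hgv, LinearMap.zero_apply]
        refine Finset.sum_eq_zero fun l _ => ?_
        rw [(residue_eq_zero_iff (c l)).2 ((mem_maximalIdeal _).2 (hne l)), mul_zero]
      · intro y
        have h2 : g (ev y) = 0 := by
          have : ev y ∈ Submodule.span (ResidueField R) (Set.range ev) :=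
            Submodule.subset_span ⟨y, rfl⟩
          exact hg this
        rw [hgv] at h2
        rw [← residue_eq_zero_iff, map_sum, ← h2]
        exact Finset.sum_congr rfl fun l _ => by rw [map_mul, mul_comm]
  let φ : M →ₗ[R] R := ∑ j, c j • b j
  have hφ : ∀ y, φ y = ∑ j, c j * b j y := by
    intro y
    simp [φ, LinearMap.sum_apply]
  have h1 : ∀ y, (z • φ) y ∈ (Ideal.ofList rs • (⊤ : Submodule R R)) := by
    intro y
    rw [smul_eq_mul, Ideal.mul_top, LinearMap.smul_apply, smul_eq_mul, mul_comm]
    apply hzm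
    rw [hφ]
    exact hc y
  have h2 := mem_ofList_smul_hom M rs R (t - 1) (by omega) hreg
    (fun i hi hij => hext i hi (by omega)) (z • φ) h1
  have h3 : ∀ χ ∈ (Ideal.ofList rs • (⊤ : Submodule R (M →ₗ[R] R))),
      b.repr χ j0 ∈ Ideal.ofList rs := by
    intro χ hχ
    refine Submodule.smul_induction_on (p := fun χ => b.repr χ j0 ∈ Ideal.ofList rs) hχ ?_ ?_
    · intro a ha ψ _
      rw [map_smul, Finsupp.smul_apply, smul_eq_mul]
      exact Ideal.mul_mem_right _ _ ha
    · intro ψ χ h h'
      rw [map_add, Finsupp.add_apply]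
      exact add_mem h h'
  have h4 := h3 _ h2
  have h5 : b.repr (z • φ) j0 = z * c j0 := by
    rw [map_smul, Finsupp.smul_apply, smul_eq_mul]
    congr 1
    simp only [φ]
    rw [b.repr_sum_self]
  rw [h5] at h4
  apply hz
  obtain ⟨v, hv⟩ := hj0
  have h6 : z = (z * c j0) * (↑v⁻¹ : R) := by rw [← hv, mul_assoc, Units.mul_inv, mul_one]
  rw [h6]
  exact Ideal.mul_mem_right _ _ h4

end

/-- **Main local theorem.** -/
theorem regular_of_ext {S : Type u} [CommRing S] [IsLocalRing S] [IsNoetherianRing S]
    (I : Ideal S) (hI : I ≠ ⊤) {p : ℕ} (hpd : PdLT S I p)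
    {q : ℕ} (hN : PdLT (S ⧸ I) (I.Cotangent →ₗ[S ⧸ I] (S ⧸ I)) q) (t : ℕ)
    (hd : ∀ rs : List (S ⧸ I), IsRegular (S ⧸ I) rs → rs.length ≤ t)
    (hext : ∀ i, 1 ≤ i → i + 1 ≤ t → ExtZero (S ⧸ I) I.Cotangent (S ⧸ I) i) :
    ∃ rs : List S, Ideal.span {r : S | r ∈ rs} = I ∧ IsRegular S rs := by
  have hnt : Nontrivial (S ⧸ I) := Ideal.Quotient.nontrivial_iff.2 hI
  have hloc : IsLocalRing (S ⧸ I) :=
    IsLocalRing.of_surjective' (Ideal.Quotient.mk I) Ideal.Quotient.mk_surjective
  have hfin : Module.Finite (S ⧸ I) I.Cotangent := by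
    have h1 : Module.Finite S I.Cotangent :=
      Module.Finite.of_surjective I.toCotangent I.toCotangent_surjective
    exact Module.Finite.of_restrictScalars_finite S (S ⧸ I) I.Cotangent
  have hfin2 : Module.Finite (S ⧸ I) (I.Cotangent →ₗ[S ⧸ I] (S ⧸ I)) := inferInstance
  have hfree := dual_free_of_ext (S ⧸ I) t hd I.Cotangent
    (fun i hi hij => hext i hi (by omega)) hN
  let b := Module.finBasis (S ⧸ I) (I.Cotangent →ₗ[S ⧸ I] (S ⧸ I))
  have hsurj := pi_surjective I.Cotangent t hd hext b
  let r := Module.finrank (S ⧸ I) (I.Cotangent →ₗ[S ⧸ I] (S ⧸ I))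
  let l : I →ₗ[S] (Fin r → S ⧸ I) :=
    ((LinearMap.pi fun j => b j : I.Cotangent →ₗ[S ⧸ I] (Fin r → S ⧸ I)).restrictScalars S) ∘ₗ
      I.toCotangent
  have hl : ∀ y j, l y j = b j (I.toCotangent y) := fun y j => rfl
  have hls : Function.Surjective l := hsurj.comp I.toCotangent_surjective
  have hfac : ∀ φ : I →ₗ[S] (S ⧸ I), ∀ y, l y = 0 → φ y = 0 := by
    intro φ y hy
    have h1 : toNormal I φ (I.toCotangent y) = φ y := toNormal_apply I φ y
    rw [← h1, ← b.sum_repr (toNormal I φ), LinearMap.sum_apply]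
    refine Finset.sum_eq_zero fun j _ => ?_
    have h2 := congrFun hy j
    rw [hl] at h2
    rw [LinearMap.smul_apply, h2]
    exact smul_zero _
  obtain ⟨rs, hrs, hreg⟩ := fv_general (S ⧸ I) r S Ideal.Quotient.mk_surjective I
    (by rw [Ideal.Quotient.algebraMap_eq, Ideal.mk_ker]) l hls hfac p hpd
  refine ⟨rs, hrs, ?_⟩
  rw [IsLocalRing.isRegular_iff_isWeaklyRegular_of_subset_maximalIdeal]
  · exact hreg
  · intro a ha
    apply le_maximalIdeal hI
    rw [← hrs]
    exact Ideal.subset_span ha

end Pool.Agent.Y204.NM
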