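import Pool.Agent.Y204.NM.Contract
import Pool.Agent.Y204.NM.Depth

set_option autoImplicit false
set_option linter.unusedSectionVars false

universe u

open Pool.Agent.W506.Hilb CategoryTheory TensorProduct IsLocalRing Module
open RingTheory.Sequence

namespace Pool.Agent.Y204.NM

variable {S : Type u} [CommRing S] [IsLocalRing S] [IsNoetherianRing S]

/-- from the unit value property to a regular sequence -/
theorem regular_of_values (I : Ideal S) (hI : I ≠ ⊤) {n : ℕ} (hpd : PdLT S I n)
    (hval : ∀ x : I, (∀ (φ : I.Cotangent →ₗ[S ⧸ I] (S ⧸ I)) (t : S),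
      φ (I.toCotangent x) = Ideal.Quotient.mk I t → t ∈ maximalIdeal S) →
      (x : S) ∈ maximalIdeal S * I) :
    ∃ rs : List S, Ideal.span {r : S | r ∈ rs} = I ∧ IsRegular S rs := by
  obtain ⟨m, f, hf, hmin⟩ := exists_minimal_generators I (IsNoetherian.noetherian I)
  have hind := independent_of_unit_values I hI f hf hmin hval
  obtain ⟨rs, hrs, hreg⟩ := ferrand_vasconcelos m S I hI f ⟨hf, hind⟩ n hpd
  refine ⟨rs, hrs, ?_⟩
  rw [IsLocalRing.isRegular_iff_isWeaklyRegular_of_subset_maximalIdeal]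
  · exact hreg
  · intro r hr
    apply le_maximalIdeal hI
    rw [← hrs]
    exact Ideal.subset_span hr

/-- a contracted ideal of finite projective dimension whose Euler relation is not a minimal
relation of the normal module is generated by a regular sequence -/
theorem regular_of_euler (I : Ideal S) (hI : I ≠ ⊤) {p : ℕ} (hpd : PdLT S I p)
    {n r : ℕ} (D : Fin n → Derivation ℤ S S)
    (a : Fin n → S) (hE : Contracting I D a)
    (φ : Fin r → (I.Cotangent →ₗ[S ⧸ I] (S ⧸ I))) (c : Fin n → Fin r → S)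
    (hc : ∀ i, derNormal I (D i) = ∑ j, Ideal.Quotient.mk I (c i j) • φ j)
    (hrel : (fun j => Ideal.Quotient.mk I (∑ i, a i * c i j)) ∈
      maximalIdeal S • (LinearMap.ker (Fintype.linearCombination (S ⧸ I) φ)).restrictScalars S) :
    ∃ rs : List S, Ideal.span {r : S | r ∈ rs} = I ∧ IsRegular S rs :=
  regular_of_values I hI hpd (mem_of_nonunit_values I D a hE φ c hc hrel)

/-- the case of a free normal module -/
theorem regular_of_free (I : Ideal S) (hI : I ≠ ⊤) {p : ℕ} (hpd : PdLT S I p)
    {n : ℕ} (D : Fin n → Derivation ℤ S S) (a : Fin n → S) (hE : Contracting I D a)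
    [Module.Free (S ⧸ I) (I.Cotangent →ₗ[S ⧸ I] (S ⧸ I))]
    [Module.Finite (S ⧸ I) (I.Cotangent →ₗ[S ⧸ I] (S ⧸ I))] :
    ∃ rs : List S, Ideal.span {r : S | r ∈ rs} = I ∧ IsRegular S rs := by
  have hnt : Nontrivial (S ⧸ I) := Ideal.Quotient.nontrivial_iff.2 hI
  let b := Module.finBasis (S ⧸ I) (I.Cotangent →ₗ[S ⧸ I] (S ⧸ I))
  choose c hc using fun i : Fin n => fun j => Ideal.Quotient.mk_surjective
    (b.repr (derNormal I (D i)) j)
  have hc' : ∀ i, derNormal I (D i) = ∑ j, Ideal.Quotient.mk I (c i j) • b j := by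
    intro i
    conv_lhs => rw [← b.sum_repr (derNormal I (D i))]
    exact Finset.sum_congr rfl fun j _ => by rw [hc]
  refine regular_of_euler I hI hpd D a hE b c hc' ?_
  have h1 := euler_mem_ker I D a hE b c hc'
  have h2 : LinearMap.ker (Fintype.linearCombination (S ⧸ I) b) = ⊥ := by
    rw [LinearMap.ker_eq_bot]
    exact b.linearIndependent.fintypeLinearCombination_injective
  rw [h2, Submodule.mem_bot] at h1
  rw [h1]
  exact zero_mem _

/-- Vasconcelos' conjecture on the normal module for contracted ideals with `depth S/I ≤ 2`. -/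
theorem regular_of_depth_le_two (I : Ideal S) (hI : I ≠ ⊤) {p : ℕ} (hpd : PdLT S I p)
    {n : ℕ} (D : Fin n → Derivation ℤ S S) (a : Fin n → S) (hE : Contracting I D a)
    (hd : ∀ rs : List (S ⧸ I), IsRegular (S ⧸ I) rs → rs.length ≤ 2)
    {q : ℕ} (hN : PdLT (S ⧸ I) (I.Cotangent →ₗ[S ⧸ I] (S ⧸ I)) q) :
    ∃ rs : List S, Ideal.span {r : S | r ∈ rs} = I ∧ IsRegular S rs := by
  have hnt : Nontrivial (S ⧸ I) := Ideal.Quotient.nontrivial_iff.2 hI
  have hloc : IsLocalRing (S ⧸ I) :=
    IsLocalRing.of_surjective' (Ideal.Quotient.mk I) Ideal.Quotient.mk_surjective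
  have hfin : Module.Finite (S ⧸ I) I.Cotangent := by
    have h1 : Module.Finite S I.Cotangent :=
      Module.Finite.of_surjective I.toCotangent I.toCotangent_surjective
    exact Module.Finite.of_restrictScalars_finite S (S ⧸ I) I.Cotangent
  have hfree := dual_free_of_depth_le_two (R := S ⧸ I) hd I.Cotangent hN
  have hfin2 : Module.Finite (S ⧸ I) (I.Cotangent →ₗ[S ⧸ I] (S ⧸ I)) := inferInstance
  exact regular_of_free I hI hpd D a hE

end Pool.Agent.Y204.NM
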