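import Pool.Agent.Y204.NM.ExtDepth
import Pool.Agent.Y204.NM.Main

set_option autoImplicit false
set_option linter.unusedSectionVars false

universe u

open Pool.Agent.W506.Hilb CategoryTheory TensorProduct IsLocalRing Module
open RingTheory.Sequence Pointwise

namespace Pool.Agent.Y204.NM

lemma qmap_exact {R : Type u} [CommRing R] (x : R) {K F M : Type u} [AddCommGroup K]
    [AddCommGroup F] [AddCommGroup M] [Module R K] [Module R F] [Module R M]
    (f : K →ₗ[R] F) (g : F →ₗ[R] M) (hf : Function.Injective f) (hg : Function.Surjective g)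
    (he : Function.Exact f g) (hM : ∀ m : M, x • m = 0 → m = 0) :
    Function.Injective (qmap x f) ∧ Function.Surjective (qmap x g) ∧
      Function.Exact (qmap x f) (qmap x g) := by
  refine ⟨?_, ?_, ?_⟩
  · rw [injective_iff_map_eq_zero]
    intro k hk
    obtain ⟨k, rfl⟩ := Submodule.Quotient.mk_surjective _ k
    rw [qmap_mk, qmk_eq_zero] at hk
    obtain ⟨y, hy⟩ := hk
    have hy0 : g y = 0 := by
      apply hM
      rw [← map_smul, ← hy]
      exact he.apply_apply_eq_zero k
    obtain ⟨k', rfl⟩ := (he y).1 hy0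
    rw [qmk_eq_zero]
    refine ⟨k', hf ?_⟩
    rw [hy, map_smul]
  · intro q
    obtain ⟨m, rfl⟩ := Submodule.Quotient.mk_surjective _ q
    obtain ⟨y, rfl⟩ := hg m
    exact ⟨Submodule.Quotient.mk y, rfl⟩
  · intro q
    obtain ⟨y, rfl⟩ := Submodule.Quotient.mk_surjective _ q
    rw [qmap_mk, qmk_eq_zero]
    constructor
    · rintro ⟨m, hm⟩
      obtain ⟨y', rfl⟩ := hg m
      have h0 : g (y - x • y') = 0 := by rw [map_sub, map_smul, hm, sub_self]
      obtain ⟨k, hk⟩ := (he _).1 h0
      refine ⟨Submodule.Quotient.mk k, ?_⟩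
      rw [qmap_mk, hk, ← sub_eq_zero, ← Submodule.Quotient.mk_sub, qmk_eq_zero]
      exact ⟨-y', by simp⟩
    · rintro ⟨k, hk⟩
      obtain ⟨k, rfl⟩ := Submodule.Quotient.mk_surjective _ k
      rw [qmap_mk, ← sub_eq_zero, ← Submodule.Quotient.mk_sub, qmk_eq_zero] at hk
      obtain ⟨y', hy'⟩ := hk
      refine ⟨- g y', ?_⟩
      have := congrArg g hy'
      rw [map_sub, he.apply_apply_eq_zero k, zero_sub, map_smul] at this
      rw [smul_neg, ← this, neg_neg]

section

variable {R : Type u} [CommRing R] [IsLocalRing R] [IsNoetherianRing R]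

/-- `pd ≤ 1` lifts along regular elements -/
theorem pd_lift (x : R) (hx : x ∈ maximalIdeal R) (hR : ∀ a : R, x * a = 0 → a = 0)
    (N : Type u) [AddCommGroup N] [Module R N] [Module.Finite R N]
    (hN : ∀ m : N, x • m = 0 → m = 0) (hpd : PdLT (R ⧸ Ideal.span {x}) (Qx x N) 2) :
    PdLT R N 2 := by
  obtain ⟨m, π, hπ⟩ := Module.Finite.exists_fin' R N
  have hloc := local_quot x hx
  obtain ⟨h1, h2, h3⟩ := qmap_exact x (LinearMap.ker π).subtype π (Submodule.injective_subtype _)
    hπ (LinearMap.exact_subtype_ker_map π) hN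
  have hF : Module.Projective (R ⧸ Ideal.span {x}) (Qx x (Fin m → R)) := projective_qx x _
  have hZ : PdLT (R ⧸ Ideal.span {x}) (Qx x (LinearMap.ker π)) 1 :=
    pdLT_left _ _ h1 h2 h3 (pdLT_one_of_projective hF) hpd
  have hZp := projective_of_pdLT_one hZ
  have hfin : Module.Finite (R ⧸ Ideal.span {x}) (Qx x (LinearMap.ker π)) :=
    Module.Finite.of_restrictScalars_finite R _ _
  have hZf : Module.Free (R ⧸ Ideal.span {x}) (Qx x (LinearMap.ker π)) :=
    Module.free_of_flat_of_isLocalRing
  have hZfree : Module.Free R (LinearMap.ker π) := by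
    refine free_of_free_qx x hx _ ?_ hZf
    intro y hy
    apply Subtype.ext
    funext i
    apply hR
    have := congrArg (fun w : LinearMap.ker π => (w : Fin m → R) i) hy
    simpa using this
  exact pdLT_right (LinearMap.ker π).subtype π (Submodule.injective_subtype _) hπ
    (LinearMap.exact_subtype_ker_map π) (pdLT_one_of_projective inferInstance)
    (pdLT_mono (by omega) (pdLT_one_of_projective inferInstance))

/-- base case: over a ring of depth one -/
theorem pd_base (x : R) (hx : x ∈ maximalIdeal R) (hR : ∀ a : R, x * a = 0 → a = 0)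
    [IsLocalRing (R ⧸ Ideal.span {x})]
    (hdepth : ¬ ∃ a ∈ maximalIdeal (R ⧸ Ideal.span {x}),
      ∀ b : R ⧸ Ideal.span {x}, a * b = 0 → b = 0)
    (N : Type u) [AddCommGroup N] [Module R N] [Module.Finite R N] {n : ℕ} (hpd : PdLT R N n) :
    PdLT R N 2 := by
  obtain ⟨m, π, hπ⟩ := Module.Finite.exists_fin' R N
  have hZreg : ∀ y : LinearMap.ker π, x • y = 0 → y = 0 := by
    intro y hy
    apply Subtype.ext
    funext i
    apply hR
    have := congrArg (fun w : LinearMap.ker π => (w : Fin m → R) i) hy
    simpa using this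
  have hZ : PdLT R (LinearMap.ker π) (n + 1) :=
    pdLT_left (LinearMap.ker π).subtype π (Submodule.injective_subtype _) hπ
      (LinearMap.exact_subtype_ker_map π)
      (pdLT_mono (by omega) (pdLT_one_of_projective inferInstance))
      (pdLT_mono (by omega) hpd)
  have hfin : Module.Finite (R ⧸ Ideal.span {x}) (Qx x (LinearMap.ker π)) :=
    Module.Finite.of_restrictScalars_finite R _ _
  have hZf := free_of_no_nzd hdepth _ (pdLT_qx x _ hZreg hR hZ)
  have hZfree : Module.Free R (LinearMap.ker π) := free_of_free_qx x hx _ hZreg hZf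
  exact pdLT_right (LinearMap.ker π).subtype π (Submodule.injective_subtype _) hπ
    (LinearMap.exact_subtype_ker_map π) (pdLT_one_of_projective inferInstance)
    (pdLT_mono (by omega) (pdLT_one_of_projective inferInstance))

end

/-- `pd ≤ 1` from an almost maximal regular sequence -/
theorem pd_of_maximal_regular {n : ℕ} (t : ℕ) : ∀ (R : Type u) [CommRing R] [IsLocalRing R]
    [IsNoetherianRing R] (rs : List R) (c : R), rs.length = t → (∀ r ∈ rs, r ∈ maximalIdeal R) →
    c ∈ maximalIdeal R →
    IsWeaklyRegular R (rs ++ [c]) →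
    (∀ c' ∈ maximalIdeal R, ¬ IsWeaklyRegular R ((rs ++ [c]) ++ [c'])) →
    ∀ (N : Type u) [AddCommGroup N] [Module R N] [Module.Finite R N], IsWeaklyRegular N rs →
    PdLT R N n → PdLT R N 2 := by
  induction t with
  | zero =>
    intro R _ _ _ rs c hlen _ hc hreg hmax N _ _ _ _ hpd
    obtain rfl := List.length_eq_zero_iff.1 hlen
    rw [List.nil_append, weaklyRegular_cons] at hreg
    have hloc := local_quot c hc
    refine pd_base c hc hreg.1 ?_ N hpd
    rintro ⟨c', hc', hreg'⟩
    obtain ⟨c'', rfl⟩ := Ideal.Quotient.mk_surjective c'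
    apply hmax c'' (mk_mem_maximal c c'' hc')
    rw [List.nil_append, List.singleton_append, weaklyRegular_cons]
    refine ⟨hreg.1, ?_⟩
    rw [List.map_cons, List.map_nil, weaklyRegular_cons]
    exact ⟨hreg', IsWeaklyRegular.nil _ _⟩
  | succ t ih =>
    intro R _ _ _ rs c hlen hmem hc hreg hmax N _ _ _ hN hpd
    match rs with
    | [] => simp at hlen
    | a :: rs =>
      have ham : a ∈ maximalIdeal R := hmem a (by simp)
      rw [List.cons_append, weaklyRegular_cons] at hreg
      rw [isWeaklyRegular_cons_iff] at hN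
      have haN : ∀ y : N, a • y = 0 → y = 0 := by
        intro y hy
        apply hN.1
        change a • y = a • (0 : N)
        rw [hy, smul_zero]
      refine pd_lift a ham hreg.1 N haN ?_
      have hpd1 := pdLT_qx a N haN hreg.1 hpd
      have hloc1 := local_quot a ham
      have hfin1 : Module.Finite (R ⧸ Ideal.span {a}) (Qx a N) :=
        Module.Finite.of_restrictScalars_finite R _ _
      have hmap : ∀ r ∈ maximalIdeal R, Ideal.Quotient.mk (Ideal.span {a}) r ∈
          maximalIdeal (R ⧸ Ideal.span {a}) := by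
        intro r h1
        rw [mem_maximalIdeal, mem_nonunits_iff] at h1 ⊢
        intro hu
        apply h1
        exact (IsLocalHom.of_surjective (Ideal.Quotient.mk (Ideal.span {a}))
          Ideal.Quotient.mk_surjective).map_nonunit r hu
      refine ih (R ⧸ Ideal.span {a}) (rs.map (Ideal.Quotient.mk (Ideal.span {a})))
        (Ideal.Quotient.mk (Ideal.span {a}) c) ?_ ?_ (hmap c hc) ?_ ?_ (Qx a N) ?_ hpd1
      · simp at hlen ⊢
        exact hlen
      · intro r hr
        rw [List.mem_map] at hr
        obtain ⟨r, hr, rfl⟩ := hr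
        exact hmap r (hmem r (by simp [hr]))
      · have := hreg.2
        rw [List.map_append] at this
        exact this
      · intro c' hc' hw
        obtain ⟨c'', rfl⟩ := Ideal.Quotient.mk_surjective c'
        apply hmax c'' (mk_mem_maximal a c'' hc')
        rw [List.cons_append, List.cons_append, weaklyRegular_cons]
        refine ⟨hreg.1, ?_⟩
        rw [List.map_append, List.map_append]
        exact hw
      · have h1 := (isWeaklyRegular_map_algebraMap_iff (R := R) (S := R ⧸ Ideal.span {a})
          (M := Qx a N) rs).2 (((qxEquiv a N).isWeaklyRegular_congr rs).2 hN.2)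
        exact h1

/-- a dual of finite projective dimension has projective dimension at most one when fewer `Ext`
modules vanish -/
theorem dual_pd_le_one_of_ext (R : Type u) [CommRing R] [IsLocalRing R] [IsNoetherianRing R]
    (t : ℕ) (hd : ∀ rs : List R, IsRegular R rs → rs.length ≤ t) (M : Type u) [AddCommGroup M]
    [Module R M] [Module.Finite R M] (hext : ∀ i, 1 ≤ i → i + 3 ≤ t → ExtZero R M R i) {n : ℕ}
    (hpd : PdLT R (M →ₗ[R] R) n) : PdLT R (M →ₗ[R] R) 2 := by
  obtain ⟨rs, hlen, hmem, hreg, hmax⟩ := exists_maximal_regular R t hd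
  rcases List.eq_nil_or_concat rs with rfl | ⟨rs', c, rfl⟩
  · have hfree : Module.Free R (M →ₗ[R] R) :=
      free_of_maximal_regular _ R [] rfl hmem hreg hmax _ (IsWeaklyRegular.nil _ _) hpd
    exact pdLT_mono (by omega) (pdLT_one_of_projective inferInstance)
  · rw [List.concat_eq_append] at hlen hmem hreg hmax
    have hreg' : IsWeaklyRegular R rs' := ((isWeaklyRegular_append_iff R rs' [c]).1 hreg).1
    rw [List.length_append, List.length_singleton] at hlen
    refine pd_of_maximal_regular _ R rs' c rfl (fun r hr => hmem r (by simp [hr]))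
      (hmem c (by simp)) hreg hmax _ ?_ hpd
    exact weaklyRegular_hom M rs' R (t - 3) (by omega) hreg'
      (fun i hi hij => hext i hi (by omega))

end Pool.Agent.Y204.NM
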