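import Pool.Agent.Y204.NM.ExtDepth

set_option autoImplicit false
set_option linter.unusedSectionVars false

universe u

open Pool.Agent.W506.Hilb CategoryTheory TensorProduct IsLocalRing Module
open RingTheory.Sequence Pointwise

namespace Pool.Agent.Y204.NM

lemma finrank_add_of_exact {B : Type u} [CommRing B] [Nontrivial B] {K F M : Type u}
    [AddCommGroup K] [AddCommGroup F] [AddCommGroup M] [Module B K] [Module B F] [Module B M]
    (f : K →ₗ[B] F) (g : F →ₗ[B] M) (hf : Function.Injective f) (hg : Function.Surjective g)
    (he : Function.Exact f g) [Module.Free B K] [Module.Finite B K] [Module.Free B M]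
    [Module.Finite B M] : finrank B F = finrank B K + finrank B M := by
  have hS := sc_shortExact f g hf hg he
  have h1 : Module.Free B (sc f g he).X₁ := inferInstanceAs (Module.Free B K)
  have h2 : Module.Finite B (sc f g he).X₁ := inferInstanceAs (Module.Finite B K)
  have h3 : Module.Free B (sc f g he).X₃ := inferInstanceAs (Module.Free B M)
  have h4 : Module.Finite B (sc f g he).X₃ := inferInstanceAs (Module.Finite B M)
  exact ModuleCat.free_shortExact_finrank_add hS rfl rfl

/-- the rank of a module of finite projective dimension is the same at all flat local algebras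
of depth zero -/
theorem rank_const {A : Type u} [CommRing A] [IsLocalRing A] [IsNoetherianRing A]
    {B B' : Type u} [CommRing B] [IsLocalRing B] [IsNoetherianRing B] [Algebra A B]
    [Module.Flat A B] [CommRing B'] [IsLocalRing B'] [IsNoetherianRing B'] [Algebra A B']
    [Module.Flat A B'] (z : B) (hz : z ≠ 0) (hzm : ∀ a ∈ maximalIdeal B, z * a = 0)
    (z' : B') (hz' : z' ≠ 0) (hzm' : ∀ a ∈ maximalIdeal B', z' * a = 0) (n : ℕ) :
    ∀ (M : Type u) [AddCommGroup M] [Module A M] [Module.Finite A M], PdLT A M n →
      finrank B (B ⊗[A] M) = finrank B' (B' ⊗[A] M) := by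
  induction n with
  | zero =>
    intro M _ _ _ h
    rw [pdLT_zero_iff] at h
    rw [finrank_zero_of_subsingleton, finrank_zero_of_subsingleton]
  | succ n ih =>
    intro M _ _ _ h
    match n with
    | 0 =>
      have hp := projective_of_pdLT_one h
      have hfree : Module.Free A M := Module.free_of_flat_of_isLocalRing
      rw [Module.finrank_baseChange, Module.finrank_baseChange]
    | n + 1 =>
      obtain ⟨m, π, hπ⟩ := Module.Finite.exists_fin' A M
      have hK : PdLT A (LinearMap.ker π) (n + 1) :=
        pdLT_left (LinearMap.ker π).subtype π (Submodule.injective_subtype _) hπ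
          (LinearMap.exact_subtype_ker_map π)
          (pdLT_mono (by omega) (pdLT_one_of_projective inferInstance)) h
      have key : ∀ (C : Type u) [CommRing C] [IsLocalRing C] [IsNoetherianRing C] [Algebra A C]
          [Module.Flat A C] (y : C), y ≠ 0 → (∀ a ∈ maximalIdeal C, y * a = 0) →
          m = finrank C (C ⊗[A] (LinearMap.ker π)) + finrank C (C ⊗[A] M) := by
        intro C _ _ _ _ _ y hy hym
        have h1 : Module.Free C (C ⊗[A] (LinearMap.ker π)) :=
          free_of_pdLT_depth0 y hy hym _ _ (pdLT_baseChange_flat C _ hK)
        have h2 : Module.Free C (C ⊗[A] M) :=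
          free_of_pdLT_depth0 y hy hym _ _ (pdLT_baseChange_flat C _ h)
        have h3 : Function.Injective ((LinearMap.ker π).subtype.baseChange C) :=
          Module.Flat.lTensor_preserves_injective_linearMap (M := C) _
            (Submodule.injective_subtype _)
        have h4 : Function.Surjective (π.baseChange C) := LinearMap.lTensor_surjective C hπ
        have h5 : Function.Exact ((LinearMap.ker π).subtype.baseChange C) (π.baseChange C) := by
          have := Module.Flat.lTensor_exact C (LinearMap.exact_subtype_ker_map π)
          exact this
        have h6 := finrank_add_of_exact _ _ h3 h4 h5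
        rw [← h6, Module.finrank_baseChange, Module.finrank_fin_fun]
      have h1 := key B z hz hzm
      have h2 := key B' z' hz' hzm'
      have h3 := ih _ hK
      omega

end Pool.Agent.Y204.NM
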